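import Pool.Agent.HS38.PX.U2

/-!
# Piece Fin2 of project XB: linear parameters bound the dimension of the critical locus
-/

set_option autoImplicit false

namespace Pool.Agent.HS38.PX

open MvPolynomial

namespace Fin2

variable {K : Type} [Field K] {σ : Type} [Fintype σ]

/-- the ideal of the partial derivatives is homogeneous -/
theorem jac_whom {H : MvPolynomial σ K} {n : ℕ} (hn : 1 ≤ n) (hH : H.IsHomogeneous n) :
    PL.WHom (fun _ : σ => 1) (Ideal.span (Set.range fun x => pderiv x H)) := by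
  apply PL.WHom.span
  rintro _ ⟨x, rfl⟩
  refine ⟨n - 1, ?_⟩
  have h : IsWeightedHomogeneous (fun _ : σ => 1) H n := hH
  exact h.pderiv (Nat.sub_add_cancel hn)

/-- a homogeneous prime ideal is contained in the ideal of the origin -/
theorem le_pt {P : Ideal (MvPolynomial σ K)} [hp : P.IsPrime] (hP : PL.WHom (fun _ : σ => 1) P) :
    P ≤ PL.pt (0 : σ → K) := by
  intro f hf
  rw [PL.mem_pt]
  have h1 := hP.comp hf 0
  have h2 : weightedHomogeneousComponent (fun _ : σ => 1) 0 f = C (coeff 0 f) :=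
    homogeneousComponent_zero f
  rw [h2] at h1
  by_contra hne
  have h3 : coeff 0 f ≠ 0 := by
    intro h
    apply hne
    rw [← h, ← constantCoeff_eq]
    have := MvPolynomial.aeval_eq_eval (0 : σ → K)
    rw [this]
    change eval 0 f = _
    rw [MvPolynomial.eval_zero]
  exact hp.ne_top (Ideal.eq_top_of_isUnit_mem _ h1 ((IsUnit.mk0 _ h3).map C))

end Fin2

theorem v_Fin2 : V_Fin2 := by
  classical
  intro K _ σ _ H n e N ℓ hn hH hℓ hmon Ω _ _ u hu
  have hJP : Ideal.span (Set.range fun x => pderiv x H) ≤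
      RingHom.ker (aeval u : MvPolynomial σ K →ₐ[K] Ω) := by
    rw [Ideal.span_le]
    rintro _ ⟨x, rfl⟩
    exact hu x
  haveI : (RingHom.ker (aeval u : MvPolynomial σ K →ₐ[K] Ω)).IsPrime := RingHom.ker_isPrime _
  obtain ⟨P, hP, hPu⟩ := Ideal.exists_minimalPrimes_le hJP
  haveI hPp : P.IsPrime := hP.1.1
  have hPw : PL.WHom (fun _ : σ => 1) P := (Fin2.jac_whom hn hH).min hP
  obtain ⟨Q, hQ, hPQ, hℓQ, hQm, htd, -⟩ := PL.cuts (Fin2.le_pt hPw)
    (Finset.univ.image ℓ) (by
      intro f hf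
      obtain ⟨j, -, rfl⟩ := Finset.mem_image.1 hf
      rw [PL.mem_pt]
      rw [MvPolynomial.aeval_eq_eval]
      change eval 0 (ℓ j) = 0
      rw [MvPolynomial.eval_zero, constantCoeff_eq]
      by_contra hne
      have := hℓ j hne
      simp at this)
  have hcQ : cj H ℓ ≤ Q := by
    refine sup_le (hP.1.2.trans hPQ) ?_
    rw [Ideal.span_le]
    rintro _ ⟨j, rfl⟩
    exact hℓQ _ (Finset.mem_image_of_mem _ (Finset.mem_univ j))
  have hX : ∀ i : σ, (X i : MvPolynomial σ K) ∈ Q := by
    intro i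
    have h1 := hcQ (hmon (Finsupp.single i N) (by simp))
    rw [← X_pow_eq_monomial] at h1
    exact hQ.mem_of_pow_mem N h1
  have hQeq : Q = PL.pt (0 : σ → K) := by
    refine le_antisymm hQm (PL.pt_le_of_mem fun j => ?_)
    rw [Pi.zero_apply, C_0, sub_zero]
    exact hX j
  rw [hQeq, PL.td_pt, zero_add] at htd
  rw [← u_td]
  refine (PL.td_le K hPu).trans (htd.trans ?_)
  exact Finset.card_image_le.trans (by simp)

end Pool.Agent.HS38.PX
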