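import Pool.Agent.HS38.PX.U2
import Mathlib.RingTheory.MvPolynomial.EulerIdentity

/-!
# Openness of the condition on linear parameters (piece NEAR of project XB)
-/

set_option autoImplicit false

namespace Pool.Agent.HS38.PX

open MvPolynomial Filter Topology

/-- the homogeneous components of a product with a homogeneous factor are multiples of it -/
theorem near_hc {σ : Type} (N d : ℕ) (a g : MvPolynomial σ ℂ) (hg : g.IsHomogeneous d) :
    ∃ c, homogeneousComponent N (a * g) = c * g := by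
  classical
  letI := MvPolynomial.gradedAlgebra (σ := σ) (R := ℂ)
  have h := DirectSum.coe_decompose_mul_of_right_mem (homogeneousSubmodule σ ℂ) N (a := a)
    (b := g) (i := d) hg
  have e : ∀ φ : MvPolynomial σ ℂ, ((DirectSum.decompose (homogeneousSubmodule σ ℂ) φ N :
      homogeneousSubmodule σ ℂ N) : MvPolynomial σ ℂ) = homogeneousComponent N φ :=
    fun φ => decomposition.decompose'_apply φ N
  rw [e] at h
  rw [h]
  split_ifs
  · exact ⟨_, rfl⟩
  · exact ⟨0, by simp⟩

theorem near_mem {σ : Type} [Fintype σ] {e : ℕ} (H : MvPolynomial σ ℂ)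
    (ℓ : Fin e → MvPolynomial σ ℂ) (n N : ℕ) (hH : H.IsHomogeneous n)
    (hℓ : ∀ j, (ℓ j).IsHomogeneous 1) (a : σ → MvPolynomial σ ℂ) (b : Fin e → MvPolynomial σ ℂ) :
    homogeneousComponent N (∑ x, a x * pderiv x H + ∑ j, b j * ℓ j) ∈ cj H ℓ := by
  rw [map_add, map_sum, map_sum]
  refine Ideal.add_mem _ (Ideal.sum_mem _ fun x _ => ?_) (Ideal.sum_mem _ fun j _ => ?_)
  · obtain ⟨c, hc⟩ := near_hc N (n - 1) (a x) (pderiv x H) hH.pderiv
    rw [hc]
    exact Ideal.mul_mem_left _ _ (Ideal.mem_sup_left (Ideal.subset_span ⟨x, rfl⟩))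
  · obtain ⟨c, hc⟩ := near_hc N 1 (b j) (ℓ j) (hℓ j)
    rw [hc]
    exact Ideal.mul_mem_left _ _ (Ideal.mem_sup_right (Ideal.subset_span ⟨j, rfl⟩))

theorem t_Near : V_Near := by
  classical
  intro σ _ H H0 n e N ℓ _ hH hlim hℓ hs
  have h1 : ∀ s : {s : σ →₀ ℕ // s.degree = N}, ∃ (a : σ → MvPolynomial σ ℂ)
      (b : Fin e → MvPolynomial σ ℂ),
      monomial s.1 (1 : ℂ) = ∑ x, a x * pderiv x H0 + ∑ j, b j * ℓ j := by
    intro s
    obtain ⟨y, hy, z, hz, hyz⟩ := Submodule.mem_sup.1 (hs s.1 s.2)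
    obtain ⟨a, ha⟩ := Ideal.mem_span_range_iff_exists_fun.1 hy
    obtain ⟨b, hb⟩ := Ideal.mem_span_range_iff_exists_fun.1 hz
    exact ⟨a, b, by rw [ha, hb, hyz]⟩
  choose a b hab using h1
  have : Finite {s : σ →₀ ℕ // s.degree = N} := by
    have : {s : σ →₀ ℕ | s.degree = N}.Finite := by
      refine (Finset.finite_toSet (Finset.univ.finsuppAntidiag N)).subset ?_
      intro s hs
      simp only [Set.mem_ofPred_eq] at hs
      simp only [Finset.mem_coe, Finset.mem_finsuppAntidiag, Finset.subset_univ, and_true]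
      rw [← hs, Finsupp.degree_eq_sum]
    exact this.to_subtype
  have := Fintype.ofFinite {s : σ →₀ ℕ // s.degree = N}
  let P : ℕ → {s : σ →₀ ℕ // s.degree = N} → MvPolynomial σ ℂ := fun t s =>
    ∑ x, a s x * pderiv x (H t) + ∑ j, b s j * ℓ j
  let M : ℕ → Matrix {s : σ →₀ ℕ // s.degree = N} {s : σ →₀ ℕ // s.degree = N} ℂ := fun t s r =>
    (P t s).coeff r.1
  have hM : Tendsto M atTop (𝓝 1) := by
    refine tendsto_pi_nhds.2 fun s => tendsto_pi_nhds.2 fun r => ?_
    have hr : (1 : Matrix {s : σ →₀ ℕ // s.degree = N} {s : σ →₀ ℕ // s.degree = N} ℂ) s r =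
        (∑ x, a s x * pderiv x H0 + ∑ j, b s j * ℓ j).coeff r.1 := by
      rw [← hab s, coeff_monomial, Matrix.one_apply]
      simp only [Subtype.ext_iff]
    rw [hr]
    simp only [M, P, coeff_add, coeff_sum, coeff_mul, coeff_pderiv]
    refine Tendsto.add ?_ tendsto_const_nhds
    refine tendsto_finset_sum _ fun x _ => tendsto_finset_sum _ fun y _ => ?_
    exact tendsto_const_nhds.mul ((hlim _).mul tendsto_const_nhds)
  have hdet : Tendsto (fun t => (M t).det) atTop (𝓝 1) := by
    have h := ((continuous_id.matrix_det (R := ℂ)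
      (n := {s : σ →₀ ℕ // s.degree = N})).tendsto 1).comp hM
    simpa [Function.comp_def] using h
  have hev : ∀ᶠ t in atTop, (M t).det ≠ 0 := hdet.eventually_ne one_ne_zero
  filter_upwards [hev] with t ht
  intro s hs'
  have hν : ∀ r, homogeneousComponent N (P t r) = ∑ q, C (M t r q) * monomial q.1 (1 : ℂ) := by
    intro r
    ext d
    rw [coeff_homogeneousComponent, coeff_sum]
    simp only [coeff_C_mul, coeff_monomial, mul_ite, mul_one, mul_zero]
    split_ifs with hd
    · rw [Finset.sum_eq_single (⟨d, hd⟩ : {s : σ →₀ ℕ // s.degree = N})]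
      · simp [M]
      · intro q _ hq
        rw [if_neg]
        intro h
        exact hq (Subtype.ext h)
      · intro h
        exact absurd (Finset.mem_univ _) h
    · symm
      refine Finset.sum_eq_zero fun q _ => ?_
      rw [if_neg]
      intro h
      exact hd (h ▸ q.2)
  have hmem : ∀ r, homogeneousComponent N (P t r) ∈ cj (H t) ℓ := fun r =>
    near_mem (H t) ℓ n N (hH t) hℓ (a r) (b r)
  have hinv : monomial s (1 : ℂ) = ∑ r, C ((M t)⁻¹ ⟨s, hs'⟩ r) * homogeneousComponent N (P t r) := by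
    simp only [hν, Finset.mul_sum]
    rw [Finset.sum_comm]
    have h2 : ∀ q : {s : σ →₀ ℕ // s.degree = N},
        ∑ r, C ((M t)⁻¹ ⟨s, hs'⟩ r) * (C (M t r q) * monomial q.1 (1 : ℂ)) =
          C ((1 : Matrix {s : σ →₀ ℕ // s.degree = N} {s : σ →₀ ℕ // s.degree = N} ℂ)
            ⟨s, hs'⟩ q) * monomial q.1 1 := by
      intro q
      rw [← Matrix.nonsing_inv_mul (M t) (isUnit_iff_ne_zero.2 ht), Matrix.mul_apply, map_sum,
        Finset.sum_mul]
      refine Finset.sum_congr rfl fun r _ => ?_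
      rw [map_mul, mul_assoc]
    simp only [h2]
    rw [Finset.sum_eq_single (⟨s, hs'⟩ : {s : σ →₀ ℕ // s.degree = N})]
    · simp
    · intro q _ hq
      rw [Matrix.one_apply_ne (Ne.symm hq)]
      simp
    · intro h
      exact absurd (Finset.mem_univ _) h
  rw [hinv]
  exact Ideal.sum_mem _ fun r _ => Ideal.mul_mem_left _ _ (hmem r)

end Pool.Agent.HS38.PX
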