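import Pool.Agent.HS38.PX.U2

/-!
# Piece Par: linear parameters for the critical locus (helper41)
-/

set_option autoImplicit false

namespace Pool.Agent.HS38.PX

open MvPolynomial

section

variable {K : Type} [Field K] {σ : Type} [Fintype σ]

/-- a prime which is homogeneous for the standard grading is contained in the ideal of the
variables -/
theorem whom_le_pt {Q : Ideal (MvPolynomial σ K)} (hQ : Q ≠ ⊤)
    (h : PL.WHom (fun _ : σ => 1) Q) : Q ≤ PL.pt (0 : σ → K) := by
  intro f hf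
  rw [PL.mem_pt]
  have h1 := h.comp hf 0
  rw [weightedHomogeneousComponent_zero] at h1
  by_contra hne
  apply hQ
  rw [Ideal.eq_top_iff_one]
  have h2 : coeff 0 f ≠ 0 := by
    intro h0
    apply hne
    rw [← constantCoeff_eq] at h0
    simpa [aeval_zero] using h0
  have h3 : (1 : MvPolynomial σ K) = C (coeff 0 f)⁻¹ * C (coeff 0 f) := by
    rw [← C_mul, inv_mul_cancel₀ h2, C_1]
  rw [h3]
  exact Q.mul_mem_left _ h1
  all_goals simp

/-- the linear form with the coefficients `a` -/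
noncomputable def lf : (σ → K) →ₗ[K] MvPolynomial σ K where
  toFun a := ∑ i, a i • X i
  map_add' a b := by
    rw [← Finset.sum_add_distrib]
    exact Finset.sum_congr rfl fun i _ => by rw [Pi.add_apply, add_smul]
  map_smul' c a := by
    rw [RingHom.id_apply, Finset.smul_sum]
    exact Finset.sum_congr rfl fun i _ => by rw [Pi.smul_apply, smul_eq_mul, mul_smul]

theorem lf_single [DecidableEq σ] (i : σ) : lf (K := K) (Pi.single i 1) = X i := by
  show ∑ j, (Pi.single i (1 : K) : σ → K) j • (X j : MvPolynomial σ K) = X i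
  rw [Finset.sum_eq_single i]
  · rw [Pi.single_eq_same, one_smul]
  · intro j _ hj
    rw [Pi.single_eq_of_ne hj, zero_smul]
  · intro h
    exact absurd (Finset.mem_univ i) h

theorem lf_hom (a : σ → K) : (lf a).IsHomogeneous 1 := by
  show (∑ j, a j • (X j : MvPolynomial σ K)).IsHomogeneous 1
  apply IsHomogeneous.sum
  intro i _
  rw [smul_eq_C_mul]
  exact (isHomogeneous_X K i).C_mul _

/-- a linear form outside the minimal primes other than the ideal of the variables -/
theorem exists_lf [Infinite K] {I : Ideal (MvPolynomial σ K)}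
    (hI : PL.WHom (fun _ : σ => 1) I) :
    ∃ a : σ → K, ∀ Q ∈ I.minimalPrimes, Q ≠ PL.pt (0 : σ → K) → lf a ∉ Q := by
  classical
  have hfin : I.minimalPrimes.Finite := Ideal.finite_minimalPrimes_of_isNoetherianRing _ I
  let W : Ideal (MvPolynomial σ K) → Submodule K (σ → K) := fun Q =>
    (Q.restrictScalars K).comap lf
  let S : Finset (Ideal (MvPolynomial σ K)) := hfin.toFinset.filter fun Q => Q ≠ PL.pt (0 : σ → K)
  have h1 : ∀ Q ∈ S, W Q ≠ ⊤ := by
    intro Q hQ htop
    rw [Finset.mem_filter, Set.Finite.mem_toFinset] at hQ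
    apply hQ.2
    have h2 : Q ≤ PL.pt (0 : σ → K) := whom_le_pt hQ.1.1.1.ne_top (hI.min hQ.1)
    refine le_antisymm h2 (PL.pt_le_of_mem ?_)
    intro j
    have h3 : (Pi.single j 1 : σ → K) ∈ W Q := by rw [htop]; exact Submodule.mem_top
    have h4 : lf (Pi.single j 1 : σ → K) ∈ Q := h3
    rw [lf_single] at h4
    rw [Pi.zero_apply, C_0, sub_zero]
    exact h4
  have h5 : (⊤ : Submodule K (σ → K)) ∉ S.image W := by
    intro h
    obtain ⟨Q, hQ, hQ2⟩ := Finset.mem_image.1 h
    exact h1 Q hQ hQ2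
  have h6 := Subspace.biUnion_ne_univ_of_top_notMem (s := S.image W) h5
  rw [Ne, Set.eq_univ_iff_forall, not_forall] at h6
  obtain ⟨a, ha⟩ := h6
  refine ⟨a, fun Q hQ hne hmem => ha ?_⟩
  rw [Set.mem_iUnion₂]
  exact ⟨W Q, Finset.mem_image_of_mem W (Finset.mem_filter.2
    ⟨(Set.Finite.mem_toFinset _).2 hQ, hne⟩), hmem⟩

omit [Fintype σ] in
theorem whom_of_hom {f : MvPolynomial σ K} {m : ℕ} (h : f.IsHomogeneous m) :
    IsWeightedHomogeneous (fun _ : σ => 1) f m := h

theorem exists_params [Infinite K] (d : ℕ) : ∀ I : Ideal (MvPolynomial σ K),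
    PL.WHom (fun _ : σ => 1) I → (∀ P : Ideal (MvPolynomial σ K), P.IsPrime → I ≤ P →
      PL.td K P ≤ d) →
    ∃ ℓ : Fin d → MvPolynomial σ K, (∀ j, (ℓ j).IsHomogeneous 1) ∧
      ∀ P ∈ (I ⊔ Ideal.span (Set.range ℓ)).minimalPrimes, P = PL.pt (0 : σ → K) := by
  induction d with
  | zero =>
    intro I hI h
    refine ⟨fun j => j.elim0, fun j => j.elim0, ?_⟩
    intro P hP
    have h1 : (Set.range fun j : Fin 0 => (j.elim0 : MvPolynomial σ K)) = ∅ :=
      Set.range_eq_empty _
    rw [h1, Ideal.span_empty, sup_bot_eq] at hP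
    have hPp : P.IsPrime := hP.1.1
    by_contra hne
    have h2 : P < PL.pt (0 : σ → K) :=
      lt_of_le_of_ne (whom_le_pt hPp.ne_top (hI.min hP)) hne
    have h3 := PL.td_lt K h2
    have h4 := h P hPp hP.1.2
    omega
  | succ d ih =>
    intro I hI h
    obtain ⟨a, ha⟩ := exists_lf hI
    have hI' : PL.WHom (fun _ : σ => 1) (I ⊔ Ideal.span {lf a}) := by
      apply PL.WHom.sup hI (PL.WHom.span ?_)
      intro f hf
      rw [Set.mem_singleton_iff] at hf
      rw [hf]
      exact ⟨1, whom_of_hom (lf_hom a)⟩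
    obtain ⟨ℓ, hℓ, hℓ2⟩ := ih (I ⊔ Ideal.span {lf a}) hI' (by
      intro P hP hIP
      have hIP1 : I ≤ P := le_sup_left.trans hIP
      have haP : lf a ∈ P := hIP (Ideal.mem_sup_right (Ideal.mem_span_singleton_self _))
      obtain ⟨Q, hQ, hQP⟩ := Ideal.exists_minimalPrimes_le hIP1
      have hQp : Q.IsPrime := hQ.1.1
      by_cases hQm : Q = PL.pt (0 : σ → K)
      · have h1 := PL.td_le K hQP
        rw [hQm, PL.td_pt] at h1
        omega
      · have h2 : Q < P := lt_of_le_of_ne hQP (by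
          rintro rfl
          exact ha Q hQ hQm haP)
        have h3 := PL.td_lt K h2
        have h4 := h Q hQp hQ.1.2
        omega)
    refine ⟨Fin.cons (lf a) ℓ, ?_, ?_⟩
    · intro j
      refine Fin.cases ?_ ?_ j
      · rw [Fin.cons_zero]; exact lf_hom a
      · intro i
        rw [Fin.cons_succ]; exact hℓ i
    · rw [Fin.range_cons, Set.insert_eq, Ideal.span_union, ← sup_assoc]
      exact hℓ2

theorem td_le_of_small {H : MvPolynomial σ K} {e : ℕ} (hS : Small H e)
    (P : Ideal (MvPolynomial σ K)) [hPp : P.IsPrime]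
    (hP : Ideal.span (Set.range fun x => pderiv x H) ≤ P) : PL.td K P ≤ e := by
  let Ω' := FractionRing (MvPolynomial σ K ⧸ P)
  let j : MvPolynomial σ K →ₐ[K] Ω' :=
    (IsScalarTower.toAlgHom K (MvPolynomial σ K ⧸ P) Ω').comp (Ideal.Quotient.mkₐ K P)
  let v : σ → Ω' := fun x => j (X x)
  have hj0 : ∀ g, j g = 0 ↔ g ∈ P := by
    intro g
    have h1 : j g = algebraMap (MvPolynomial σ K ⧸ P) Ω' (Ideal.Quotient.mk P g) := rfl
    rw [h1, IsFractionRing.to_map_eq_zero_iff, Ideal.Quotient.eq_zero_iff_mem]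
  have hj : j = aeval v := by
    apply MvPolynomial.algHom_ext
    intro o
    rw [aeval_X]
  have h8 : Dm K (Set.range v) e := by
    refine hS Ω' v ?_
    intro x
    rw [← hj]
    exact (hj0 _).2 (hP (Ideal.subset_span ⟨x, rfl⟩))
  rw [← u_td, ← hj] at h8
  have h9 : RingHom.ker j = P := by
    ext g
    exact hj0 g
  rwa [h9] at h8

theorem monomial_mem_pow (s : σ →₀ ℕ) :
    monomial s (1 : K) ∈ PL.pt (0 : σ → K) ^ s.degree := by
  classical
  rw [monomial_eq, C_1, one_mul, Finsupp.prod, Finsupp.degree_apply, ← Finset.prod_pow_eq_pow_sum]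
  refine Ideal.prod_mem_prod fun i _ => Ideal.pow_mem_pow ?_ _
  have h1 := PL.X_sub_mem_pt (0 : σ → K) i
  rwa [Pi.zero_apply, C_0, sub_zero] at h1

end

theorem v_par : V_Par := by
  intro K _ _ σ _ H n e hn hH hS
  have hI : PL.WHom (fun _ : σ => 1) (Ideal.span (Set.range fun x => pderiv x H)) := by
    apply PL.WHom.span
    rintro _ ⟨x, rfl⟩
    exact ⟨n - 1, whom_of_hom hH.pderiv⟩
  obtain ⟨ℓ, hℓ, hmin⟩ := exists_params e _ hI fun P hP hIP =>
    @td_le_of_small K _ σ _ H e hS P hP hIP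
  have h1 : PL.pt (0 : σ → K) ≤ (cj H ℓ).radical := by
    rw [← Ideal.sInf_minimalPrimes]
    refine le_sInf fun P hP => ?_
    rw [hmin P hP]
  have hfg : (PL.pt (0 : σ → K)).FG := IsNoetherian.noetherian _
  obtain ⟨N, hN⟩ := Ideal.exists_pow_le_of_le_radical_of_fg h1 hfg
  refine ⟨ℓ, N, hℓ, fun s hs => hN ?_⟩
  rw [← hs]
  exact monomial_mem_pow s

end Pool.Agent.HS38.PX
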