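import Pool.Agent.HS38.PX.Fin3
import Pool.Agent.HS38.PX.Near
import Pool.Agent.HS38.PX.Par
import Pool.Agent.HS38.PX.Fin2

/-!
# Approximations: limits over `ℂ` and specializations
-/

set_option autoImplicit false

namespace Pool.Agent.HS38.PX

open MvPolynomial Matrix Filter Topology

variable {n : ℕ}

theorem small_lim (hn : 2 ≤ n) {F : ℕ → MvPolynomial (Fin n × Fin n) ℂ}
    (h : ∀ s : (Fin n × Fin n) →₀ ℕ, s.degree = n →
      Tendsto (fun t => (F t).coeff s) atTop (𝓝 ((PL.gp ℂ n).coeff s))) :
    ∀ᶠ t in atTop, Small (homogeneousComponent n (F t)) (n * n - 2 * n) := by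
  obtain ⟨ℓ, N, hℓ, hN⟩ := v_par ℂ (Fin n × Fin n) (PL.gp ℂ n) n (n * n - 2 * n) (by omega)
    gp_hom (small_gp two_ne_zero hn)
  have h1 := t_Near (Fin n × Fin n) (fun t => homogeneousComponent n (F t)) (PL.gp ℂ n) n
    (n * n - 2 * n) N ℓ (by omega) (fun t => homogeneousComponent_isHomogeneous n (F t))
    (fun s => by
      by_cases hs : s.degree = n
      · have h2 : (fun t => coeff s (homogeneousComponent n (F t))) = fun t => coeff s (F t) := by
          funext t
          rw [coeff_homogeneousComponent, if_pos hs]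
        rw [h2]
        exact h s hs
      · have h2 : (fun t => coeff s (homogeneousComponent n (F t))) = fun t => (0 : ℂ) := by
          funext t
          rw [coeff_homogeneousComponent, if_neg hs]
        rw [h2, comp_gp s hs ℂ]
        exact tendsto_const_nhds) hℓ hN
  filter_upwards [h1] with t ht
  exact v_Fin2 ℂ (Fin n × Fin n) (homogeneousComponent n (F t)) n (n * n - 2 * n) N ℓ (by omega)
    (homogeneousComponent_isHomogeneous n (F t)) hℓ ht

end Pool.Agent.HS38.PX
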