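import Pool.Agent.HS38.PX.Stm

/-!
# Algebraic closures of subfields and dimensions (basic rules)
-/

set_option autoImplicit false

namespace Pool.Agent.HS38.PX

open AlgebraicIndependent

section acl

variable {K : Type} {Ω : Type} [Field K] [Field Ω] [Algebra K Ω]

open scoped IntermediateField.algebraAdjoinAdjoin in
theorem mem_acl {T : Set Ω} {a : Ω} : a ∈ acl K T ↔ IsAlgebraic (Algebra.adjoin K T) a := by
  unfold acl
  rw [IntermediateField.mem_restrictScalars, mem_algebraicClosure_iff]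
  exact (IsFractionRing.isAlgebraic_iff (Algebra.adjoin K T) (IntermediateField.adjoin K T) Ω).symm

theorem acl_eq (T : Set Ω) : (acl K T : Set Ω) = (matroid K Ω).closure T := by
  rw [matroid_closure_eq]
  ext a
  exact mem_acl

theorem subset_acl (T : Set Ω) : T ⊆ acl K T := by
  rw [acl_eq]
  exact (matroid K Ω).subset_closure T

theorem acl_subset_iff {S T : Set Ω} : (acl K S : Set Ω) ⊆ acl K T ↔ S ⊆ acl K T := by
  rw [acl_eq, acl_eq]
  exact (matroid K Ω).closure_subset_closure_iff_subset_closure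

theorem acl_le {S T : Set Ω} (h : S ⊆ acl K T) : acl K S ≤ acl K T :=
  acl_subset_iff.2 h

theorem acl_mono {S T : Set Ω} (h : S ⊆ T) : acl K S ≤ acl K T :=
  acl_le (h.trans (subset_acl T))

theorem dm_iff {E : Set Ω} {n : ℕ} : Dm K E n ↔ (matroid K Ω).eRk E ≤ n := by
  constructor
  · rintro ⟨T, hT, hE⟩
    rw [acl_eq] at hE
    calc (matroid K Ω).eRk E ≤ (matroid K Ω).eRk ((matroid K Ω).closure T) :=
          (matroid K Ω).eRk_mono hE
      _ = (matroid K Ω).eRk T := (matroid K Ω).eRk_closure_eq _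
      _ ≤ (T : Set Ω).encard := (matroid K Ω).eRk_le_encard _
      _ ≤ n := by rw [Set.encard_coe_eq_coe_finsetCard]; exact_mod_cast hT
  · intro h
    obtain ⟨I, hI⟩ := (matroid K Ω).exists_isBasis E
    rw [hI.eRk_eq_encard] at h
    have hfin : I.Finite := Set.finite_of_encard_le_coe h
    refine ⟨hfin.toFinset, ?_, ?_⟩
    · rw [hfin.encard_eq_coe_toFinset_card] at h
      exact_mod_cast h
    · rw [acl_eq, hfin.coe_toFinset, hI.closure_eq_closure]
      exact (matroid K Ω).subset_closure E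

theorem Dm.mono {E F : Set Ω} {n m : ℕ} (h : Dm K E n) (hF : F ⊆ acl K E) (hm : n ≤ m) :
    Dm K F m := by
  obtain ⟨T, hT, hE⟩ := h
  exact ⟨T, hT.trans hm, hF.trans (acl_subset_iff.2 hE)⟩

theorem Dm.union {E F : Set Ω} {n m : ℕ} (hE : Dm K E n) (hF : Dm K F m) :
    Dm K (E ∪ F) (n + m) := by
  rw [dm_iff] at *
  refine ((matroid K Ω).eRk_union_le_eRk_add_eRk _ _).trans ?_
  push_cast
  exact add_le_add hE hF

theorem dm_finset (T : Finset Ω) : Dm K (T : Set Ω) T.card := ⟨T, le_rfl, subset_acl _⟩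

theorem dm_image {ι : Type} (J : Finset ι) (y : ι → Ω) : Dm K (y '' (J : Set ι)) J.card := by
  classical
  refine ⟨J.image y, Finset.card_image_le, ?_⟩
  rw [Finset.coe_image]
  exact subset_acl _

theorem dm_empty (n : ℕ) : Dm K (∅ : Set Ω) n := ⟨∅, by simp, by simp⟩

/-- adding elements one of which is algebraic over the others -/
theorem Dm.add {ι : Type} {E F : Set Ω} {n m : ℕ} (hE : Dm K E n) (J : Finset ι) (y : ι → Ω)
    (hF : F ⊆ acl K (E ∪ y '' (J : Set ι))) (hm : n + J.card ≤ m) : Dm K F m :=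
  (hE.union (dm_image J y)).mono hF hm

end acl

/-- division in an intermediate field -/
theorem mem_of_mul {K Ω : Type} [Field K] [Field Ω] [Algebra K Ω] {L : IntermediateField K Ω}
    {a x b : Ω} (h : a * x + b = 0) (ha : a ≠ 0) (haL : a ∈ L) (hbL : b ∈ L) : x ∈ L := by
  have h1 : x = -b / a := by
    rw [eq_div_iff ha]
    linear_combination h
  rw [h1]
  exact div_mem (neg_mem hbL) haL

end Pool.Agent.HS38.PX
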