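import Pool.Agent.HS38.PX.Upper

/-!
# The singular locus of the permanental hypersurface has codimension exactly `2 n`

`K` is any field of characteristic different from `2` (in characteristic `2` the permanent is the
determinant and the codimension is `4`), `n ≥ 2`, and `mvPolynomialX (Fin n) (Fin n) K` is the generic
`n × n` matrix `(x_ij)`; `per_n` is its permanent.

1. The ideal of all partial derivatives of `per_n`, that is the ideal of the singular locus of the
   hypersurface `per_n = 0`, has height exactly `2 n`. (The known lower bounds are constants: `5`,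
   von zur Gathen 1987, and `6`, Boralevi, Carlini, Michałek and Ventura.)
2. For `1 ≤ s < n` the ideal of all `s × s` subpermanents of the generic `n × n` matrix has height at
   least `4 n - 2 s - 2` (for `s = n - 1` this is `2 n`).
3. If `f` is a polynomial with top form `per_n` (`f - per_n` has degree less than `n`), then the ideal of
   all partial derivatives of `f` has height at least `2 n`.
4. If a polynomial with top form `per_n` is `F (g_1, …, g_r)`, where `F` has no linear terms and the
   `g_i` generate a proper ideal (they have a common zero over the algebraic closure), then `r ≥ 2 n`.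
   For instance, if it is `c + ∑_{k < m} g_k h_k` and the polynomials `g_k, h_k` have no constant term,
   then `m ≥ n`.
5. If a polynomial with top form `per_n` is `∑_{i < m} g_i h_i` with `deg g_i ≤ k`, `deg h_i ≤ n - k`,
   `0 < k < n` (constant terms are allowed), then `m ≥ n`: every inner layer of every algebraic branching
   program with `n` layers of edges, labelled by affine linear polynomials, has at least `n` vertices.
6. The least number `r` such that `per_n` is a polynomial in `r` forms of degrees between `1` and `n - 1`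
   is exactly `2 n`. (For instance the polynomials at a cut of a homogeneous circuit.)
7. If `K` is algebraically closed of characteristic zero, `0 < r ≤ p` and `r < q`, then the ideal of all
   `r × r` subpermanents of the generic `p × q` matrix has height at least `p q / r`.
-/

set_option autoImplicit false

namespace Pool.Agent.HS38.PX.Exact

open MvPolynomial Matrix

theorem result (K : Type) [Field K] (h2 : (2 : K) ≠ 0) :
    (∀ n : ℕ, 2 ≤ n →
      (Ideal.span (Set.range fun x : Fin n × Fin n =>
        pderiv x (mvPolynomialX (Fin n) (Fin n) K).permanent)).height = ((2 * n : ℕ) : ℕ∞)) ∧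
    (∀ n s : ℕ, 1 ≤ s → s < n →
      ((4 * n - 2 * s - 2 : ℕ) : ℕ∞) ≤
        (Ideal.span (Set.range fun e : (Fin s ↪ Fin n) × (Fin s ↪ Fin n) =>
          ((mvPolynomialX (Fin n) (Fin n) K).submatrix e.1 e.2).permanent)).height) ∧
    (∀ n : ℕ, 2 ≤ n → ∀ f : MvPolynomial (Fin n × Fin n) K,
      (f - (mvPolynomialX (Fin n) (Fin n) K).permanent).totalDegree < n →
      ((2 * n : ℕ) : ℕ∞) ≤
        (Ideal.span (Set.range fun x : Fin n × Fin n => pderiv x f)).height) ∧
    (∀ n r : ℕ, 2 ≤ n → ∀ (f : MvPolynomial (Fin n × Fin n) K)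
      (g : Fin r → MvPolynomial (Fin n × Fin n) K) (F : MvPolynomial (Fin r) K),
      (f - (mvPolynomialX (Fin n) (Fin n) K).permanent).totalDegree < n →
      Ideal.span (Set.range g) ≠ ⊤ → (∀ i, coeff (Finsupp.single i 1) F = 0) →
      aeval g F = f → 2 * n ≤ r) ∧
    (∀ n m k : ℕ, 2 ≤ n → 0 < k → k < n → ∀ (f : MvPolynomial (Fin n × Fin n) K)
      (g h : Fin m → MvPolynomial (Fin n × Fin n) K),
      (f - (mvPolynomialX (Fin n) (Fin n) K).permanent).totalDegree < n →
      (∀ i, (g i).totalDegree ≤ k) → (∀ i, (h i).totalDegree ≤ n - k) →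
      ∑ i, g i * h i = f → n ≤ m) ∧
    (∀ n : ℕ, 2 ≤ n →
      IsLeast {r : ℕ | ∃ (g : Fin r → MvPolynomial (Fin n × Fin n) K) (d : Fin r → ℕ)
        (F : MvPolynomial (Fin r) K), (∀ i, (g i).IsHomogeneous (d i) ∧ 0 < d i ∧ d i < n) ∧
          aeval g F = (mvPolynomialX (Fin n) (Fin n) K).permanent} (2 * n)) ∧
    (IsAlgClosed K → CharZero K → ∀ p q r : ℕ, 0 < r → r ≤ p → r < q →
      ((p * q : ℕ) : ℕ∞) ≤ r * (Ideal.span (Set.range fun s : (Fin r ↪ Fin p) × (Fin r ↪ Fin q) =>
        ((mvPolynomialX (Fin p) (Fin q) K).submatrix s.1 s.2).permanent)).height) := by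
  refine ⟨?_, ?_, ?_, ?_, ?_, ?_, ?_⟩
  · intro n hn
    exact le_antisymm (Pool.Agent.HS38.PX.height_jac_le hn)
      (Pool.Agent.HS38.PX.le_height_jac h2 hn)
  · intro n s h1 hs
    exact Pool.Agent.HS38.PX.height_submatrix h2 h1 hs
  · intro n hn f hf
    exact Pool.Agent.HS38.PX.height_robust h2 hn hf
  · intro n r hn f g F hf hg hF h
    exact Pool.Agent.HS38.PX.card_robust h2 hn hf g hg F hF h
  · intro n m k hn hk hkn f g h hf hg hh hsum
    exact Pool.Agent.HS38.PX.card_cut h2 hn hf hk hkn g h hg hh hsum
  · intro n hn
    refine ⟨Pool.Agent.HS38.PX.exists_forms hn, ?_⟩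
    rintro r ⟨g, d, F, hg, hF⟩
    exact Pool.Agent.HS38.PX.card_forms h2 hn g d (fun i => (hg i).1) (fun i => (hg i).2.1)
      (fun i => (hg i).2.2) F hF
  · intro _ _ p q r hr hrp hrq
    exact Pool.Agent.HS38.PL.height_subp hr hrp hrq

end Pool.Agent.HS38.PX.Exact
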