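import Pool.Agent.HS38.PX.Robust
import Pool.Agent.HS38.PL.Sub

/-!
# Upper bounds, submatrices
-/

set_option autoImplicit false

namespace Pool.Agent.HS38.PX

open MvPolynomial Matrix

variable {K : Type} [Field K] {n : ℕ}

theorem pm_homogeneous (R C : Finset (Fin n)) : (pm (gm K n) R C).IsHomogeneous R.card := by
  unfold pm
  apply IsHomogeneous.sum
  intro e _
  have := IsHomogeneous.prod (R := K) Finset.univ
    (fun i : R => (gm K n i (e i) : MvPolynomial (Fin n × Fin n) K))
    (fun _ => 1) (fun i _ => isHomogeneous_X K _)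
  simpa using this

/-- the upper bound for the height: two zero rows -/
theorem height_jac_le (hn : 2 ≤ n) : (PL.jac K n).height ≤ ((2 * n : ℕ) : ℕ∞) := by
  set i0 : Fin n := ⟨0, by omega⟩ with hi0
  set i1 : Fin n := ⟨1, by omega⟩ with hi1
  have h01 : i0 ≠ i1 := by
    intro h
    have := congrArg Fin.val h
    simp [hi0, hi1] at this
  set g : Fin (n + n) → MvPolynomial (Fin n × Fin n) K :=
    Fin.append (fun j => X (i0, j)) (fun j => X (i1, j)) with hg
  have hg0 : ∀ j, X (i0, j) ∈ Ideal.span (Set.range g) := fun j =>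
    Ideal.subset_span ⟨Fin.castAdd n j, by rw [hg, Fin.append_left]⟩
  have hg1 : ∀ j, X (i1, j) ∈ Ideal.span (Set.range g) := fun j =>
    Ideal.subset_span ⟨Fin.natAdd n j, by rw [hg, Fin.append_right]⟩
  have hle : PL.jac K n ≤ Ideal.span (Set.range g) := by
    unfold PL.jac
    rw [Ideal.span_le]
    rintro _ ⟨x, rfl⟩
    rw [SetLike.mem_coe]
    have h1 : pderiv x (PL.gp K n) = pm (gm K n) (Finset.univ.erase x.1) (Finset.univ.erase x.2) :=
      pderiv_per x
    simp only
    rw [h1]
    by_cases hx : x.1 = i0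
    · rw [pm_row (gm K n) _ (Finset.mem_erase.2 ⟨fun h => h01 (by rw [← hx, h]),
        Finset.mem_univ i1⟩)]
      exact Ideal.sum_mem _ fun l _ => Ideal.mul_mem_right _ _ (hg1 l)
    · rw [pm_row (gm K n) _ (Finset.mem_erase.2 ⟨fun h => hx h.symm, Finset.mem_univ i0⟩)]
      exact Ideal.sum_mem _ fun l _ => Ideal.mul_mem_right _ _ (hg0 l)
  refine (Ideal.height_mono hle).trans ((height_span_le g (PL.span_ne_top g fun i => ?_)).trans ?_)
  · refine Fin.addCases (fun i => ?_) (fun i => ?_) i
    · rw [hg, Fin.append_left]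
      simp
    · rw [hg, Fin.append_right]
      simp
  · have : 2 * n = n + n := by ring
    rw [this]

/-- the Laplace expansion -/
theorem exists_forms (hn : 2 ≤ n) : ∃ (g : Fin (2 * n) → MvPolynomial (Fin n × Fin n) K)
    (d : Fin (2 * n) → ℕ) (F : MvPolynomial (Fin (2 * n)) K),
    (∀ i, (g i).IsHomogeneous (d i) ∧ 0 < d i ∧ d i < n) ∧ aeval g F = PL.gp K n := by
  have h2n : 2 * n = n + n := by ring
  rw [h2n]
  set i0 : Fin n := ⟨0, by omega⟩ with hi0
  refine ⟨Fin.append (fun j => X (i0, j)) (fun j => pm (gm K n) (Finset.univ.erase i0)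
    (Finset.univ.erase j)), Fin.append (fun _ => 1) (fun _ => n - 1),
    ∑ i : Fin n, X (Fin.castAdd n i) * X (Fin.natAdd n i), ?_, ?_⟩
  · intro i
    refine Fin.addCases (fun i => ?_) (fun i => ?_) i
    · rw [Fin.append_left, Fin.append_left]
      exact ⟨isHomogeneous_X K _, by omega, by omega⟩
    · rw [Fin.append_right, Fin.append_right]
      refine ⟨?_, by omega, by omega⟩
      have h := pm_homogeneous (K := K) (Finset.univ.erase i0) (Finset.univ.erase i)
      rwa [Finset.card_erase_of_mem (Finset.mem_univ _), Finset.card_univ, Fintype.card_fin] at h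
  · rw [map_sum]
    have h1 : PL.gp K n = pm (gm K n) Finset.univ Finset.univ := permanent_eq _
    rw [h1, pm_row (gm K n) _ (Finset.mem_univ i0)]
    refine Finset.sum_congr rfl fun i _ => ?_
    rw [map_mul, aeval_X, aeval_X, Fin.append_left, Fin.append_right]
    rfl

/-- subpermanents as permanents of submatrices -/
theorem pm_submatrix {s : ℕ} (R C : Finset (Fin n)) (hR : R.card = s) (hC : C.card = s) :
    pm (gm K n) R C = ((mvPolynomialX (Fin n) (Fin n) K).submatrix
      (R.orderEmbOfFin hR).toEmbedding (C.orderEmbOfFin hC).toEmbedding).permanent := by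
  rw [← Matrix.permanent_transpose]
  unfold Matrix.permanent pm
  refine Fintype.sum_equiv (Equiv.equivCongr (R.orderIsoOfFin hR).symm.toEquiv
    (C.orderIsoOfFin hC).symm.toEquiv) _ _ fun e => ?_
  refine Fintype.prod_equiv (R.orderIsoOfFin hR).symm.toEquiv _ _ fun a => ?_
  have h1 : (R.orderEmbOfFin hR) ((R.orderIsoOfFin hR).symm a) = (a : Fin n) := by
    rw [← Finset.coe_orderIsoOfFin_apply, OrderIso.apply_symm_apply]
  have h2 : ∀ b : C, (C.orderEmbOfFin hC) ((C.orderIsoOfFin hC).symm b) = (b : Fin n) := by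
    intro b
    rw [← Finset.coe_orderIsoOfFin_apply, OrderIso.apply_symm_apply]
  change (X ((a : Fin n), ((e a : C) : Fin n)) : MvPolynomial (Fin n × Fin n) K) =
    X ((R.orderEmbOfFin hR) ((R.orderIsoOfFin hR).symm a),
      (C.orderEmbOfFin hC) ((C.orderIsoOfFin hC).symm (e ((R.orderIsoOfFin hR)
        ((R.orderIsoOfFin hR).symm a)))))
  rw [h1, h2, OrderIso.apply_symm_apply]

theorem height_submatrix (h2 : (2 : K) ≠ 0) {s : ℕ} (h1 : 1 ≤ s) (hs : s < n) :
    ((4 * n - 2 * s - 2 : ℕ) : ℕ∞) ≤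
      (Ideal.span (Set.range fun e : (Fin s ↪ Fin n) × (Fin s ↪ Fin n) =>
        ((mvPolynomialX (Fin n) (Fin n) K).submatrix e.1 e.2).permanent)).height := by
  refine (height_subp h2 h1 hs).trans (Ideal.height_mono ?_)
  unfold subp
  rw [Ideal.span_le]
  rintro _ ⟨R, C, hR, hC, rfl⟩
  refine Ideal.subset_span ⟨((R.orderEmbOfFin hR).toEmbedding, (C.orderEmbOfFin hC).toEmbedding),
    (pm_submatrix R C hR hC).symm⟩

end Pool.Agent.HS38.PX
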