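import Pool.Agent.HS38.PX.Spec
import Pool.Agent.HS38.PX.Upper

/-!
# Consequences for approximations
-/

set_option autoImplicit false

namespace Pool.Agent.HS38.PX

open MvPolynomial Matrix Filter Topology

section basics

variable {K : Type} [Field K] {n : ℕ}

theorem small_gp (h2 : (2 : K) ≠ 0) (hn : 2 ≤ n) : Small (PL.gp K n) (n * n - 2 * n) := by
  intro Ω _ _ u hu
  have hZ : Zs (n - 1) (fun i l => u (i, l)) (Finset.univ : Finset (Fin n))
      (Finset.univ : Finset (Fin n)) := by
    intro R' _ C' _ hR' hC'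
    have h1 : ∀ R : Finset (Fin n), R.card = n - 1 → ∃ i, R = Finset.univ.erase i := by
      intro R hR
      have h2 : Rᶜ.card = 1 := by
        rw [Finset.card_compl, hR, Fintype.card_fin]
        omega
      obtain ⟨i, hi⟩ := Finset.card_eq_one.1 h2
      refine ⟨i, ?_⟩
      rw [← compl_compl R, hi]
      ext a
      simp
    obtain ⟨i, rfl⟩ := h1 R' hR'
    obtain ⟨l, rfl⟩ := h1 C' hC'
    have h5 : pderiv (i, l) (PL.gp K n) = pm (gm K n) (Finset.univ.erase i)
      (Finset.univ.erase l) := pderiv_per (i, l)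
    have h6 := hu (i, l)
    rw [h5] at h6
    have h7 : pm (fun a b => aeval u (gm K n a b)) (Finset.univ.erase i) (Finset.univ.erase l) =
        aeval u (pm (gm K n) (Finset.univ.erase i) (Finset.univ.erase l)) :=
      pm_map (aeval u : MvPolynomial (Fin n × Fin n) K →ₐ[K] Ω).toRingHom _ _ _
    rw [← h6, ← h7]
    refine pm_congr fun a _ b _ => ?_
    exact (aeval_X u (a, b)).symm
  have h7 := sn K h2 n (n - 1) (by omega) (by omega) Ω (Fin n) (Fin n) (fun i l => u (i, l))
    Finset.univ Finset.univ (by simp) (by simp) hZ (n * n - 2 * n) (by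
      obtain ⟨m, rfl⟩ : ∃ m, n = m + 2 := ⟨n - 2, by omega⟩
      have : 2 * (m + 2) ≤ (m + 2) * (m + 2) := by nlinarith
      have h8 : m + 2 - 1 = m + 1 := by omega
      rw [h8]
      zify [this]
      ring)
  refine h7.mono ?_ le_rfl
  rintro _ ⟨x, rfl⟩
  exact subset_acl _ ⟨x.1, Finset.mem_univ _, x.2, Finset.mem_univ _, rfl⟩

theorem height_of_small {F : MvPolynomial (Fin n × Fin n) K} (hn : 2 ≤ n)
    (hS : Small F (n * n - 2 * n)) :
    ((2 * n : ℕ) : ℕ∞) ≤ (Ideal.span (Set.range fun x => pderiv x F)).height := by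
  rw [Ideal.height_eq_inf_minimalPrimes]
  refine le_iInf₂ fun P hP => ?_
  by_contra hlt
  rw [not_le] at hlt
  have hPp : P.IsPrime := hP.1.1
  have hh : P.height ≤ ((2 * n - 1 : ℕ) : ℕ∞) := by
    have h3 : ((2 * n : ℕ) : ℕ∞) = ((2 * n - 1 : ℕ) : ℕ∞) + 1 := by
      have : 2 * n = 2 * n - 1 + 1 := by omega
      rw [this]
      push_cast
      rfl
    rw [h3] at hlt
    exact Order.le_of_lt_add_one hlt
  have h4 := PL.card_le_td P _ hh
  rw [Fintype.card_prod, Fintype.card_fin] at h4
  let Ω' := FractionRing (MvPolynomial (Fin n × Fin n) K ⧸ P)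
  let j : MvPolynomial (Fin n × Fin n) K →ₐ[K] Ω' :=
    (IsScalarTower.toAlgHom K (MvPolynomial (Fin n × Fin n) K ⧸ P) Ω').comp
      (Ideal.Quotient.mkₐ K P)
  let v : Fin n × Fin n → Ω' := fun x => j (X x)
  have hj0 : ∀ g, j g = 0 ↔ g ∈ P := by
    intro g
    have h1 : j g = algebraMap (MvPolynomial (Fin n × Fin n) K ⧸ P) Ω'
      (Ideal.Quotient.mk P g) := rfl
    rw [h1, IsFractionRing.to_map_eq_zero_iff, Ideal.Quotient.eq_zero_iff_mem]
  have hj : j = aeval v := by
    apply MvPolynomial.algHom_ext
    intro o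
    rw [aeval_X]
  have hv : ∀ x, aeval v (pderiv x F) = 0 := by
    intro x
    rw [← hj]
    exact (hj0 _).2 (hP.1.2 (Ideal.subset_span ⟨x, rfl⟩))
  have h9 := hS Ω' v hv
  rw [← u_td, ← hj] at h9
  have h10 : RingHom.ker j = P := by
    ext g
    exact hj0 g
  rw [h10] at h9
  have : 2 * n ≤ n * n := by nlinarith
  omega

theorem card_of_small {F : MvPolynomial (Fin n × Fin n) K} (hn : 2 ≤ n)
    (hS : Small F (n * n - 2 * n)) {r : ℕ} (g : Fin r → MvPolynomial (Fin n × Fin n) K)
    (hg : Ideal.span (Set.range g) ≠ ⊤) (G : MvPolynomial (Fin r) K)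
    (hG : ∀ i, coeff (Finsupp.single i 1) G = 0) (h : aeval g G = F) : 2 * n ≤ r := by
  have hle : Ideal.span (Set.range fun x => pderiv x F) ≤ Ideal.span (Set.range g) := by
    rw [Ideal.span_le]
    rintro _ ⟨x, rfl⟩
    rw [← h]
    exact pderiv_comp_mem g G hG x
  have h6 := (height_of_small hn hS).trans ((Ideal.height_mono hle).trans (height_span_le g hg))
  exact_mod_cast h6

theorem top_split {σ : Type} {F : MvPolynomial σ K} (hn : 0 < n) (hF : F.totalDegree ≤ n) :
    (F - homogeneousComponent n F).totalDegree < n := by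
  have hsum : ∑ k ∈ Finset.range n, homogeneousComponent k F = F - homogeneousComponent n F := by
    have h1 : ∑ k ∈ Finset.range (n + 1), homogeneousComponent k F = F := by
      conv_rhs => rw [← sum_homogeneousComponent F]
      refine (Finset.sum_subset (Finset.range_mono (by omega)) ?_).symm
      intro k _ hk
      rw [Finset.mem_range, not_lt] at hk
      exact homogeneousComponent_eq_zero _ _ (by omega)
    rw [Finset.sum_range_succ] at h1
    exact eq_sub_of_add_eq h1
  rw [← hsum]
  refine lt_of_le_of_lt (totalDegree_finsetSum_le (d := n - 1) fun k hk => ?_) (by omega)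
  have h2 := (homogeneousComponent_isHomogeneous k F).totalDegree_le
  have := Finset.mem_range.1 hk
  omega

theorem small_of_top {σ : Type} [Fintype σ] {F : MvPolynomial σ K} {e : ℕ} (hn : 0 < n)
    (hF : F.totalDegree ≤ n) (hS : Small (homogeneousComponent n F) e) : Small F e := by
  have h1 := v_top K σ (homogeneousComponent n F) (F - homogeneousComponent n F) n e
    (homogeneousComponent_isHomogeneous n F) (top_split hn hF) hS
  rwa [add_sub_cancel] at h1

/-- the lower bounds for a polynomial -/
def Hard (n : ℕ) (F : MvPolynomial (Fin n × Fin n) K) : Prop :=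
  ((2 * n : ℕ) : ℕ∞) ≤ (Ideal.span (Set.range fun x => pderiv x F)).height ∧
  (∀ (r : ℕ) (g : Fin r → MvPolynomial (Fin n × Fin n) K) (G : MvPolynomial (Fin r) K),
    Ideal.span (Set.range g) ≠ ⊤ → (∀ i, coeff (Finsupp.single i 1) G = 0) →
    aeval g G = F → 2 * n ≤ r) ∧
  (∀ (m k : ℕ) (g h : Fin m → MvPolynomial (Fin n × Fin n) K), 0 < k → k < n →
    (∀ i, (g i).totalDegree ≤ k) → (∀ i, (h i).totalDegree ≤ n - k) →
    ∑ i, g i * h i = F → n ≤ m)

theorem hard_of_top (hn : 2 ≤ n) {F : MvPolynomial (Fin n × Fin n) K}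
    (hF : F.totalDegree ≤ n) (hS : Small (homogeneousComponent n F) (n * n - 2 * n)) :
    Hard n F := by
  classical
  have hSF := small_of_top (by omega) hF hS
  refine ⟨height_of_small hn hSF, fun r g G hg hG h => card_of_small hn hSF g hg G hG h, ?_⟩
  intro m k g h hk hkn hg hh hsum
  set g' : Fin m → MvPolynomial (Fin n × Fin n) K := fun i => g i - C (constantCoeff (g i)) with hg'
  set h' : Fin m → MvPolynomial (Fin n × Fin n) K := fun i => h i - C (constantCoeff (h i)) with hh'
  set F' : MvPolynomial (Fin n × Fin n) K := ∑ i, g' i * h' i with hF'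
  have h3 : F - F' = ∑ i, (C (constantCoeff (g i)) * h i + C (constantCoeff (h i)) * g i -
      C (constantCoeff (g i)) * C (constantCoeff (h i))) := by
    rw [← hsum, hF', ← Finset.sum_sub_distrib]
    refine Finset.sum_congr rfl fun i _ => ?_
    simp only [hg', hh']
    ring
  have h4 : (F - F').totalDegree < n := by
    rw [h3]
    refine lt_of_le_of_lt (totalDegree_finsetSum_le (d := n - 1) fun i _ => ?_) (by omega)
    refine (totalDegree_sub _ _).trans (max_le ((totalDegree_add _ _).trans (max_le ?_ ?_)) ?_)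
    · refine (totalDegree_mul _ _).trans ?_
      rw [totalDegree_C]
      have := hh i
      omega
    · refine (totalDegree_mul _ _).trans ?_
      rw [totalDegree_C]
      have := hg i
      omega
    · rw [← C_mul, totalDegree_C]
      omega
  have h5 : F'.totalDegree ≤ n := by
    have h6 : F' = F - (F - F') := by ring
    rw [h6]
    exact (totalDegree_sub _ _).trans (max_le hF h4.le)
  have h6 : homogeneousComponent n F' = homogeneousComponent n F := by
    have h7 : homogeneousComponent n (F - F') = 0 := homogeneousComponent_eq_zero _ _ h4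
    rw [map_sub, sub_eq_zero] at h7
    exact h7.symm
  have hSF' : Small F' (n * n - 2 * n) := small_of_top (by omega) h5 (by rwa [h6])
  have h7 := card_of_small hn hSF' (r := m + m) (Fin.append g' h')
    (PL.span_ne_top _ fun i => by
      refine Fin.addCases (fun i => ?_) (fun i => ?_) i
      · rw [Fin.append_left]
        simp only [hg', map_sub, constantCoeff_C, sub_self]
      · rw [Fin.append_right]
        simp only [hh', map_sub, constantCoeff_C, sub_self])
    (∑ i : Fin m, X (Fin.castAdd m i) * X (Fin.natAdd m i)) ?_ ?_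
  · omega
  · intro j
    rw [coeff_sum]
    refine Finset.sum_eq_zero fun i _ => ?_
    have h8 : (X (Fin.castAdd m i) * X (Fin.natAdd m i) : MvPolynomial (Fin (m + m)) K) =
        monomial (Finsupp.single (Fin.castAdd m i) 1 + Finsupp.single (Fin.natAdd m i) 1) 1 := by
      rw [X, X, monomial_mul, one_mul]
    rw [h8, coeff_monomial, if_neg]
    intro h9
    have h10 := congrArg Finsupp.degree h9
    rw [map_add, Finsupp.degree_single, Finsupp.degree_single,
      Finsupp.degree_single] at h10
    omega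
  · rw [map_sum, hF']
    refine Finset.sum_congr rfl fun i _ => ?_
    rw [map_mul, aeval_X, aeval_X, Fin.append_left, Fin.append_right]

/-- forms of lower degree -/
theorem card_forms_of_top (hn : 2 ≤ n) {r : ℕ} (g : Fin r → MvPolynomial (Fin n × Fin n) K)
    (d : Fin r → ℕ) (hg : ∀ i, (g i).IsHomogeneous (d i) ∧ 0 < d i ∧ d i < n)
    (G : MvPolynomial (Fin r) K)
    (hS : Small (homogeneousComponent n (aeval g G)) (n * n - 2 * n)) : 2 * n ≤ r := by
  classical
  rw [PL.aeval_weightedHomogeneousComponent g d (fun i => (hg i).1)] at hS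
  refine card_of_small hn hS g (PL.span_ne_top g fun i => by
      rw [constantCoeff_eq]
      exact (hg i).1.coeff_eq_zero (by simp; exact (hg i).2.1.ne)) _ ?_ rfl
  intro i
  rw [coeff_weightedHomogeneousComponent, if_neg]
  rw [Finsupp.weight_single, one_smul]
  exact (hg i).2.2.ne

end basics

section rat

variable {k : Type} [Field k] {n : ℕ}

theorem comp_gp (s : (Fin n × Fin n) →₀ ℕ) (h : s.degree ≠ n) (K : Type) [Field K] :
    coeff s (PL.gp K n) = 0 := gp_hom.coeff_eq_zero h

theorem small_rat (h2 : (2 : k) ≠ 0) (hn : 2 ≤ n) {F : MvPolynomial (Fin n × Fin n) (RatFunc k)}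
    (h : ∀ s : (Fin n × Fin n) →₀ ℕ, s.degree = n → (F.coeff s).denom.eval 0 ≠ 0 ∧
      (F.coeff s).eval (RingHom.id k) 0 = (PL.gp k n).coeff s) :
    Small (homogeneousComponent n F) (n * n - 2 * n) := by
  refine v_spec k (Fin n × Fin n) _ (PL.gp k n) n _ (by omega)
    (homogeneousComponent_isHomogeneous n F) (fun s => ?_) (small_gp h2 hn)
  rw [coeff_homogeneousComponent]
  split_ifs with hs
  · exact h s hs
  · rw [comp_gp s hs k, RatFunc.denom_zero, RatFunc.eval_zero]
    simp

theorem gp_map (K : Type) [Field K] [Algebra k K] (s : (Fin n × Fin n) →₀ ℕ) :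
    coeff s (PL.gp K n) = algebraMap k K (coeff s (PL.gp k n)) := by
  rw [← coeff_map]
  congr 1
  rw [PL.gp_eq, PL.gp_eq, map_sum]
  refine Finset.sum_congr rfl fun σ _ => ?_
  rw [map_prod]
  refine Finset.prod_congr rfl fun l _ => ?_
  rw [map_X]

end rat

end Pool.Agent.HS38.PX
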