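import Pool.Agent.HS38.PX.U

/-!
# Lemma B from Lemma B' by degeneration
-/

set_option autoImplicit false

namespace Pool.Agent.HS38.PX

open Finset

section

variable {α β : Type} [DecidableEq α] [DecidableEq β]

/-- the generic matrix of a block -/
noncomputable def mg (K : Type) [Field K] (R : Finset α) (C : Finset β) (i : α) (l : β) :
    MvPolynomial (Option ((R × C) ⊕ R)) K :=
  if h : i ∈ R ∧ l ∈ C then MvPolynomial.X (some (Sum.inl (⟨i, h.1⟩, ⟨l, h.2⟩))) else 0

/-- the generic column -/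
noncomputable def cg (K : Type) [Field K] (R : Finset α) (C : Finset β) (i : α) :
    MvPolynomial (Option ((R × C) ⊕ R)) K :=
  if h : i ∈ R then MvPolynomial.X (some (Sum.inr ⟨i, h⟩)) else 0

variable {K : Type} [Field K] {A : Type} [CommRing A] [Algebra K A] {R : Finset α}
  {C : Finset β}

theorem aeval_mg (w : Option ((R × C) ⊕ R) → A) {i : α} {l : β} (hi : i ∈ R) (hl : l ∈ C) :
    MvPolynomial.aeval w (mg K R C i l) = w (some (Sum.inl (⟨i, hi⟩, ⟨l, hl⟩))) := by
  unfold mg
  rw [dif_pos ⟨hi, hl⟩, MvPolynomial.aeval_X]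

theorem aeval_cg (w : Option ((R × C) ⊕ R) → A) {i : α} (hi : i ∈ R) :
    MvPolynomial.aeval w (cg K R C i) = w (some (Sum.inr ⟨i, hi⟩)) := by
  unfold cg
  rw [dif_pos hi, MvPolynomial.aeval_X]

theorem aeval_pm (w : Option ((R × C) ⊕ R) → A) (R1 : Finset α) (C1 : Finset β) :
    MvPolynomial.aeval w (pm (mg K R C) R1 C1) =
      pm (fun i l => MvPolynomial.aeval w (mg K R C i l)) R1 C1 :=
  (pm_map (MvPolynomial.aeval w : MvPolynomial _ K →ₐ[K] A).toRingHom _ _ _).symm

end

theorem u_lb : U_LB := by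
  intro hLim K _ N hN hB Ω _ _ α β _ _ M c R C S hR hC hS h1 h2 h3 e he
  obtain ⟨Ω', _, _, u, hu, hdm⟩ := hLim K Ω ((R × C) ⊕ R)
    (Sum.elim (fun x => M x.1 x.2) (fun i => c i))
    (Sum.elim (fun x => Polynomial.X * Polynomial.C (M x.1 x.2)) (fun i => Polynomial.C (c i)))
    (by rintro (x | i) <;> simp)
  set wX : Option ((R × C) ⊕ R) → Polynomial Ω := fun o => o.elim Polynomial.X
    (Sum.elim (fun x => Polynomial.X * Polynomial.C (M x.1 x.2)) (fun i => Polynomial.C (c i)))
    with hwX
  set w0 : Option ((R × C) ⊕ R) → Ω' := fun o => o.elim 0 u with hw0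
  -- values of subpermanents
  have key : ∀ R1 ⊆ R, ∀ C1 ⊆ C, MvPolynomial.aeval wX (pm (mg K R C) R1 C1) =
      Polynomial.X ^ R1.card * Polynomial.C (pm M R1 C1) := by
    intro R1 hR1 C1 hC1
    rw [aeval_pm, ← pm_map Polynomial.C M R1 C1, ← pm_smul]
    refine pm_congr fun i hi l hl => ?_
    rw [aeval_mg wX (hR1 hi) (hC1 hl)]
    rfl
  have keyP : ∀ i ∈ R, ∀ i' ∈ R.erase i, ∀ l l', MvPolynomial.aeval wX
      (PP (mg K R C) R C i i' l l') =
      Polynomial.X ^ (N - 2) * Polynomial.C (PP M R C i i' l l') := by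
    intro i hi i' hi' l l'
    unfold PP
    rw [key _ ((Finset.erase_subset _ _).trans (Finset.erase_subset _ _)) _
      ((Finset.erase_subset _ _).trans (Finset.erase_subset _ _)),
      Finset.card_erase_of_mem hi', Finset.card_erase_of_mem hi, hR]
    rfl
  have keyc : ∀ i ∈ R, MvPolynomial.aeval wX (cg K R C i) = Polynomial.C (c i) := by
    intro i hi
    rw [aeval_cg wX hi]
    rfl
  set M' : α → β → Ω' := fun i l => MvPolynomial.aeval w0 (mg K R C i l) with hM'
  set c' : α → Ω' := fun i => MvPolynomial.aeval w0 (cg K R C i) with hc'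
  have key0 : ∀ R1 C1, MvPolynomial.aeval w0 (pm (mg K R C) R1 C1) = pm M' R1 C1 := by
    intro R1 C1
    rw [aeval_pm]
  have keyP0 : ∀ i i' l l', MvPolynomial.aeval w0 (PP (mg K R C) R C i i' l l') =
      PP M' R C i i' l l' := fun i i' l l' => key0 _ _
  have hfin := hB Ω' α β M' c' R C S hR hC hS ?_ ?_ ?_ e he
  · have h5 : Dm K (Set.range u) e := by
      refine hfin.mono ?_ le_rfl
      refine Set.Subset.trans ?_ (subset_acl _)
      rintro _ ⟨x | i, rfl⟩
      · left
        refine ⟨x.1, x.1.2, x.2, x.2.2, ?_⟩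
        rw [hM']
        simp only
        rw [aeval_mg w0 x.1.2 x.2.2]
        rfl
      · right
        refine ⟨i, i.2, ?_⟩
        rw [hc']
        simp only
        rw [aeval_cg w0 i.2]
        rfl
    refine (hdm e h5).mono ?_ le_rfl
    refine Set.Subset.trans ?_ (subset_acl _)
    rintro a (⟨i, hi, l, hl, rfl⟩ | ⟨i, hi, rfl⟩)
    · exact ⟨Sum.inl (⟨i, hi⟩, ⟨l, hl⟩), rfl⟩
    · exact ⟨Sum.inr ⟨i, hi⟩, rfl⟩
  · -- first hypothesis
    intro i hi l hl
    have h6 := hu (pm (mg K R C) (R.erase i) (C.erase l) + MvPolynomial.X none *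
      ∑ i' ∈ R.erase i, ∑ l' ∈ S.erase l, cg K R C i' * PP (mg K R C) R C i i' l l') ?_
    · have h11 : w0 none = 0 := rfl
      rw [map_add, map_mul, MvPolynomial.aeval_X, key0, h11, zero_mul, add_zero] at h6
      exact h6
    · rw [map_add, map_mul, MvPolynomial.aeval_X, key _ (Finset.erase_subset _ _) _
        (Finset.erase_subset _ _), Finset.card_erase_of_mem hi, hR, map_sum]
      have h7 : ∑ i' ∈ R.erase i, MvPolynomial.aeval wX (∑ l' ∈ S.erase l,
          cg K R C i' * PP (mg K R C) R C i i' l l') = Polynomial.X ^ (N - 2) * Polynomial.C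
          (∑ i' ∈ R.erase i, ∑ l' ∈ S.erase l, c i' * PP M R C i i' l l') := by
        rw [map_sum, Finset.mul_sum]
        refine Finset.sum_congr rfl fun i' hi' => ?_
        rw [map_sum, map_sum, Finset.mul_sum]
        refine Finset.sum_congr rfl fun l' _ => ?_
        rw [map_mul, keyc _ (Finset.mem_of_mem_erase hi'), keyP i hi i' hi', map_mul]
        ring
      rw [h7]
      have h8 : wX none = Polynomial.X := rfl
      have h9 : N - 1 = N - 2 + 1 := by omega
      have h10 : Polynomial.X ^ (N - 1) * Polynomial.C (pm M (R.erase i) (C.erase l)) +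
          Polynomial.X * (Polynomial.X ^ (N - 2) * Polynomial.C
          (∑ i' ∈ R.erase i, ∑ l' ∈ S.erase l, c i' * PP M R C i i' l l')) =
          Polynomial.X ^ (N - 1) * Polynomial.C (pm M (R.erase i) (C.erase l) +
            ∑ i' ∈ R.erase i, ∑ l' ∈ S.erase l, c i' * PP M R C i i' l l') := by
        rw [map_add, h9]
        ring
      rw [h8, h10, h1 i hi l hl, map_zero, mul_zero]
  · -- second hypothesis
    intro i hi
    have h6 := hu (∑ l ∈ S, ∑ i' ∈ R.erase i, ∑ l' ∈ S.erase l,
      cg K R C i' * PP (mg K R C) R C i i' l l') ?_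
    · simp only [map_sum, map_mul, keyP0] at h6
      exact h6
    · have h7 : MvPolynomial.aeval wX (∑ l ∈ S, ∑ i' ∈ R.erase i, ∑ l' ∈ S.erase l,
          cg K R C i' * PP (mg K R C) R C i i' l l') = Polynomial.X ^ (N - 2) * Polynomial.C
          (∑ l ∈ S, ∑ i' ∈ R.erase i, ∑ l' ∈ S.erase l, c i' * PP M R C i i' l l') := by
        rw [map_sum, map_sum, Finset.mul_sum]
        refine Finset.sum_congr rfl fun l _ => ?_
        rw [map_sum, map_sum, Finset.mul_sum]
        refine Finset.sum_congr rfl fun i' hi' => ?_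
        rw [map_sum, map_sum, Finset.mul_sum]
        refine Finset.sum_congr rfl fun l' _ => ?_
        rw [map_mul, keyc _ (Finset.mem_of_mem_erase hi'), keyP i hi i' hi', map_mul]
        ring
      rw [h7, h2 i hi, map_zero, mul_zero]
  · -- third hypothesis
    intro l hl
    have h6 := hu (∑ i ∈ R, ∑ i' ∈ R.erase i, ∑ l' ∈ S.erase l,
      cg K R C i * cg K R C i' * PP (mg K R C) R C i i' l l') ?_
    · simp only [map_sum, map_mul, keyP0] at h6
      exact h6
    · have h7 : MvPolynomial.aeval wX (∑ i ∈ R, ∑ i' ∈ R.erase i, ∑ l' ∈ S.erase l,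
          cg K R C i * cg K R C i' * PP (mg K R C) R C i i' l l') =
          Polynomial.X ^ (N - 2) * Polynomial.C (∑ i ∈ R, ∑ i' ∈ R.erase i, ∑ l' ∈ S.erase l,
            c i * c i' * PP M R C i i' l l') := by
        rw [map_sum, map_sum, Finset.mul_sum]
        refine Finset.sum_congr rfl fun i hi => ?_
        rw [map_sum, map_sum, Finset.mul_sum]
        refine Finset.sum_congr rfl fun i' hi' => ?_
        rw [map_sum, map_sum, Finset.mul_sum]
        refine Finset.sum_congr rfl fun l' _ => ?_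
        rw [map_mul, map_mul, keyc _ hi, keyc _ (Finset.mem_of_mem_erase hi'), keyP i hi i' hi',
          map_mul, map_mul]
        ring
      rw [h7, h3 l hl, map_zero, mul_zero]

end Pool.Agent.HS38.PX
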