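import Pool.Agent.HS38.PX.U

/-!
# Piece LB' : Lemma B' from the torus lemma
-/

set_option autoImplicit false

namespace Pool.Agent.HS38.PX

open Finset

section quad

variable {K Ω : Type} [Field K] [Field Ω] [Algebra K Ω] {ι : Type} [DecidableEq ι]

/-- Lemma Quad -/
theorem quadL (h2 : (2 : K) ≠ 0) (J : Finset ι) (y : ι → Ω) (a : ι → ι → Ω)
    (hs : ∀ j ∈ J, ∀ j' ∈ J, a j j' = a j' j)
    (hq : ∑ j ∈ J, ∑ j' ∈ J.erase j, y j * y j' * a j j' = 0)
    {j1 j2 : ι} (hj1 : j1 ∈ J) (hj2 : j2 ∈ J) (hne : j1 ≠ j2) (ha : a j1 j2 ≠ 0) :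
    ∃ j3 ∈ J, ∀ L : IntermediateField K Ω,
      (∀ j ∈ J, ∀ j' ∈ J, j ≠ j' → a j j' ∈ L) → (∀ j ∈ J, j ≠ j3 → y j ∈ L) → y j3 ∈ L := by
  have h2' : (2 : Ω) ≠ 0 := by
    have := (algebraMap K Ω).injective.ne h2
    rwa [map_ofNat, map_zero] at this
  set l : Ω := ∑ j' ∈ J.erase j1, y j' * a j1 j' with hl
  set r : Ω := ∑ j ∈ J.erase j1, ∑ j' ∈ (J.erase j).erase j1, y j * y j' * a j j' with hr
  have key : (2 * l) * y j1 + r = 0 := by
    rw [← Finset.add_sum_erase J _ hj1] at hq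
    have e1 : ∑ j' ∈ J.erase j1, y j1 * y j' * a j1 j' = y j1 * l := by
      rw [hl, Finset.mul_sum]
      exact Finset.sum_congr rfl fun j _ => by ring
    have e2 : ∑ j ∈ J.erase j1, ∑ j' ∈ J.erase j, y j * y j' * a j j' = y j1 * l + r := by
      have : ∀ j ∈ J.erase j1, ∑ j' ∈ J.erase j, y j * y j' * a j j' =
          y j1 * (y j * a j1 j) + ∑ j' ∈ (J.erase j).erase j1, y j * y j' * a j j' := by
        intro j hj
        have hjm := Finset.mem_erase.1 hj
        rw [← Finset.add_sum_erase (J.erase j) _ (Finset.mem_erase.2 ⟨hjm.1.symm, hj1⟩),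
          hs j hjm.2 j1 hj1]
        ring
      rw [Finset.sum_congr rfl this, Finset.sum_add_distrib, ← Finset.mul_sum]
    rw [e1, e2] at hq
    linear_combination hq
  by_cases h0 : l = 0
  · refine ⟨j2, hj2, fun L haL hyL => ?_⟩
    rw [hl, ← Finset.add_sum_erase (J.erase j1) _ (Finset.mem_erase.2 ⟨hne.symm, hj2⟩)] at h0
    refine mem_of_mul (a := a j1 j2)
      (b := ∑ x ∈ (J.erase j1).erase j2, y x * a j1 x) ?_ ha (haL _ hj1 _ hj2 hne) ?_
    · linear_combination h0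
    · refine sum_mem fun j hj => ?_
      have h := Finset.mem_erase.1 hj
      have h' := Finset.mem_erase.1 h.2
      exact mul_mem (hyL _ h'.2 h.1) (haL _ hj1 _ h'.2 h'.1.symm)
  · refine ⟨j1, hj1, fun L haL hyL => ?_⟩
    refine mem_of_mul key (mul_ne_zero h2' h0) ?_ ?_
    · refine mul_mem (ofNat_mem L 2) (sum_mem fun j hj => ?_)
      have h := Finset.mem_erase.1 hj
      exact mul_mem (hyL _ h.2 h.1) (haL _ hj1 _ h.2 h.1.symm)
    · refine sum_mem fun j hj => sum_mem fun j' hj' => ?_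
      have h := Finset.mem_erase.1 hj
      have h' := Finset.mem_erase.1 hj'
      have h'' := Finset.mem_erase.1 h'.2
      exact mul_mem (mul_mem (hyL _ h.2 h.1) (hyL _ h''.2 h'.1)) (haL _ h.2 _ h''.2 h''.1.symm)

end quad

theorem pm_mem {K Ω : Type} [Field K] [Field Ω] [Algebra K Ω] {α β : Type} [DecidableEq α]
    [DecidableEq β] {M : α → β → Ω} {R : Finset α} {C : Finset β} {L : IntermediateField K Ω}
    (h : ∀ i ∈ R, ∀ l ∈ C, M i l ∈ L) : pm M R C ∈ L := by
  unfold pm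
  exact sum_mem fun e _ => prod_mem fun i _ => h i i.2 _ (e i).2

theorem PP_symm {α β A : Type} [DecidableEq α] [DecidableEq β] [CommRing A] (M : α → β → A)
    (R : Finset α) (C : Finset β) (i i' : α) (l l' : β) :
    PP M R C i i' l l' = PP M R C i' i l l' := by
  unfold PP
  rw [Finset.erase_right_comm]

theorem zs_pred {α β A : Type} [DecidableEq α] [DecidableEq β] [CommRing A] {M : α → β → A}
    {R : Finset α} {C : Finset β} {N : ℕ} (hN : 1 ≤ N) (hR : R.card = N) (hC : C.card = N)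
    (h : ∀ i ∈ R, ∀ l ∈ C, pm M (R.erase i) (C.erase l) = 0) : Zs (N - 1) M R C := by
  intro R' hR' C' hC' hcR hcC
  have key : ∀ {γ : Type} [DecidableEq γ] (X X' : Finset γ), X' ⊆ X → X.card = N →
      X'.card = N - 1 → ∃ x ∈ X, X' = X.erase x := by
    intro γ _ X X' hs hX hX'
    have h1 : (X \ X').card = 1 := by
      rw [Finset.card_sdiff_of_subset hs, hX, hX']
      omega
    obtain ⟨x, hx⟩ := Finset.card_eq_one.1 h1
    have hxm : x ∈ X \ X' := by rw [hx]; exact Finset.mem_singleton_self x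
    refine ⟨x, (Finset.mem_sdiff.1 hxm).1, ?_⟩
    refine Finset.eq_of_subset_of_card_le (fun z hz => Finset.mem_erase.2 ⟨?_, hs hz⟩) ?_
    · rintro rfl
      exact (Finset.mem_sdiff.1 hxm).2 hz
    · rw [Finset.card_erase_of_mem (Finset.mem_sdiff.1 hxm).1, hX, hX']
  obtain ⟨i, hi, rfl⟩ := key R R' hR' hR hcR
  obtain ⟨l, hl, rfl⟩ := key C C' hC' hC hcC
  exact h i hi l hl

theorem t_LB' : U_LB' := by
  intro hT K _ h2 N hN hSN hSN' Ω _ _ α β _ _ M c R C S hR hC hS h1 hh2 hh3 e he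
  have hz : Zs (N - 1) M R C := zs_pred (by omega) hR hC h1
  have hScard : S.card ≤ N := by rw [← hC]; exact Finset.card_le_card hS
  obtain ⟨T1, T2, T3⟩ := hT K h2 Ω α β M R C S N hN hR hC hS hSN hSN' hz
  have hNN : 2 * N ≤ N * N := Nat.mul_le_mul_right N hN
  obtain ⟨e0, he0⟩ : ∃ e0, e0 + 2 * N = N * N := ⟨N * N - 2 * N, by omega⟩
  have hM : Dm K (ent M R C) e0 := hSN Ω α β M R C hR hC hz e0 (by omega)
  -- the coefficients
  set q : β → α → α → Ω := fun l i i' => ∑ l' ∈ S.erase l, PP M R C i i' l l' with hq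
  have hqs : ∀ l i i', q l i i' = q l i' i := fun l i i' =>
    Finset.sum_congr rfl fun l' _ => PP_symm M R C i i' l l'
  set Q : α → α → Ω := fun i i' => ∑ l ∈ S, q l i i' with hQ
  have hentL : ∀ (T : Set Ω), ∀ i ∈ R, ∀ l ∈ C, M i l ∈ acl K (ent M R C ∪ T) :=
    fun T i hi l hl => subset_acl _ (Or.inl ⟨i, hi, l, hl, rfl⟩)
  have hqL : ∀ (T : Set Ω) l i i', q l i i' ∈ acl K (ent M R C ∪ T) := by
    intro T l i i'
    refine sum_mem fun l' hl' => pm_mem fun a ha b hb => ?_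
    exact hentL T a (Finset.mem_of_mem_erase (Finset.mem_of_mem_erase ha)) b
      (Finset.mem_of_mem_erase (Finset.mem_of_mem_erase hb))
  have hQL : ∀ (T : Set Ω) i i', Q i i' ∈ acl K (ent M R C ∪ T) := fun T i i' =>
    sum_mem fun l _ => hqL T l i i'
  have hh2' : ∀ i ∈ R, ∑ i' ∈ R.erase i, c i' * Q i i' = 0 := by
    intro i hi
    rw [← hh2 i hi, Finset.sum_comm]
    refine Finset.sum_congr rfl fun i' _ => ?_
    rw [hQ]
    simp only [hq, Finset.mul_sum]
  have hh3' : ∀ l ∈ C, ∑ i ∈ R, ∑ i' ∈ R.erase i, c i * c i' * q l i i' = 0 := by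
    intro l hl
    rw [← hh3 l hl]
    refine Finset.sum_congr rfl fun i _ => Finset.sum_congr rfl fun i' _ => ?_
    simp only [hq, Finset.mul_sum]
  -- the trivial estimate
  have hcount : ∀ {e1 : ℕ}, Dm K (ent M R C) e1 → ∀ J ⊆ R,
      (∀ i ∈ R, c i ∈ acl K (ent M R C ∪ c '' (J : Set α))) → ∀ m, e1 + J.card ≤ m →
      Dm K (ent M R C ∪ c '' (R : Set α)) m := by
    intro e1 hd J hJ hc m hm
    refine hd.add J c ?_ hm
    rintro z (hz | ⟨i, hi, rfl⟩)
    · exact subset_acl _ (Or.inl hz)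
    · exact hc i hi
  by_cases hα : ∃ i1 ∈ R, ∃ i2 ∈ R.erase i1, Q i1 i2 ≠ 0
  · obtain ⟨i1, hi1, i2, hi2, hne⟩ := hα
    have hi2' := Finset.mem_erase.1 hi2
    refine hcount hM ((R.erase i1).erase i2)
      ((Finset.erase_subset _ _).trans (Finset.erase_subset _ _)) ?_ e ?_
    · set L := acl K (ent M R C ∪ c '' (((R.erase i1).erase i2 : Finset α) : Set α)) with hL
      have hcL : ∀ i ∈ (R.erase i1).erase i2, c i ∈ L := fun i hi =>
        subset_acl _ (Or.inr ⟨i, hi, rfl⟩)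
      have c2 : c i2 ∈ L := by
        have h := hh2' i1 hi1
        rw [← Finset.add_sum_erase (R.erase i1) _ hi2] at h
        refine mem_of_mul (a := Q i1 i2) (b := ∑ x ∈ (R.erase i1).erase i2, c x * Q i1 x)
          ?_ hne (hQL _ _ _) (sum_mem fun i hi => mul_mem (hcL i hi) (hQL _ _ _))
        linear_combination h
      have c1 : c i1 ∈ L := by
        have h := hh2' i2 hi2'.2
        have hm : i1 ∈ R.erase i2 := Finset.mem_erase.2 ⟨hi2'.1.symm, hi1⟩
        rw [← Finset.add_sum_erase (R.erase i2) _ hm] at h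
        have hne' : Q i2 i1 ≠ 0 := by
          rw [hQ] at hne ⊢
          simpa only [hqs _ i2 i1] using hne
        refine mem_of_mul (a := Q i2 i1) (b := ∑ x ∈ (R.erase i2).erase i1, c x * Q i2 x)
          ?_ hne' (hQL _ _ _) (sum_mem fun i hi => mul_mem (hcL i ?_) (hQL _ _ _))
        · linear_combination h
        · rwa [Finset.erase_right_comm] at hi
      intro i hi
      by_cases e1 : i = i1
      · rw [e1]; exact c1
      by_cases e2 : i = i2
      · rw [e2]; exact c2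
      exact hcL i (Finset.mem_erase.2 ⟨e2, Finset.mem_erase.2 ⟨e1, hi⟩⟩)
    · rw [Finset.card_erase_of_mem hi2, Finset.card_erase_of_mem hi1, hR]
      omega
  push Not at hα
  by_cases hβ : ∃ l ∈ C, ∃ i1 ∈ R, ∃ i2 ∈ R.erase i1, q l i1 i2 ≠ 0
  · obtain ⟨l, hl, i1, hi1, i2, hi2, hne⟩ := hβ
    have hi2' := Finset.mem_erase.1 hi2
    obtain ⟨i3, hi3, hI⟩ := quadL h2 R c (q l) (fun _ _ _ _ => hqs _ _ _) (hh3' l hl) hi1
      hi2'.2 hi2'.1.symm hne
    have hall : ∀ i ∈ R, c i ∈ acl K (ent M R C ∪ c '' ((R.erase i3 : Finset α) : Set α)) := by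
      have hcL : ∀ i ∈ R, i ≠ i3 →
          c i ∈ acl K (ent M R C ∪ c '' ((R.erase i3 : Finset α) : Set α)) := fun i hi hn =>
        subset_acl _ (Or.inr ⟨i, Finset.mem_erase.2 ⟨hn, hi⟩, rfl⟩)
      intro i hi
      by_cases e1 : i = i3
      · rw [e1]
        exact hI _ (fun j _ j' _ _ => hqL _ _ _ _) hcL
      · exact hcL i hi e1
    by_cases hSN : S.card = N
    · obtain ⟨e1, he1, hd⟩ := T1 hSN hα
      refine hcount hd (R.erase i3) (Finset.erase_subset _ _) hall e ?_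
      rw [Finset.card_erase_of_mem hi3, hR]
      omega
    · refine hcount hM (R.erase i3) (Finset.erase_subset _ _) hall e ?_
      rw [Finset.card_erase_of_mem hi3, hR]
      omega
  push Not at hβ
  have hγ : ∀ i ∈ R, ∀ i' ∈ R.erase i, ∀ l ∈ C, ∑ l' ∈ S.erase l, PP M R C i i' l l' = 0 :=
    fun i hi i' hi' l hl => hβ l hl i hi i' hi'
  have hall : ∀ i ∈ R, c i ∈ acl K (ent M R C ∪ c '' (R : Set α)) := fun i hi =>
    subset_acl _ (Or.inr ⟨i, hi, rfl⟩)
  rcases (by omega : S.card = N ∨ S.card + 1 = N ∨ S.card + 2 ≤ N) with h | h | h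
  · obtain ⟨e1, he1, hd⟩ := T3 h hγ
    refine hcount hd R subset_rfl hall e ?_
    rw [hR]
    omega
  · obtain ⟨e1, he1, hd⟩ := T2 h hγ
    refine hcount hd R subset_rfl hall e ?_
    rw [hR]
    omega
  · refine hcount hM R subset_rfl hall e ?_
    rw [hR]
    omega

end Pool.Agent.HS38.PX
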