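import Pool.Agent.HS38.PX.U

/-!
# The step for `s = N`, matrices of size `N + 1` (piece Step, by helper47)
-/

set_option autoImplicit false

namespace Pool.Agent.HS38.PX

open Finset

section rel

variable {α β A : Type} [DecidableEq α] [DecidableEq β] [CommRing A]

/-- the relations of Lemma B for the block without the row `i0` and the column `j0`, if the row `i0`
is one in the columns `S ∪ {j0}` and zero in the other columns -/
theorem step_rel (M : α → β → A) {R : Finset α} {C S : Finset β} {i0 : α} {j0 : β} {N : ℕ}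
    (hi0 : i0 ∈ R) (hj0 : j0 ∈ C) (hR : R.card = N + 1) (hC : C.card = N + 1)
    (hS : S ⊆ C.erase j0) (hZ : Zs N M R C) (h1 : M i0 j0 = 1) (h2 : ∀ l ∈ S, M i0 l = 1)
    (h3 : ∀ l ∈ C.erase j0, l ∉ S → M i0 l = 0) :
    (∀ i ∈ R.erase i0, ∀ l ∈ C.erase j0,
      pm M ((R.erase i0).erase i) ((C.erase j0).erase l) +
      ∑ i' ∈ (R.erase i0).erase i, ∑ l' ∈ S.erase l,
        M i' j0 * PP M (R.erase i0) (C.erase j0) i i' l l' = 0) ∧
    (∀ i ∈ R.erase i0, ∑ l ∈ S, ∑ i' ∈ (R.erase i0).erase i, ∑ l' ∈ S.erase l,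
      M i' j0 * PP M (R.erase i0) (C.erase j0) i i' l l' = 0) ∧
    (∀ l ∈ C.erase j0, ∑ i ∈ R.erase i0, ∑ i' ∈ (R.erase i0).erase i, ∑ l' ∈ S.erase l,
      M i j0 * M i' j0 * PP M (R.erase i0) (C.erase j0) i i' l l' = 0) := by
  have hrow : ∀ (f : β → A) (D : Finset β), D ⊆ C.erase j0 →
      ∑ l ∈ D, M i0 l * f l = ∑ l ∈ D ∩ S, f l := by
    intro f D hD
    rw [← Finset.sum_subset (Finset.inter_subset_left : D ∩ S ⊆ D)]
    · exact Finset.sum_congr rfl fun l hl => by rw [h2 l (Finset.mem_inter.1 hl).2, one_mul]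
    · intro l hl hl'
      rw [h3 l (hD hl) fun h => hl' (Finset.mem_inter.2 ⟨hl, h⟩), zero_mul]
  have H1 : ∀ i ∈ R.erase i0, ∀ l ∈ C.erase j0,
      pm M ((R.erase i0).erase i) ((C.erase j0).erase l) +
      ∑ i' ∈ (R.erase i0).erase i, ∑ l' ∈ S.erase l,
        M i' j0 * PP M (R.erase i0) (C.erase j0) i i' l l' = 0 := by
    intro i hi l hl
    have hi1 := Finset.mem_erase.1 hi
    have hl1 := Finset.mem_erase.1 hl
    have hz := hZ (R.erase i) (Finset.erase_subset _ _) (C.erase l) (Finset.erase_subset _ _)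
      (by rw [Finset.card_erase_of_mem hi1.2, hR]; rfl)
      (by rw [Finset.card_erase_of_mem hl1.2, hC]; rfl)
    have hi0' : i0 ∈ R.erase i := Finset.mem_erase.2 ⟨fun h => hi1.1 h.symm, hi0⟩
    have hj0' : j0 ∈ C.erase l := Finset.mem_erase.2 ⟨fun h => hl1.1 h.symm, hj0⟩
    rw [pm_row M _ hi0', ← Finset.add_sum_erase _ _ hj0', h1, one_mul] at hz
    rw [hrow _ _ (by
      rw [Finset.erase_right_comm]
      exact Finset.erase_subset _ _)] at hz
    have e1 : (R.erase i).erase i0 = (R.erase i0).erase i := Finset.erase_right_comm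
    have e2 : (C.erase l).erase j0 = (C.erase j0).erase l := Finset.erase_right_comm
    rw [e1, e2] at hz
    have e3 : (C.erase j0).erase l ∩ S = S.erase l := by
      ext x
      simp only [Finset.mem_inter, Finset.mem_erase]
      constructor
      · rintro ⟨⟨hx, -⟩, hx2⟩
        exact ⟨hx, hx2⟩
      · rintro ⟨hx, hx2⟩
        exact ⟨⟨hx, Finset.mem_erase.1 (hS hx2)⟩, hx2⟩
    rw [e3] at hz
    rw [← hz, Finset.sum_comm]
    congr 1
    refine Finset.sum_congr rfl fun l' hl' => ?_
    have hl'1 := Finset.mem_erase.1 hl'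
    have hl'2 := Finset.mem_erase.1 (hS hl'1.2)
    have hj0'' : j0 ∈ (C.erase l).erase l' :=
      Finset.mem_erase.2 ⟨fun h => hl'2.1 h.symm, hj0'⟩
    rw [pm_col M _ hj0'']
    refine Finset.sum_congr rfl fun i' _ => ?_
    unfold PP
    congr 2
    ext x
    simp only [Finset.mem_erase]
    tauto
  refine ⟨H1, ?_, ?_⟩
  · intro i hi
    have hi1 := Finset.mem_erase.1 hi
    have hz := hZ (R.erase i) (Finset.erase_subset _ _) (C.erase j0) (Finset.erase_subset _ _)
      (by rw [Finset.card_erase_of_mem hi1.2, hR]; rfl)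
      (by rw [Finset.card_erase_of_mem hj0, hC]; rfl)
    have hi0' : i0 ∈ R.erase i := Finset.mem_erase.2 ⟨fun h => hi1.1 h.symm, hi0⟩
    rw [pm_row M _ hi0', hrow _ _ subset_rfl, Finset.inter_eq_right.2 hS] at hz
    have e1 : (R.erase i).erase i0 = (R.erase i0).erase i := Finset.erase_right_comm
    rw [e1] at hz
    have := Finset.sum_congr (rfl : S = S) fun l hl => H1 i hi l (hS hl)
    rw [Finset.sum_add_distrib, hz, zero_add, Finset.sum_const_zero] at this
    exact this
  · intro l hl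
    have hl1 := Finset.mem_erase.1 hl
    have hz := hZ (R.erase i0) (Finset.erase_subset _ _) (C.erase l) (Finset.erase_subset _ _)
      (by rw [Finset.card_erase_of_mem hi0, hR]; rfl)
      (by rw [Finset.card_erase_of_mem hl1.2, hC]; rfl)
    have hj0' : j0 ∈ C.erase l := Finset.mem_erase.2 ⟨fun h => hl1.1 h.symm, hj0⟩
    have e2 : (C.erase l).erase j0 = (C.erase j0).erase l := Finset.erase_right_comm
    rw [pm_col M _ hj0', e2] at hz
    have := Finset.sum_congr (rfl : R.erase i0 = R.erase i0) fun i hi => by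
      have h := congrArg (fun z => M i j0 * z) (H1 i hi l hl)
      simp only [mul_add, mul_zero] at h
      exact h
    rw [Finset.sum_add_distrib, hz, zero_add, Finset.sum_const_zero] at this
    rw [← this]
    refine Finset.sum_congr rfl fun i _ => ?_
    rw [Finset.mul_sum]
    refine Finset.sum_congr rfl fun i' _ => ?_
    rw [Finset.mul_sum]
    exact Finset.sum_congr rfl fun l' _ => by ring

end rel

/-- PIECE Step -/
theorem step : U_Step := by
  classical
  intro K _ N hN hLB Ω _ _ α β _ _ M R C hR hC hZ e he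
  have he' : e + 1 = N * N := by nlinarith
  by_cases h0 : ∀ i ∈ R, ∀ l ∈ C, M i l = 0
  · refine (dm_empty (K := K) (Ω := Ω) e).mono ?_ le_rfl
    rintro x ⟨i, hi, l, hl, rfl⟩
    rw [h0 i hi l hl]
    exact zero_mem _
  push Not at h0
  obtain ⟨i0, hi0, j0, hj0, hd⟩ := h0
  set S := (C.erase j0).filter (fun l => M i0 l ≠ 0) with hSdef
  have hS : S ⊆ C.erase j0 := Finset.filter_subset _ _
  set t : β → Ω := fun l => if l ∈ insert j0 S then (M i0 l)⁻¹ else 1 with ht
  have ht1 : ∀ l ∈ insert j0 S, M i0 l ≠ 0 := by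
    intro l hl
    rcases Finset.mem_insert.1 hl with rfl | h
    · exact hd
    · exact (Finset.mem_filter.1 h).2
  set M' : α → β → Ω := fun i l => M i l * t l with hM'
  have hZ' : Zs N M' R C := by
    intro R' hR' C' hC' h1 h2
    rw [hM', pm_scale, hZ R' hR' C' hC' h1 h2, zero_mul]
  have hone : ∀ l ∈ insert j0 S, M' i0 l = 1 := by
    intro l hl
    simp only [hM', ht, if_pos hl]
    exact mul_inv_cancel₀ (ht1 l hl)
  obtain ⟨r1, r2, r3⟩ := step_rel M' (S := S) hi0 hj0 hR hC hS hZ'
    (hone j0 (Finset.mem_insert_self _ _)) (fun l hl => hone l (Finset.mem_insert_of_mem hl))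
    (by
      intro l hl hlS
      have : M i0 l = 0 := by
        by_contra h
        exact hlS (Finset.mem_filter.2 ⟨hl, h⟩)
      simp only [hM', this, zero_mul])
  have hR' : (R.erase i0).card = N := by rw [Finset.card_erase_of_mem hi0, hR]; rfl
  have hC' : (C.erase j0).card = N := by rw [Finset.card_erase_of_mem hj0, hC]; rfl
  have hScard : S.card ≤ N := hC' ▸ Finset.card_le_card hS
  have hNN : S.card + 2 ≤ N * N := by nlinarith
  have hD := hLB Ω α β M' (fun i => M' i j0) (R.erase i0) (C.erase j0) S hR' hC' hS r1 r2 r3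
    (N * N - (S.card + 2)) (by omega)
  have hJ : (insert j0 S).card = S.card + 1 :=
    Finset.card_insert_of_notMem fun h => (Finset.mem_erase.1 (hS h)).1 rfl
  refine hD.add (insert j0 S) (fun l => M i0 l) ?_ (by rw [hJ]; omega)
  set E : Set Ω := (ent M' (R.erase i0) (C.erase j0) ∪
    (fun i => M' i j0) '' ((R.erase i0 : Finset α) : Set α)) ∪
      (fun l => M i0 l) '' ((insert j0 S : Finset β) : Set β) with hE
  have hrow : ∀ l ∈ insert j0 S, M i0 l ∈ acl K E := fun l hl =>
    subset_acl E (Or.inr ⟨l, hl, rfl⟩)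
  rintro x ⟨i, hi, l, hl, rfl⟩
  change M i l ∈ acl K E
  by_cases hii : i = i0
  · subst hii
    by_cases hlS : l ∈ insert j0 S
    · exact hrow l hlS
    · have : M i l = 0 := by
        by_contra h
        exact hlS (Finset.mem_insert.2 (or_iff_not_imp_left.2 fun hlj =>
          Finset.mem_filter.2 ⟨Finset.mem_erase.2 ⟨hlj, hl⟩, h⟩))
      rw [this]
      exact zero_mem _
  · have hiR : i ∈ R.erase i0 := Finset.mem_erase.2 ⟨hii, hi⟩
    have hM'l : M' i l ∈ acl K E := by
      by_cases hlj : l = j0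
      · subst hlj
        exact subset_acl E (Or.inl (Or.inr ⟨i, hiR, rfl⟩))
      · exact subset_acl E (Or.inl (Or.inl ⟨i, hiR, l, Finset.mem_erase.2 ⟨hlj, hl⟩, rfl⟩))
    by_cases hlS : l ∈ insert j0 S
    · have : M i l = M' i l * M i0 l := by
        simp only [hM', ht, if_pos hlS]
        rw [mul_assoc, inv_mul_cancel₀ (ht1 l hlS), mul_one]
      rw [this]
      exact mul_mem hM'l (hrow l hlS)
    · have : M i l = M' i l := by
        simp only [hM', ht, if_neg hlS, mul_one]
      rw [this]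
      exact hM'l

end Pool.Agent.HS38.PX
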