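import Pool.Agent.HS38.PX.U

/-!
# Pieces Td, Gen, Lim (helper57)
-/

set_option autoImplicit false

namespace Pool.Agent.HS38.PX

open Cardinal AlgebraicIndependent

section td

variable {K : Type} {Ω : Type} [Field K] [Field Ω] [Algebra K Ω]

/-- an algebraically independent family in the closure of `n` elements has at most `n` members -/
theorem encard_le_of_indep {E : Set Ω} {n : ℕ} (h : Dm K E n) {I : Set Ω}
    (hI : AlgebraicIndependent K ((↑) : I → Ω)) (hIE : I ⊆ acl K E) : I.encard ≤ n := by
  rw [dm_iff] at h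
  have h1 : (matroid K Ω).Indep I := hI
  rw [← h1.eRk_eq_encard]
  refine le_trans ((matroid K Ω).eRk_mono hIE) ?_
  rw [acl_eq, Matroid.eRk_closure_eq]
  exact h

theorem adjoin_subset_acl (E : Set Ω) : (Algebra.adjoin K E : Set Ω) ⊆ acl K E := by
  intro a ha
  have h1 : Algebra.adjoin K E ≤ (acl K E).toSubalgebra := Algebra.adjoin_le (subset_acl E)
  exact h1 ha

theorem trdeg_adjoin_le_iff {E : Set Ω} {n : ℕ} :
    Algebra.trdeg K (Algebra.adjoin K E) ≤ (n : Cardinal) ↔ Dm K E n := by
  obtain ⟨s, hs⟩ := exists_isTranscendenceBasis K (Algebra.adjoin K E)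
  rw [← hs.cardinalMk_eq_trdeg]
  constructor
  · intro h
    have hfin : s.Finite := by
      have h2 : #s < ℵ₀ := h.trans_lt (natCast_lt_aleph0)
      exact Cardinal.lt_aleph0_iff_set_finite.1 h2
    have hfin' := hfin.image (Subtype.val : Algebra.adjoin K E → Ω)
    refine ⟨hfin'.toFinset, ?_, ?_⟩
    · classical
      have h3 : hfin'.toFinset = hfin.toFinset.image Subtype.val := by
        ext x
        simp
      rw [h3]
      refine Finset.card_image_le.trans ?_
      have h4 : #s = (hfin.toFinset.card : Cardinal) := by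
        rw [← Cardinal.mk_coe_finset]
        exact Cardinal.mk_congr (Equiv.subtypeEquivRight fun x => by simp)
      rw [h4] at h
      exact_mod_cast h
    · rw [hfin'.coe_toFinset]
      intro a ha
      rw [SetLike.mem_coe, mem_acl]
      have h5 : IsAlgebraic (Algebra.adjoin K s)
          (⟨a, Algebra.subset_adjoin ha⟩ : Algebra.adjoin K E) := by
        have h6 := hs.isAlgebraic
        rw [Subtype.range_coe] at h6
        exact h6.isAlgebraic _
      have hmap : ∀ x : Algebra.adjoin K s,
          ((x : Algebra.adjoin K E) : Ω) ∈ Algebra.adjoin K (Subtype.val '' s : Set Ω) := by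
        intro x
        have h7 : (Algebra.adjoin K E).val (x : Algebra.adjoin K E) ∈
            (Algebra.adjoin K s).map (Algebra.adjoin K E).val := ⟨_, x.2, rfl⟩
        rw [AlgHom.map_adjoin] at h7
        exact h7
      let f : Algebra.adjoin K s →+* Algebra.adjoin K (Subtype.val '' s : Set Ω) :=
        (((Algebra.adjoin K E).val.comp (Algebra.adjoin K s).val).codRestrict _ hmap).toRingHom
      have hf : Function.Injective f := by
        intro x y hxy
        have h8 := congrArg Subtype.val hxy
        exact Subtype.ext (Subtype.ext h8)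
      exact h5.ringHom_of_comp_eq f (Algebra.adjoin K E).val hf rfl
  · intro h
    have h1 : AlgebraicIndependent K (fun x : s => ((x : Algebra.adjoin K E) : Ω)) :=
      hs.1.map' (f := (Algebra.adjoin K E).val) Subtype.val_injective
    have h2 := h1.to_subtype_range
    have h3 := encard_le_of_indep h h2 (by
      rintro _ ⟨x, rfl⟩
      exact adjoin_subset_acl E (x : Algebra.adjoin K E).2)
    have hinj : Function.Injective (fun x : s => ((x : Algebra.adjoin K E) : Ω)) := h1.injective
    have hfin := Set.finite_of_encard_le_coe h3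
    have hfs : Finite s := Set.finite_range_iff hinj |>.1 hfin
    have h4 : (Set.range (fun x : s => ((x : Algebra.adjoin K E) : Ω))).encard = ENat.card s := by
      rw [← Set.image_univ, hinj.encard_image, Set.encard_univ]
    rw [h4] at h3
    have := Fintype.ofFinite s
    rw [ENat.card_eq_coe_fintype_card] at h3
    rw [Cardinal.mk_fintype]
    exact_mod_cast h3

end td

theorem u_td : U_Td := by
  intro K _ Ω _ _ σ _ v n
  rw [← trdeg_adjoin_le_iff]
  have h1 := PL.td_cast K (RingHom.ker (MvPolynomial.aeval v : MvPolynomial σ K →ₐ[K] Ω))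
  have h2 : Algebra.trdeg K
      (MvPolynomial σ K ⧸ RingHom.ker (MvPolynomial.aeval v : MvPolynomial σ K →ₐ[K] Ω)) =
      Algebra.trdeg K (Algebra.adjoin K (Set.range v)) := by
    rw [Algebra.adjoin_range_eq_range_aeval]
    have h3 : RingHom.ker (MvPolynomial.aeval v : MvPolynomial σ K →ₐ[K] Ω) =
        RingHom.ker (MvPolynomial.aeval v : MvPolynomial σ K →ₐ[K] Ω).rangeRestrict := by
      ext x
      rw [RingHom.mem_ker, RingHom.mem_ker]
      exact (Subtype.ext_iff (a1 := (MvPolynomial.aeval v : MvPolynomial σ K →ₐ[K] Ω).rangeRestrict x)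
        (a2 := 0)).symm
    rw [h3]
    exact (Ideal.quotientKerAlgEquivOfSurjective
      (f := (MvPolynomial.aeval v : MvPolynomial σ K →ₐ[K] Ω).rangeRestrict)
      (AlgHom.rangeRestrict_surjective _)).trdeg_eq
  rw [← h2, ← h1]
  exact_mod_cast Iff.rfl

theorem u_gen : U_Gen := by
  intro K _ Ω _ _ β
  let Ω' := FractionRing (MvPolynomial β Ω)
  let f : Ω →ₐ[K] Ω' := IsScalarTower.toAlgHom K Ω Ω'
  let t : β → Ω' := fun k => algebraMap (MvPolynomial β Ω) Ω' (MvPolynomial.X k)
  have ht : AlgebraicIndependent Ω t := by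
    have h1 : AlgebraicIndependent Ω (MvPolynomial.X : β → MvPolynomial β Ω) :=
      MvPolynomial.algebraicIndependent_X β Ω
    exact h1.map' (f := IsScalarTower.toAlgHom Ω (MvPolynomial β Ω) Ω')
      (IsFractionRing.injective (MvPolynomial β Ω) Ω')
  refine ⟨Ω', inferInstance, inferInstance, f, t, fun k => ht.ne_zero k, ?_⟩
  intro E S e h
  obtain ⟨I, hI⟩ := (matroid K Ω).exists_isBasis E
  have hIi : AlgebraicIndependent K ((↑) : I → Ω) := hI.indep
  have hS : AlgebraicIndependent Ω (fun k : S => t k) := ht.comp _ Subtype.val_injective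
  have h2 := AlgebraicIndependent.sumElim_comp hIi hS
  have h3 := encard_le_of_indep h h2.to_subtype_range (by
    rintro _ ⟨x, rfl⟩
    refine subset_acl _ ?_
    rcases x with x | x
    · exact Or.inr ⟨x, x.2, rfl⟩
    · exact Or.inl ⟨x, hI.subset x.2, rfl⟩)
  have hinj := h2.injective
  rw [← Set.image_univ, hinj.encard_image, Set.encard_univ] at h3
  have h4 : ENat.card (S ⊕ I) = S.card + I.encard := by
    rw [ENat.card_sum, ENat.card_coe_set_eq, ENat.card_eq_coe_fintype_card, Fintype.card_coe]
  have h5 : (S.card : ℕ∞) + I.encard ≤ e := h4 ▸ h3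
  have hfin : I.Finite := Set.finite_of_encard_le_coe ((self_le_add_left _ _).trans h5)
  rw [hfin.encard_eq_coe_toFinset_card] at h5
  have h6 : S.card + hfin.toFinset.card ≤ e := by exact_mod_cast h5
  refine ⟨by omega, ?_⟩
  rw [dm_iff, hI.eRk_eq_encard, hfin.encard_eq_coe_toFinset_card]
  have h7 : hfin.toFinset.card ≤ e - S.card := by omega
  exact_mod_cast h7

theorem u_lim : U_Lim := by
  intro K _ Ω _ _ σ _ v vw hv
  let φ : MvPolynomial (Option σ) K →ₐ[K] Polynomial Ω :=
    MvPolynomial.aeval (fun o : Option σ => o.elim Polynomial.X vw)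
  let ev : Ω → Polynomial Ω →ₐ[K] Ω := fun a => (Polynomial.aeval a : Polynomial Ω →ₐ[Ω] Ω).restrictScalars K
  let P : Ideal (MvPolynomial (Option σ) K) := RingHom.ker φ
  have hP : P.IsPrime := RingHom.ker_isPrime _
  let v1 : Option σ → Ω := fun o => o.elim 1 v
  let P1 : Ideal (MvPolynomial (Option σ) K) :=
    RingHom.ker (MvPolynomial.aeval v1 : MvPolynomial (Option σ) K →ₐ[K] Ω)
  have hP1 : P1.IsPrime := RingHom.ker_isPrime _
  have hφ1 : (ev 1).comp φ = MvPolynomial.aeval v1 := by
    apply MvPolynomial.algHom_ext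
    intro o
    cases o with
    | none => simp [φ, ev, v1]
    | some i => simp [φ, ev, v1, Polynomial.coe_aeval_eq_eval, hv i]
  have hle : P ≤ P1 := by
    intro g hg
    have h1 : φ g = 0 := hg
    have h2 : (ev 1) (φ g) = 0 := by rw [h1, map_zero]
    show MvPolynomial.aeval v1 g = 0
    rw [← hφ1]
    exact h2
  have hlt : P < P1 := by
    refine lt_of_le_of_ne hle ?_
    intro h
    have h1 : (MvPolynomial.X none - 1 : MvPolynomial (Option σ) K) ∈ P1 := by
      show MvPolynomial.aeval v1 _ = 0
      simp [v1]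
    rw [← h] at h1
    have h2 : φ (MvPolynomial.X none - 1) = 0 := h1
    rw [map_sub, map_one, MvPolynomial.aeval_X] at h2
    have h3 := congrArg (Polynomial.eval 0) h2
    simp at h3
  have h01 := PL.td_lt K hlt
  have hne : P ⊔ Ideal.span {(MvPolynomial.X none : MvPolynomial (Option σ) K)} ≤
      RingHom.ker ((ev 0).comp φ) := by
    refine sup_le ?_ ?_
    · intro g hg
      have h1 : φ g = 0 := hg
      show (ev 0) (φ g) = 0
      rw [h1, map_zero]
    · rw [Ideal.span_singleton_le_iff_mem]
      show (ev 0) (φ (MvPolynomial.X none)) = 0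
      simp [φ, ev]
  have hker : (RingHom.ker ((ev 0).comp φ)).IsPrime := RingHom.ker_isPrime _
  obtain ⟨Q, hQ, -⟩ := Ideal.exists_minimalPrimes_le hne
  have hQp : Q.IsPrime := hQ.1.1
  have h02 := PL.td_min K hQ
  have hPQ : P ≤ Q := le_sup_left.trans hQ.1.2
  have hXQ : (MvPolynomial.X none : MvPolynomial (Option σ) K) ∈ Q :=
    hQ.1.2 (Ideal.mem_sup_right (Ideal.mem_span_singleton_self _))
  let Ω' := FractionRing (MvPolynomial (Option σ) K ⧸ Q)
  let j : MvPolynomial (Option σ) K →ₐ[K] Ω' :=
    (IsScalarTower.toAlgHom K (MvPolynomial (Option σ) K ⧸ Q) Ω').comp (Ideal.Quotient.mkₐ K Q)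
  let u : σ → Ω' := fun i => j (MvPolynomial.X (some i))
  have hj0 : ∀ g, j g = 0 ↔ g ∈ Q := by
    intro g
    have h1 : j g = algebraMap (MvPolynomial (Option σ) K ⧸ Q) Ω' (Ideal.Quotient.mk Q g) := rfl
    rw [h1, IsFractionRing.to_map_eq_zero_iff, Ideal.Quotient.eq_zero_iff_mem]
  have hj : j = MvPolynomial.aeval (fun o : Option σ => o.elim (0 : Ω') u) := by
    apply MvPolynomial.algHom_ext
    intro o
    cases o with
    | none =>
      rw [MvPolynomial.aeval_X]
      exact (hj0 _).2 hXQ
    | some i =>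
      rw [MvPolynomial.aeval_X]
      rfl
  refine ⟨Ω', inferInstance, inferInstance, u, ?_, ?_⟩
  · intro g hg
    rw [← hj]
    exact (hj0 g).2 (hPQ hg)
  · intro e he
    have h1 : Dm K (Set.range (fun o : Option σ => o.elim (0 : Ω') u)) e := by
      refine he.mono ?_ le_rfl
      rintro _ ⟨o, rfl⟩
      cases o with
      | none => exact zero_mem _
      | some i => exact subset_acl _ ⟨i, rfl⟩
    rw [← u_td, ← hj] at h1
    have h2 : RingHom.ker j = Q := by
      ext g
      exact hj0 g
    rw [h2] at h1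
    have h3 : PL.td K P1 ≤ e := by omega
    have h4 := (u_td K Ω (Option σ) v1 e).1 h3
    refine h4.mono ?_ le_rfl
    rintro _ ⟨i, rfl⟩
    exact subset_acl _ ⟨some i, rfl⟩

end Pool.Agent.HS38.PX
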