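import Pool.Agent.HS38.PX.U

/-!
# The torus lemma (piece TORUS of project XP)
-/

set_option autoImplicit false

namespace Pool.Agent.HS38.PX

open Finset

namespace Tor

section ring

variable {α β A : Type} [DecidableEq α] [DecidableEq β] [CommRing A]

theorem PP_comm_col (M : α → β → A) (R : Finset α) (C : Finset β) (i i' : α) (l l' : β) :
    PP M R C i i' l l' = PP M R C i i' l' l := by
  unfold PP
  rw [Finset.erase_right_comm (s := C)]

theorem PP_scale_mul (M : α → β → A) (t : β → A) (R : Finset α) (C : Finset β) (i i' : α)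
    {l l' : β} (hl : l ∈ C) (hl' : l' ∈ C) (hne : l' ≠ l) :
    PP (fun i l => M i l * t l) R C i i' l l' * (t l * t l') =
      PP M R C i i' l l' * ∏ k ∈ C, t k := by
  unfold PP
  rw [pm_scale, ← Finset.mul_prod_erase C t hl,
    ← Finset.mul_prod_erase (C.erase l) t (Finset.mem_erase.2 ⟨hne, hl'⟩)]
  ring

theorem PP_map {B : Type} [CommRing B] (f : A →+* B) (M : α → β → A) (R : Finset α)
    (C : Finset β) (i i' : α) (l l' : β) :
    PP (fun i l => f (M i l)) R C i i' l l' = f (PP M R C i i' l l') :=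
  pm_map f M _ _

end ring

section field

variable {K Ω : Type} [Field K] [Field Ω] [Algebra K Ω]

theorem pm_mem {α β : Type} [DecidableEq α] [DecidableEq β] {L : IntermediateField K Ω}
    {M : α → β → Ω} {R : Finset α} {C : Finset β} (h : ∀ i ∈ R, ∀ l ∈ C, M i l ∈ L) :
    pm M R C ∈ L := by
  unfold pm
  exact sum_mem fun e _ => prod_mem fun i _ => h i i.2 _ (e i).2

theorem PP_mem {α β : Type} [DecidableEq α] [DecidableEq β] {L : IntermediateField K Ω}
    {M : α → β → Ω} {R : Finset α} {C : Finset β} (h : ∀ i ∈ R, ∀ l ∈ C, M i l ∈ L)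
    (i i' : α) (l l' : β) : PP M R C i i' l l' ∈ L :=
  pm_mem fun _ hi _ hl => h _ (Finset.mem_of_mem_erase (Finset.mem_of_mem_erase hi)) _
    (Finset.mem_of_mem_erase (Finset.mem_of_mem_erase hl))

/-- Lemma Quad: from a quadratic relation without squares with a nonzero coefficient
`a j1 j2`, one of the unknowns is determined by the coefficients and the other unknowns. -/
theorem quad (K : Type) {Ω ι : Type} [Field K] [Field Ω] [Algebra K Ω] [DecidableEq ι]
    (J : Finset ι) (y : ι → Ω)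
    (a : ι → ι → Ω) (hsymm : ∀ j j', a j j' = a j' j) (htwo : (2 : Ω) ≠ 0)
    (h0 : ∑ j ∈ J, ∑ j' ∈ J.erase j, y j * y j' * a j j' = 0) {j1 j2 : ι} (h1 : j1 ∈ J)
    (h2 : j2 ∈ J) (h12 : j1 ≠ j2) (ha : a j1 j2 ≠ 0) :
    ∃ j3 ∈ J, ∀ L : IntermediateField K Ω, (∀ j ∈ J, ∀ j' ∈ J.erase j, a j j' ∈ L) →
      (∀ j ∈ J.erase j3, y j ∈ L) → y j3 ∈ L := by
  classical
  set l : Ω := ∑ j' ∈ J.erase j1, y j' * a j1 j' with hl
  set r : Ω := ∑ j ∈ J.erase j1, ∑ j' ∈ (J.erase j).erase j1, y j * y j' * a j j' with hr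
  have hS : 2 * l * y j1 + r = 0 := by
    rw [← h0, ← Finset.add_sum_erase J _ h1]
    have e1 : ∑ j' ∈ J.erase j1, y j1 * y j' * a j1 j' = y j1 * l := by
      rw [hl, Finset.mul_sum]
      exact Finset.sum_congr rfl fun j _ => by ring
    have e2 : ∑ j ∈ J.erase j1, ∑ j' ∈ J.erase j, y j * y j' * a j j' = y j1 * l + r := by
      rw [hl, hr, Finset.mul_sum, ← Finset.sum_add_distrib]
      refine Finset.sum_congr rfl fun j hj => ?_
      have hj1 : j1 ∈ J.erase j := Finset.mem_erase.2 ⟨fun h => (Finset.mem_erase.1 hj).1 h.symm, h1⟩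
      rw [← Finset.add_sum_erase (J.erase j) _ hj1, hsymm j j1]
      ring
    rw [e1, e2]
    ring
  by_cases hl0 : l = 0
  · refine ⟨j2, h2, fun L hL hy => ?_⟩
    have hj2 : j2 ∈ J.erase j1 := Finset.mem_erase.2 ⟨fun h => h12 h.symm, h2⟩
    have h3 : a j1 j2 * y j2 + ∑ j' ∈ (J.erase j1).erase j2, y j' * a j1 j' = 0 := by
      rw [← hl0, hl, ← Finset.add_sum_erase (J.erase j1) _ hj2]
      ring
    refine mem_of_mul h3 ha (hL _ h1 _ hj2) (sum_mem fun j hj => ?_)
    have hj' := Finset.mem_erase.1 hj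
    have hj'' := Finset.mem_erase.1 hj'.2
    exact mul_mem (hy _ (Finset.mem_erase.2 ⟨hj'.1, hj''.2⟩)) (hL _ h1 _ hj'.2)
  · refine ⟨j1, h1, fun L hL hy => ?_⟩
    refine mem_of_mul hS (mul_ne_zero htwo hl0) (mul_mem (ofNat_mem L 2) ?_) ?_
    · exact sum_mem fun j hj => mul_mem (hy _ hj) (hL _ h1 _ hj)
    · refine sum_mem fun j hj => sum_mem fun j' hj' => ?_
      have h4 := Finset.mem_erase.1 hj'
      have h5 := Finset.mem_erase.1 h4.2
      exact mul_mem (mul_mem (hy _ hj) (hy _ (Finset.mem_erase.2 ⟨h4.1, h5.2⟩)))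
        (hL _ (Finset.mem_erase.1 hj).2 _ h4.2)

end field

section torus

set_option linter.unusedSectionVars false

variable {K Ω Ω' α β : Type} [Field K] [Field Ω] [Algebra K Ω] [Field Ω'] [Algebra K Ω']
  [DecidableEq α] [DecidableEq β]

/-- the scaling factors -/
def sc (t : β → Ω') (S : Finset β) (l : β) : Ω' := if l ∈ S then t l else 1

theorem sc_mem {t : β → Ω'} {S : Finset β} {l : β} (h : l ∈ S) : sc t S l = t l := if_pos h

theorem sc_ne {t : β → Ω'} (ht : ∀ k, t k ≠ 0) (S : Finset β) (l : β) : sc t S l ≠ 0 := by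
  unfold sc
  split_ifs
  · exact ht l
  · exact one_ne_zero

theorem torus_aux (f : Ω →ₐ[K] Ω') (t : β → Ω') (ht : ∀ k, t k ≠ 0)
    (hgen : ∀ (E : Set Ω) (S : Finset β) (e : ℕ), Dm K (f '' E ∪ t '' (S : Set β)) e →
      S.card ≤ e ∧ Dm K E (e - S.card)) (M : α → β → Ω) (R : Finset α) (C S J : Finset β)
    (n : ℕ) (hD : Dm K (ent (fun i l => f (M i l) * sc t S l) R C) n)
    (hT : ∀ L : IntermediateField K Ω', (∀ i ∈ R, ∀ l ∈ C, f (M i l) * sc t S l ∈ L) →
      (∀ l ∈ J, t l ∈ L) → ∀ l ∈ S, t l ∈ L) :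
    S.card ≤ n + J.card ∧ Dm K (ent M R C) (n + J.card - S.card) := by
  refine hgen _ _ _ (hD.add J t ?_ le_rfl)
  set T : Set Ω' := ent (fun i l => f (M i l) * sc t S l) R C ∪ t '' (J : Set β) with hTdef
  have h1 : ∀ i ∈ R, ∀ l ∈ C, f (M i l) * sc t S l ∈ acl K T := fun i hi l hl =>
    subset_acl T (Or.inl ⟨i, hi, l, hl, rfl⟩)
  have h2 : ∀ l ∈ J, t l ∈ acl K T := fun l hl => subset_acl T (Or.inr ⟨l, hl, rfl⟩)
  have h3 := hT _ h1 h2
  rintro x (⟨_, ⟨i, hi, l, hl, rfl⟩, rfl⟩ | ⟨l, hl, rfl⟩)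
  · have h4 : sc t S l ∈ acl K T := by
      unfold sc
      split_ifs with h
      · exact h3 l h
      · exact one_mem _
    have h5 : f (M i l) = f (M i l) * sc t S l / sc t S l := by
      rw [mul_div_cancel_right₀ _ (sc_ne ht S l)]
    change f (M i l) ∈ acl K T
    rw [h5]
    exact div_mem (h1 i hi l hl) h4
  · exact h3 l hl

/-- the scaled linear relation -/
theorem torus_rel (f : Ω →ₐ[K] Ω') (t : β → Ω') (ht : ∀ k, t k ≠ 0) (M : α → β → Ω)
    (R : Finset α) (C S : Finset β) (hSC : S ⊆ C) (i i' : α) {l : β} (hl : l ∈ C)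
    (h : ∑ l' ∈ S.erase l, PP M R C i i' l l' = 0) :
    ∑ l' ∈ S.erase l, t l' * PP (fun i l => f (M i l) * sc t S l) R C i i' l l' = 0 := by
  have h1 : sc t S l * ∑ l' ∈ S.erase l, t l' *
      PP (fun i l => f (M i l) * sc t S l) R C i i' l l' = 0 := by
    have h2 : ∀ l' ∈ S.erase l, sc t S l * (t l' *
        PP (fun i l => f (M i l) * sc t S l) R C i i' l l') =
        f (PP M R C i i' l l') * ∏ k ∈ C, sc t S k := by
      intro l' hl'
      have h3 := Finset.mem_erase.1 hl'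
      have h4 := PP_scale_mul (fun i l => f (M i l)) (sc t S) R C i i' hl (hSC h3.2) h3.1
      have h5 : PP (fun i l => f (M i l)) R C i i' l l' = f (PP M R C i i' l l') :=
        PP_map (f : Ω →+* Ω') M R C i i' l l'
      rw [h5] at h4
      rw [← h4, sc_mem h3.2]
      ring
    rw [Finset.mul_sum, Finset.sum_congr rfl h2, ← Finset.sum_mul, ← map_sum, h, map_zero,
      zero_mul]
  exact (mul_eq_zero.1 h1).resolve_left (sc_ne ht S l)

/-- the scaled quadratic relation -/
theorem torus_rel2 (f : Ω →ₐ[K] Ω') (t : β → Ω') (M : α → β → Ω)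
    (R : Finset α) (C S : Finset β) (hSC : S ⊆ C) (i i' : α)
    (h : ∑ l ∈ S, ∑ l' ∈ S.erase l, PP M R C i i' l l' = 0) :
    ∑ l ∈ S, ∑ l' ∈ S.erase l, t l * t l' *
      PP (fun i l => f (M i l) * sc t S l) R C i i' l l' = 0 := by
  have h2 : ∀ l ∈ S, ∀ l' ∈ S.erase l, t l * t l' *
      PP (fun i l => f (M i l) * sc t S l) R C i i' l l' =
      f (PP M R C i i' l l') * ∏ k ∈ C, sc t S k := by
    intro l hl l' hl'
    have h3 := Finset.mem_erase.1 hl'
    have h4 := PP_scale_mul (fun i l => f (M i l)) (sc t S) R C i i' (hSC hl) (hSC h3.2) h3.1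
    have h5 : PP (fun i l => f (M i l)) R C i i' l l' = f (PP M R C i i' l l') :=
      PP_map (f : Ω →+* Ω') M R C i i' l l'
    rw [h5] at h4
    rw [← h4, sc_mem h3.2, sc_mem hl]
    ring
  rw [Finset.sum_congr rfl fun l hl => Finset.sum_congr rfl (h2 l hl)]
  simp_rw [← Finset.sum_mul, ← map_sum]
  rw [h, map_zero, zero_mul]

end torus

end Tor

open Tor in
theorem torus (hGen : U_Gen) : U_Torus := by
  intro K _ htwo Ω _ _ α β _ _ M R C S N hN hR hC hSC hSN1 hSN2 hZ
  classical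
  by_cases hZ2 : Zs (N - 2) M R C
  · -- degenerate case
    have hN3 : 3 ≤ N := by
      by_contra hN3
      have hN2 : N = 2 := by omega
      subst hN2
      have h := hZ2 ∅ (Finset.empty_subset _) ∅ (Finset.empty_subset _) rfl rfl
      rw [pm_empty] at h
      exact one_ne_zero h
    obtain ⟨e, he⟩ : ∃ e, e + 2 * N + 2 = N * N := by
      have : 2 * N + 2 ≤ N * N := by nlinarith
      exact ⟨N * N - (2 * N + 2), by omega⟩
    have hD : Dm K (ent M R C) e := hSN2 hN3 Ω α β M R C hR hC hZ2 e (by omega)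
    refine ⟨fun _ _ => ⟨e + 1, by omega, hD.mono (subset_acl _) (by omega)⟩,
      fun _ _ => ⟨e + 1, by omega, hD.mono (subset_acl _) (by omega)⟩, fun _ _ => ⟨e, he, hD⟩⟩
  · -- some `(N - 2)`-subpermanent is nonzero
    obtain ⟨i1, hi1, i2, hi2, l1, hl1, l2, hl2, hi12, hl12, hP⟩ : ∃ i1 ∈ R, ∃ i2 ∈ R,
        ∃ l1 ∈ C, ∃ l2 ∈ C, i2 ≠ i1 ∧ l2 ≠ l1 ∧ PP M R C i1 i2 l1 l2 ≠ 0 := by
      unfold Zs at hZ2
      push Not at hZ2
      obtain ⟨R', hR', C', hC', hRc, hCc, hne⟩ := hZ2
      have key : ∀ (γ : Type) [DecidableEq γ] (B B' : Finset γ), B' ⊆ B → B.card = N →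
          B'.card = N - 2 → ∃ b1 ∈ B, ∃ b2 ∈ B, b2 ≠ b1 ∧ (B.erase b1).erase b2 = B' := by
        intro γ _ B B' hB hBc hB'c
        have h1 : (B \ B').card = 2 := by
          rw [Finset.card_sdiff_of_subset hB]
          omega
        obtain ⟨b1, b2, hb, hbb⟩ := Finset.card_eq_two.1 h1
        have hb1 : b1 ∈ B \ B' := by rw [hbb]; simp
        have hb2 : b2 ∈ B \ B' := by rw [hbb]; simp
        refine ⟨b1, (Finset.mem_sdiff.1 hb1).1, b2, (Finset.mem_sdiff.1 hb2).1,
          fun h => hb h.symm, ?_⟩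
        ext x
        have hx : x ∈ B \ B' ↔ x = b1 ∨ x = b2 := by rw [hbb]; simp
        rw [Finset.mem_sdiff] at hx
        simp only [Finset.mem_erase]
        constructor
        · rintro ⟨h2, h3, h4⟩
          by_contra h5
          rcases hx.1 ⟨h4, h5⟩ with h | h
          · exact h3 h
          · exact h2 h
        · intro h
          have h' := hB h
          refine ⟨fun h6 => (hx.2 (Or.inr h6)).2 h, fun h6 => (hx.2 (Or.inl h6)).2 h, h'⟩
      obtain ⟨i1, hi1, i2, hi2, hi12, hiR⟩ := key α R R' hR' hR hRc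
      obtain ⟨l1, hl1, l2, hl2, hl12, hlC⟩ := key β C C' hC' hC hCc
      refine ⟨i1, hi1, i2, hi2, l1, hl1, l2, hl2, hi12, hl12, ?_⟩
      unfold PP
      rw [hiR, hlC]
      exact hne
    obtain ⟨Ω', _, _, f, t, ht, hgen⟩ := hGen K Ω β
    have htwo' : (2 : Ω') ≠ 0 := by
      have h := (algebraMap K Ω').injective.ne htwo
      rwa [map_ofNat, map_zero] at h
    set Mh : α → β → Ω' := fun i l => f (M i l) * sc t S l with hMh
    -- the subpermanents of the scaled matrix
    have hZh : Zs (N - 1) Mh R C := by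
      intro R' hR' C' hC' hRc hCc
      rw [hMh, pm_scale (fun i l => f (M i l)) (sc t S) R' C']
      have h1 : pm (fun i l => f (M i l)) R' C' = f (pm M R' C') :=
        pm_map (f : Ω →+* Ω') M R' C'
      rw [h1, hZ R' hR' C' hC' hRc hCc, map_zero, zero_mul]
    obtain ⟨n, hn⟩ : ∃ n, n + 2 * N = N * N := by
      have : 2 * N ≤ N * N := by nlinarith
      exact ⟨N * N - 2 * N, by omega⟩
    have hDh : Dm K (ent Mh R C) n := hSN1 Ω' α β Mh R C hR hC hZh n (by omega)
    have hPh : ∀ {l l' : β}, l ∈ C → l' ∈ C → l' ≠ l → PP M R C i1 i2 l l' ≠ 0 →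
        PP Mh R C i1 i2 l l' ≠ 0 := by
      intro l l' hl hl' hne hP h0
      have h4 := PP_scale_mul (fun i l => f (M i l)) (sc t S) R C i1 i2 hl hl' hne
      have h5 : PP (fun i l => f (M i l)) R C i1 i2 l l' = f (PP M R C i1 i2 l l') :=
        PP_map (f : Ω →+* Ω') M R C i1 i2 l l'
      change PP Mh R C i1 i2 l l' * _ = _ at h4
      rw [h5, h0, zero_mul] at h4
      have h6 : f (PP M R C i1 i2 l l') ≠ 0 := fun h => hP (by
        rw [← map_zero f] at h
        exact f.injective h)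
      exact mul_ne_zero h6 (Finset.prod_ne_zero_iff.2 fun k _ => sc_ne ht S k) h4.symm
    have hP12 := hPh hl1 hl2 hl12 hP
    have hP21 : PP Mh R C i1 i2 l2 l1 ≠ 0 := by
      rw [PP_comm_col]
      exact hP12
    have hi2' : i2 ∈ R.erase i1 := Finset.mem_erase.2 ⟨hi12, hi2⟩
    refine ⟨?_, ?_, ?_⟩
    · intro hS hrel
      have hSC' : S = C := Finset.eq_of_subset_of_card_le hSC (by omega)
      have h1 := torus_rel2 f t M R C S hSC i1 i2 (hrel i1 hi1 i2 hi2')
      obtain ⟨l3, hl3, hq⟩ := quad K S t (fun l l' => PP Mh R C i1 i2 l l')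
        (fun l l' => PP_comm_col _ _ _ _ _ _ _) htwo' h1 (hSC' ▸ hl1) (hSC' ▸ hl2)
        (fun h => hl12 h.symm) hP12
      have h2 := torus_aux f t ht hgen M R C S (S.erase l3) n hDh (by
        intro L hM ht' l hl
        by_cases hll : l = l3
        · subst hll
          exact hq L (fun j _ j' _ => PP_mem hM _ _ _ _) ht'
        · exact ht' l (Finset.mem_erase.2 ⟨hll, hl⟩))
      rw [Finset.card_erase_of_mem hl3] at h2
      obtain ⟨h3, h4⟩ := h2
      refine ⟨n - 1, by omega, ?_⟩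
      have h5 : n + (S.card - 1) - S.card = n - 1 := by omega
      rwa [h5] at h4
    · intro hS hrel
      -- one of `l1, l2` is in `S`
      obtain ⟨la, lb, hla, hlb, hla', hne, hPab⟩ : ∃ la lb, la ∈ S ∧ lb ∈ C ∧ la ∈ C ∧ la ≠ lb ∧
          PP Mh R C i1 i2 lb la ≠ 0 := by
        by_cases h : l1 ∈ S
        · exact ⟨l1, l2, h, hl2, hl1, fun h => hl12 h.symm, hP21⟩
        · refine ⟨l2, l1, ?_, hl1, hl2, hl12, hP12⟩
          by_contra h'
          have h1 : S ⊆ (C.erase l1).erase l2 := fun x hx => Finset.mem_erase.2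
            ⟨fun hh => h' (hh ▸ hx), Finset.mem_erase.2 ⟨fun hh => h (hh ▸ hx), hSC hx⟩⟩
          have h2 := Finset.card_le_card h1
          rw [Finset.card_erase_of_mem (Finset.mem_erase.2 ⟨hl12, hl2⟩),
            Finset.card_erase_of_mem hl1] at h2
          omega
      have h1 := torus_rel f t ht M R C S hSC i1 i2 hlb (hrel i1 hi1 i2 hi2' lb hlb)
      have h2 := torus_aux f t ht hgen M R C S (S.erase la) n hDh (by
        intro L hM ht' l hl
        by_cases hll : l = la
        · subst hll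
          have hm : l ∈ S.erase lb := Finset.mem_erase.2 ⟨hne, hl⟩
          rw [← Finset.add_sum_erase _ _ hm, mul_comm] at h1
          refine mem_of_mul h1 hPab (PP_mem hM _ _ _ _) (sum_mem fun j hj => ?_)
          have hj' := Finset.mem_erase.1 hj
          have hj'' := Finset.mem_erase.1 hj'.2
          exact mul_mem (ht' j (Finset.mem_erase.2 ⟨hj'.1, hj''.2⟩)) (PP_mem hM _ _ _ _)
        · exact ht' l (Finset.mem_erase.2 ⟨hll, hl⟩))
      rw [Finset.card_erase_of_mem hla] at h2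
      obtain ⟨h3, h4⟩ := h2
      have hS1 : 1 ≤ S.card := by omega
      refine ⟨n - 1, by omega, ?_⟩
      have h5 : n + (S.card - 1) - S.card = n - 1 := by omega
      rwa [h5] at h4
    · intro hS hrel
      have hSC' : S = C := Finset.eq_of_subset_of_card_le hSC (by omega)
      have hl1S : l1 ∈ S := hSC' ▸ hl1
      have hl2S : l2 ∈ S := hSC' ▸ hl2
      have hlin : ∀ {la lb : β}, la ∈ S → lb ∈ S → la ≠ lb → PP Mh R C i1 i2 lb la ≠ 0 →
          ∀ L : IntermediateField K Ω', (∀ i ∈ R, ∀ l ∈ C, f (M i l) * sc t S l ∈ L) →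
          (∀ l ∈ (S.erase la).erase lb, t l ∈ L) → t la ∈ L := by
        intro la lb hla hlb hne hPab L hM ht'
        have h1 := torus_rel f t ht M R C S hSC i1 i2 (hSC hlb)
          (hrel i1 hi1 i2 hi2' lb (hSC hlb))
        have hm : la ∈ S.erase lb := Finset.mem_erase.2 ⟨hne, hla⟩
        rw [← Finset.add_sum_erase _ _ hm, mul_comm] at h1
        refine mem_of_mul h1 hPab (PP_mem hM _ _ _ _) (sum_mem fun j hj => ?_)
        have hj' := Finset.mem_erase.1 hj
        have hj'' := Finset.mem_erase.1 hj'.2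
        exact mul_mem (ht' j (Finset.mem_erase.2 ⟨hj''.1, Finset.mem_erase.2 ⟨hj'.1, hj''.2⟩⟩))
          (PP_mem hM _ _ _ _)
      have h2 := torus_aux f t ht hgen M R C S ((S.erase l1).erase l2) n hDh (by
        intro L hM ht' l hl
        by_cases hll : l = l1
        · subst hll
          exact hlin hl1S hl2S (fun h => hl12 h.symm) hP21 L hM ht'
        · by_cases hll2 : l = l2
          · subst hll2
            refine hlin hl2S hl1S hl12 hP12 L hM ?_
            rw [Finset.erase_right_comm]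
            exact ht'
          · exact ht' l (Finset.mem_erase.2 ⟨hll2, Finset.mem_erase.2 ⟨hll, hl⟩⟩))
      rw [Finset.card_erase_of_mem (Finset.mem_erase.2 ⟨hl12, hl2S⟩),
        Finset.card_erase_of_mem hl1S] at h2
      obtain ⟨h3, h4⟩ := h2
      refine ⟨n - 2, by omega, ?_⟩
      have h5 : n + (S.card - 1 - 1) - S.card = n - 2 := by omega
      rwa [h5] at h4

end Pool.Agent.HS38.PX
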