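import Pool.Agent.HS38.PX.Rec
import Pool.Agent.HS38.PX.Td
import Pool.Agent.HS38.PX.Torus
import Pool.Agent.HS38.PX.LBp
import Pool.Agent.HS38.PX.LB
import Pool.Agent.HS38.PX.Step
import Pool.Agent.HS38.PL.Corollary

/-!
# The codimension of the singular locus of the permanental hypersurface
-/

set_option autoImplicit false

namespace Pool.Agent.HS38.PX

open Finset MvPolynomial Matrix

theorem sn_one (K : Type) [Field K] (N : ℕ) : SN K N 1 := by
  intro Ω _ _ α β _ _ M R C hR hC hZ e _
  refine (dm_empty e).mono ?_ le_rfl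
  rintro _ ⟨i, hi, l, hl, rfl⟩
  have h1 := hZ {i} (Finset.singleton_subset_iff.2 hi) {l} (Finset.singleton_subset_iff.2 hl)
    (Finset.card_singleton _) (Finset.card_singleton _)
  rw [pm_row M _ (Finset.mem_singleton_self i), Finset.sum_singleton] at h1
  have h2 : ({i} : Finset α).erase i = ∅ := by simp
  have h3 : ({l} : Finset β).erase l = ∅ := by simp
  rw [h2, h3, pm_empty, mul_one] at h1
  rw [h1]
  exact zero_mem _

theorem sn (K : Type) [Field K] (h2 : (2 : K) ≠ 0) : ∀ N s : ℕ, 1 ≤ s → s + 1 ≤ N → SN K N s := by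
  intro N
  induction N with
  | zero => intro s h1 h; omega
  | succ N ih =>
    intro s h1 hs
    rcases Nat.lt_or_ge s 2 with h | h
    · have : s = 1 := by omega
      subst this
      exact sn_one K _
    · rcases Nat.lt_or_ge (s + 1) (N + 1) with h' | h'
      · refine u_rec K (N + 1) s h (by omega) ?_ ?_ ?_
        · exact ih s h1 (by omega)
        · exact ih (s - 1) (by omega) (by omega)
        · intro h3
          exact ih (s - 2) (by omega) (by omega)
      · have : s = N := by omega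
        subst this
        exact step K s h (u_lb u_lim K s h (t_LB' (torus u_gen) K h2 s h
          (ih (s - 1) (by omega) (by omega)) (fun h3 => ih (s - 2) (by omega) (by omega))))

section

variable {K : Type} [Field K] {n : ℕ}

/-- the generic matrix -/
noncomputable def gm (K : Type) [Field K] (n : ℕ) (i j : Fin n) : MvPolynomial (Fin n × Fin n) K :=
  X (i, j)

theorem pderiv_pm (x : Fin n × Fin n) (R C : Finset (Fin n)) (hx : x.1 ∉ R) :
    pderiv x (pm (gm K n) R C) = 0 := by
  unfold pm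
  rw [map_sum]
  refine Finset.sum_eq_zero fun e _ => ?_
  refine Finset.prod_induction _ (fun p : MvPolynomial (Fin n × Fin n) K => pderiv x p = 0) ?_ ?_ ?_
  · intro a b ha hb
    rw [pderiv_mul, ha, hb, zero_mul, mul_zero, add_zero]
  · exact Derivation.map_one_eq_zero _
  · intro i _
    unfold gm
    rw [pderiv_X_of_ne]
    intro h
    apply hx
    rw [← h]
    exact i.2

theorem pderiv_per (x : Fin n × Fin n) :
    pderiv x (mvPolynomialX (Fin n) (Fin n) K).permanent =
      pm (gm K n) (Finset.univ.erase x.1) (Finset.univ.erase x.2) := by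
  have h1 : (mvPolynomialX (Fin n) (Fin n) K).permanent = pm (gm K n) Finset.univ Finset.univ :=
    permanent_eq _
  rw [h1, pm_row (gm K n) _ (Finset.mem_univ x.1), map_sum, Finset.sum_eq_single x.2]
  · rw [pderiv_mul, pderiv_pm x _ _ (Finset.notMem_erase _ _), mul_zero, add_zero]
    unfold gm
    rw [pderiv_X_self, one_mul]
  · intro l _ hl
    rw [pderiv_mul, pderiv_pm x _ _ (Finset.notMem_erase _ _), mul_zero, add_zero]
    unfold gm
    rw [pderiv_X_of_ne, zero_mul]
    intro h
    exact hl (Prod.ext_iff.1 h).2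
  · intro h
    exact absurd (Finset.mem_univ _) h

/-- the ideal of the `s × s` subpermanents of the generic `n × n` matrix -/
noncomputable def subp (K : Type) [Field K] (n s : ℕ) : Ideal (MvPolynomial (Fin n × Fin n) K) :=
  Ideal.span {f | ∃ R C : Finset (Fin n), R.card = s ∧ C.card = s ∧ pm (gm K n) R C = f}

theorem height_subp (h2 : (2 : K) ≠ 0) {n s : ℕ} (h1 : 1 ≤ s) (hs : s + 1 ≤ n) :
    ((4 * n - 2 * s - 2 : ℕ) : ℕ∞) ≤ (subp K n s).height := by
  rw [Ideal.height_eq_inf_minimalPrimes]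
  refine le_iInf₂ fun P hP => ?_
  by_contra hlt
  rw [not_le] at hlt
  have hPp : P.IsPrime := hP.1.1
  have hh : P.height ≤ ((4 * n - 2 * s - 3 : ℕ) : ℕ∞) := by
    have h3 : ((4 * n - 2 * s - 2 : ℕ) : ℕ∞) = ((4 * n - 2 * s - 3 : ℕ) : ℕ∞) + 1 := by
      have : 4 * n - 2 * s - 2 = 4 * n - 2 * s - 3 + 1 := by omega
      rw [this]
      push_cast
      rfl
    rw [h3] at hlt
    exact Order.le_of_lt_add_one hlt
  have h4 := PL.card_le_td P _ hh
  rw [Fintype.card_prod, Fintype.card_fin] at h4
  let Ω' := FractionRing (MvPolynomial (Fin n × Fin n) K ⧸ P)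
  let j : MvPolynomial (Fin n × Fin n) K →ₐ[K] Ω' :=
    (IsScalarTower.toAlgHom K (MvPolynomial (Fin n × Fin n) K ⧸ P) Ω').comp
      (Ideal.Quotient.mkₐ K P)
  let v : Fin n × Fin n → Ω' := fun x => j (X x)
  have hj0 : ∀ g, j g = 0 ↔ g ∈ P := by
    intro g
    have h1 : j g = algebraMap (MvPolynomial (Fin n × Fin n) K ⧸ P) Ω'
      (Ideal.Quotient.mk P g) := rfl
    rw [h1, IsFractionRing.to_map_eq_zero_iff, Ideal.Quotient.eq_zero_iff_mem]
  have hj : j = aeval v := by
    apply MvPolynomial.algHom_ext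
    intro o
    rw [aeval_X]
  have hZ : Zs s (fun i l => v (i, l)) (Finset.univ : Finset (Fin n))
      (Finset.univ : Finset (Fin n)) := by
    intro R' _ C' _ hR' hC'
    have h5 : pm (gm K n) R' C' ∈ P := hP.1.2 (Ideal.subset_span ⟨R', C', hR', hC', rfl⟩)
    have h6 := (hj0 _).2 h5
    rw [← h6]
    exact pm_map j.toRingHom (gm K n) R' C'
  obtain ⟨e, he⟩ : ∃ e, e + 4 * n = n * n + 2 * s + 2 := by
    obtain ⟨m, rfl⟩ : ∃ m, n = m + 2 := ⟨n - 2, by omega⟩
    refine ⟨m * m + 2 * s - 2, ?_⟩
    zify [show 2 ≤ m * m + 2 * s by nlinarith]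
    ring
  have h7 := sn K h2 n s h1 hs Ω' (Fin n) (Fin n) (fun i l => v (i, l)) Finset.univ Finset.univ
    (by simp) (by simp) hZ e he
  have h8 : Dm K (Set.range v) e := by
    refine h7.mono ?_ le_rfl
    rintro _ ⟨x, rfl⟩
    exact subset_acl _ ⟨x.1, Finset.mem_univ _, x.2, Finset.mem_univ _, rfl⟩
  rw [← u_td, ← hj] at h8
  have h9 : RingHom.ker j = P := by
    ext g
    exact hj0 g
  rw [h9] at h8
  have h10 : PL.td K P + (4 * n - 2 * s - 3) < n * n := by
    have h11 : PL.td K P + 4 * n ≤ n * n + 2 * s + 2 := by omega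
    omega
  omega

theorem jac_eq (hn : 1 ≤ n) : PL.jac K n = subp K n (n - 1) := by
  apply le_antisymm
  · unfold PL.jac
    rw [Ideal.span_le]
    rintro _ ⟨x, rfl⟩
    refine Ideal.subset_span ⟨Finset.univ.erase x.1, Finset.univ.erase x.2, ?_, ?_, ?_⟩
    · rw [Finset.card_erase_of_mem (Finset.mem_univ _)]
      simp
    · rw [Finset.card_erase_of_mem (Finset.mem_univ _)]
      simp
    · exact (pderiv_per x).symm
  · unfold subp
    rw [Ideal.span_le]
    rintro _ ⟨R, C, hR, hC, rfl⟩
    have h1 : ∀ R : Finset (Fin n), R.card = n - 1 → ∃ i, R = Finset.univ.erase i := by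
      intro R hR
      have h2 : Rᶜ.card = 1 := by
        rw [Finset.card_compl, hR, Fintype.card_fin]
        omega
      obtain ⟨i, hi⟩ := Finset.card_eq_one.1 h2
      refine ⟨i, ?_⟩
      rw [← compl_compl R, hi]
      ext a
      simp
    obtain ⟨i, rfl⟩ := h1 R hR
    obtain ⟨l, rfl⟩ := h1 C hC
    refine Ideal.subset_span ⟨(i, l), ?_⟩
    exact pderiv_per (i, l)

/-- The lower bound for the codimension of the singular locus. -/
theorem le_height_jac (h2 : (2 : K) ≠ 0) (hn : 2 ≤ n) :
    ((2 * n : ℕ) : ℕ∞) ≤ (PL.jac K n).height := by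
  rw [jac_eq (by omega)]
  refine le_trans ?_ (height_subp h2 (n := n) (s := n - 1) (by omega) (by omega))
  have : 4 * n - 2 * (n - 1) - 2 = 2 * n := by omega
  rw [this]

end

end Pool.Agent.HS38.PX
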