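import Pool.Agent.HS38.PX.Stm

/-!
# Expansions of subpermanents
-/

set_option autoImplicit false

namespace Pool.Agent.HS38.PX

open Finset

variable {α β A : Type} [DecidableEq α] [DecidableEq β] [CommRing A]

theorem pm_empty (M : α → β → A) : pm M ∅ ∅ = 1 := by
  unfold pm
  have : Unique ((∅ : Finset α) ≃ (∅ : Finset β)) :=
    ⟨⟨Equiv.equivOfIsEmpty _ _⟩, fun e => Equiv.ext fun x => isEmptyElim x⟩
  rw [Fintype.sum_unique]
  simp

theorem pm_card {M : α → β → A} {R : Finset α} {C : Finset β} (h : R.card ≠ C.card) :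
    pm M R C = 0 := by
  unfold pm
  have : IsEmpty (R ≃ C) := ⟨fun e => h (by
    have := Fintype.card_congr e
    simpa using this)⟩
  simp

theorem pm_insert (M : α → β → A) {R : Finset α} (C : Finset β) {i : α} (hi : i ∉ R) :
    pm M (insert i R) C = ∑ l ∈ C, M i l * pm M R (C.erase l) := by
  unfold pm
  set φ : (insert i R : Finset α) ≃ Option R := Finset.subtypeInsertEquivOption hi with hφ
  have h1 : ∑ e : ((insert i R : Finset α) ≃ C), ∏ a : (insert i R : Finset α), M a (e a) =
      ∑ e : (Option R ≃ C), M i (e none) * ∏ a : R, M a (e (some a)) := by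
    refine Fintype.sum_equiv (Equiv.equivCongr φ (Equiv.refl _)) _ _ fun e => ?_
    have h2 : ∏ a : (insert i R : Finset α), M a (e a) =
        ∏ o : Option R, M (φ.symm o : α) (e (φ.symm o)) :=
      Fintype.prod_equiv φ _ _ fun a => by rw [Equiv.symm_apply_apply]
    rw [h2, Fintype.prod_option]
    rfl
  rw [h1, ← (Equiv.sigmaFiberEquiv (fun e : (Option R ≃ C) => e none)).sum_comp, Fintype.sum_sigma,
    ← Finset.sum_coe_sort C]
  refine Finset.sum_congr rfl fun l _ => ?_
  rw [← (Equiv.optionSubtype l).symm.sum_comp, Finset.mul_sum]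
  let ψ : {y : C // y ≠ l} ≃ (C.erase (l : β) : Finset β) :=
    { toFun := fun y => ⟨y.1.1, Finset.mem_erase.2 ⟨fun h => y.2 (Subtype.ext h), y.1.2⟩⟩
      invFun := fun y => ⟨⟨y.1, (Finset.mem_erase.1 y.2).2⟩, fun h =>
        (Finset.mem_erase.1 y.2).1 (congrArg Subtype.val h)⟩
      left_inv := fun y => rfl
      right_inv := fun y => rfl }
  refine Fintype.sum_equiv (Equiv.equivCongr (Equiv.refl _) ψ) _ _ fun e => ?_
  have h3 : (((Equiv.optionSubtype l).symm e : {e : Option R ≃ C // e none = l}) :
      Option R ≃ C) none = l := ((Equiv.optionSubtype l).symm e).2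
  change M i ((((Equiv.optionSubtype l).symm e : {e : Option R ≃ C // e none = l}) :
      Option R ≃ C) none) * ∏ a : R, M a ((((Equiv.optionSubtype l).symm e :
        {e : Option R ≃ C // e none = l}) : Option R ≃ C) (some a)) = _
  rw [h3]
  congr 1

theorem pm_row (M : α → β → A) {R : Finset α} (C : Finset β) {i : α} (hi : i ∈ R) :
    pm M R C = ∑ l ∈ C, M i l * pm M (R.erase i) (C.erase l) := by
  have h := pm_insert M C (Finset.notMem_erase i R)
  rwa [Finset.insert_erase hi] at h

theorem pm_tr (M : α → β → A) (R : Finset α) (C : Finset β) :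
    pm M R C = pm (fun l i => M i l) C R := by
  unfold pm
  refine Fintype.sum_equiv ⟨Equiv.symm, Equiv.symm, fun e => rfl, fun e => rfl⟩ _ _ fun e => ?_
  exact Fintype.prod_equiv e _ _ fun a => by simp

theorem pm_col (M : α → β → A) (R : Finset α) {C : Finset β} {l : β} (hl : l ∈ C) :
    pm M R C = ∑ i ∈ R, M i l * pm M (R.erase i) (C.erase l) := by
  rw [pm_tr, pm_row _ _ hl]
  refine Finset.sum_congr rfl fun i _ => ?_
  rw [← pm_tr]

theorem pm_map {B : Type} [CommRing B] (f : A →+* B) (M : α → β → A) (R : Finset α)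
    (C : Finset β) : pm (fun i l => f (M i l)) R C = f (pm M R C) := by
  unfold pm
  rw [map_sum]
  exact Finset.sum_congr rfl fun e _ => (map_prod f _ _).symm

theorem pm_congr {M M' : α → β → A} {R : Finset α} {C : Finset β}
    (h : ∀ i ∈ R, ∀ l ∈ C, M i l = M' i l) : pm M R C = pm M' R C := by
  unfold pm
  exact Finset.sum_congr rfl fun e _ => Finset.prod_congr rfl fun i _ =>
    h i i.2 _ (e i).2

theorem pm_scale (M : α → β → A) (t : β → A) (R : Finset α) (C : Finset β) :
    pm (fun i l => M i l * t l) R C = pm M R C * ∏ l ∈ C, t l := by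
  unfold pm
  rw [Finset.sum_mul]
  refine Finset.sum_congr rfl fun e _ => ?_
  rw [Finset.prod_mul_distrib]
  congr 1
  rw [← Finset.prod_coe_sort C]
  exact Fintype.prod_equiv e _ _ fun a => rfl

theorem pm_smul (M : α → β → A) (w : A) (R : Finset α) (C : Finset β) :
    pm (fun i l => w * M i l) R C = w ^ R.card * pm M R C := by
  unfold pm
  rw [Finset.mul_sum]
  refine Finset.sum_congr rfl fun e _ => ?_
  rw [Finset.prod_mul_distrib]
  simp

/-- the permanent is the subpermanent of all rows and columns -/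
theorem permanent_eq {n : ℕ} (M : Matrix (Fin n) (Fin n) A) :
    M.permanent = pm M Finset.univ Finset.univ := by
  rw [← Matrix.permanent_transpose]
  unfold Matrix.permanent pm
  symm
  refine Fintype.sum_equiv (Equiv.equivCongr (Equiv.subtypeUnivEquiv (Finset.mem_univ))
    (Equiv.subtypeUnivEquiv (Finset.mem_univ))) _ _ fun e => ?_
  exact Fintype.prod_equiv (Equiv.subtypeUnivEquiv (Finset.mem_univ)) _ _ fun a => rfl

end Pool.Agent.HS38.PX
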