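import Pool.Agent.HS38.PX.U

/-!
# The induction step for `2 ≤ s ≤ N - 2`
-/

set_option autoImplicit false

namespace Pool.Agent.HS38.PX

open Finset

variable {K Ω : Type} [Field K] [Field Ω] [Algebra K Ω] {α β : Type} [DecidableEq α]
  [DecidableEq β]

theorem pm_mem_rec {L : IntermediateField K Ω} {M : α → β → Ω} {R : Finset α} {C : Finset β}
    (h : ∀ i ∈ R, ∀ l ∈ C, M i l ∈ L) : pm M R C ∈ L :=
  sum_mem fun e _ => prod_mem fun i _ => h _ i.2 _ (e i).2

theorem mem_ent {M : α → β → Ω} {R : Finset α} {C : Finset β} {i : α} {l : β} (hi : i ∈ R)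
    (hl : l ∈ C) : M i l ∈ ent M R C := ⟨i, hi, l, hl, rfl⟩

theorem Zs.mono {M : α → β → Ω} {R R' : Finset α} {C C' : Finset β} {s : ℕ} (h : Zs s M R C)
    (hR : R' ⊆ R) (hC : C' ⊆ C) : Zs s M R' C' :=
  fun R1 h1 C1 h2 => h R1 (h1.trans hR) C1 (h2.trans hC)

theorem row_mem {L : IntermediateField K Ω} {M : α → β → Ω} {R1 : Finset α} {C1 : Finset β}
    {i : α} {l : β} (hi : i ∉ R1) (hl : l ∉ C1) (h0 : pm M (insert i R1) (insert l C1) = 0)
    (hne : pm M R1 C1 ≠ 0) (hL : ∀ a ∈ R1, ∀ b ∈ insert l C1, M a b ∈ L)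
    (hL' : ∀ b ∈ C1, M i b ∈ L) : M i l ∈ L := by
  rw [pm_insert M _ hi, Finset.sum_insert hl, Finset.erase_insert hl, mul_comm] at h0
  refine mem_of_mul h0 hne (pm_mem_rec fun a ha b hb => hL a ha b (Finset.mem_insert_of_mem hb)) ?_
  exact sum_mem fun b hb => mul_mem (hL' b hb)
    (pm_mem_rec fun a ha b' hb' => hL a ha b' (Finset.mem_of_mem_erase hb'))

theorem col_mem {L : IntermediateField K Ω} {M : α → β → Ω} {R1 : Finset α} {C1 : Finset β}
    {i : α} {l : β} (hi : i ∉ R1) (hl : l ∉ C1) (h0 : pm M (insert i R1) (insert l C1) = 0)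
    (hne : pm M R1 C1 ≠ 0) (hL : ∀ a ∈ insert i R1, ∀ b ∈ C1, M a b ∈ L)
    (hL' : ∀ a ∈ R1, M a l ∈ L) : M i l ∈ L := by
  rw [pm_tr] at h0 hne
  exact row_mem (M := fun l i => M i l) hl hi h0 hne (fun b hb a ha => hL a ha b hb) hL'

/-- adding a row and a column -/
theorem assemble {M : α → β → Ω} {R : Finset α} {C : Finset β} {i0 : α} {j0 : β}
    {A : Finset β} {B : Finset α} {e : ℕ} (he : Dm K (ent M (R.erase i0) (C.erase j0)) e)
    (hA : ∀ L : IntermediateField K Ω, (∀ i ∈ R.erase i0, ∀ l ∈ C.erase j0, M i l ∈ L) →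
      (∀ l ∈ A, M i0 l ∈ L) → (∀ i ∈ B, M i j0 ∈ L) → M i0 j0 ∈ L →
        (∀ l ∈ C.erase j0, M i0 l ∈ L) ∧ (∀ i ∈ R.erase i0, M i j0 ∈ L)) :
    Dm K (ent M R C) (e + A.card + B.card + 1) := by
  have h := ((he.union (dm_image A (M i0))).union (dm_image B (fun i => M i j0))).union
    (dm_finset (K := K) {M i0 j0})
  refine h.mono ?_ (by simp)
  set F : Set Ω := ent M (R.erase i0) (C.erase j0) ∪ M i0 '' A ∪ (fun i => M i j0) '' B ∪
    (({M i0 j0} : Finset Ω) : Set Ω) with hF
  have hsub := subset_acl (K := K) F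
  have h1 : ∀ i ∈ R.erase i0, ∀ l ∈ C.erase j0, M i l ∈ acl K F := fun i hi l hl =>
    hsub (Or.inl (Or.inl (Or.inl (mem_ent hi hl))))
  have h2 : ∀ l ∈ A, M i0 l ∈ acl K F := fun l hl =>
    hsub (Or.inl (Or.inl (Or.inr ⟨l, hl, rfl⟩)))
  have h3 : ∀ i ∈ B, M i j0 ∈ acl K F := fun i hi => hsub (Or.inl (Or.inr ⟨i, hi, rfl⟩))
  have h4 : M i0 j0 ∈ acl K F := hsub (Or.inr (by simp))
  obtain ⟨h5, h6⟩ := hA (acl K F) h1 h2 h3 h4
  rintro a ⟨i, hi, l, hl, rfl⟩
  by_cases hi0 : i = i0
  · by_cases hl0 : l = j0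
    · rw [hi0, hl0]
      exact h4
    · rw [hi0]
      exact h5 l (Finset.mem_erase.2 ⟨hl0, hl⟩)
  · by_cases hl0 : l = j0
    · rw [hl0]
      exact h6 i (Finset.mem_erase.2 ⟨hi0, hi⟩)
    · exact h1 i (Finset.mem_erase.2 ⟨hi0, hi⟩) l (Finset.mem_erase.2 ⟨hl0, hl⟩)

theorem not_zs {M : α → β → Ω} {R : Finset α} {C : Finset β} {s : ℕ} (h : ¬ Zs s M R C) :
    ∃ R1 ⊆ R, ∃ C1 ⊆ C, R1.card = s ∧ C1.card = s ∧ pm M R1 C1 ≠ 0 := by
  unfold Zs at h
  push Not at h
  exact h

theorem u_rec : U_Rec := by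
  intro K _ N s h2s hsN hS hS1 hS2 Ω _ _ α β _ _ M R C hR hC hZ e he
  obtain ⟨i0, hi0⟩ : R.Nonempty := Finset.card_pos.1 (by omega)
  obtain ⟨j0, hj0⟩ : C.Nonempty := Finset.card_pos.1 (by omega)
  have hR' : (R.erase i0).card = N - 1 := by rw [Finset.card_erase_of_mem hi0, hR]
  have hC' : (C.erase j0).card = N - 1 := by rw [Finset.card_erase_of_mem hj0, hC]
  have hZ' : Zs s M (R.erase i0) (C.erase j0) :=
    hZ.mono (Finset.erase_subset _ _) (Finset.erase_subset _ _)
  obtain ⟨m, rfl⟩ : ∃ m, N = m + 2 + s := ⟨N - 2 - s, by omega⟩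
  have hN1 : m + 2 + s - 1 = m + 1 + s := by omega
  rw [hN1] at hR' hC' hS hS1 hS2
  -- vanishing of the subpermanents with the row `i0` and the column `l`
  have hrow : ∀ R1 ⊆ R, ∀ C1 ⊆ C, R1.card = s → C1.card = s → pm M R1 C1 = 0 := hZ
  by_cases hZ1 : Zs (s - 1) M (R.erase i0) (C.erase j0)
  · by_cases hZ2 : Zs (s - 2) M (R.erase i0) (C.erase j0)
    · -- case (c)
      have h3 : 3 ≤ s := by
        by_contra hlt
        have hs2 : s = 2 := by omega
        subst hs2
        have := hZ2 ∅ (by simp) ∅ (by simp) (by simp) (by simp)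
        rw [pm_empty] at this
        exact one_ne_zero this
      obtain ⟨s', rfl⟩ : ∃ s', s = s' + 2 := ⟨s - 2, by omega⟩
      have hs' : s' + 2 - 2 = s' := by omega
      rw [hs'] at hS2 hZ2
      have hle : ∃ e', e' + 4 * (m + 1 + (s' + 2)) = (m + 1 + (s' + 2)) * (m + 1 + (s' + 2)) +
          2 * s' + 2 := by
        refine ⟨(m + 1 + s') * (m + 1 + s') - 4 + 2 * s' + 2, ?_⟩
        have : 4 ≤ (m + 1 + s') * (m + 1 + s') := by nlinarith
        zify [this]
        ring
      obtain ⟨e', he'⟩ := hle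
      have h4 := hS2 h3 Ω α β M _ _ hR' hC' hZ2 e' he'
      have h5 := assemble (A := C.erase j0) (B := R.erase i0) h4
        (fun L _ h2 h3 _ => ⟨h2, h3⟩)
      refine h5.mono (subset_acl _) ?_
      rw [hR', hC']
      nlinarith
    · -- case (b)
      obtain ⟨R1, hR1, C1, hC1, hR1c, hC1c, hne⟩ := not_zs hZ2
      obtain ⟨s', rfl⟩ : ∃ s', s = s' + 2 := ⟨s - 2, by omega⟩
      have hs' : s' + 2 - 2 = s' := by omega
      have hs'' : s' + 2 - 1 = s' + 1 := by omega
      rw [hs'] at hR1c hC1c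
      rw [hs''] at hZ1 hS1
      have hi0R1 : i0 ∉ R1 := fun h => by simpa using hR1 h
      have hj0C1 : j0 ∉ C1 := fun h => by simpa using hC1 h
      have hle : ∃ e', e' + 4 * (m + 1 + (s' + 2)) = (m + 1 + (s' + 2)) * (m + 1 + (s' + 2)) +
          2 * (s' + 1) + 2 := by
        refine ⟨(m + 1 + s') * (m + 1 + s') + 2 * s', ?_⟩
        ring
      obtain ⟨e', he'⟩ := hle
      have h4 := hS1 Ω α β M _ _ hR' hC' hZ1 e' he'
      by_cases hex : ∃ i ∈ R.erase i0, i ∉ R1 ∧ pm M (insert i R1) (insert j0 C1) ≠ 0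
      · obtain ⟨i, hi, hiR1, hne'⟩ := hex
        have h5 := assemble (A := C1) (B := R.erase i0) h4 (fun L h1 h2 h3 h4 => by
          refine ⟨fun l hl => ?_, h3⟩
          by_cases hl1 : l ∈ C1
          · exact h2 l hl1
          · have hlj : l ≠ j0 := (Finset.mem_erase.1 hl).1
            have hii0 : i ≠ i0 := (Finset.mem_erase.1 hi).1
            have hA1 : i0 ∉ insert i R1 := by
              rw [Finset.mem_insert]
              rintro (h | h)
              · exact hii0 h.symm
              · exact hi0R1 h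
            have hA2 : l ∉ insert j0 C1 := by
              rw [Finset.mem_insert]
              rintro (h | h)
              · exact hlj h
              · exact hl1 h
            refine row_mem hA1 hA2 (hrow _ ?_ _ ?_ ?_ ?_) hne' ?_ ?_
            · rw [Finset.insert_subset_iff, Finset.insert_subset_iff]
              exact ⟨hi0, Finset.mem_of_mem_erase hi, hR1.trans (Finset.erase_subset _ _)⟩
            · rw [Finset.insert_subset_iff, Finset.insert_subset_iff]
              exact ⟨Finset.mem_of_mem_erase hl, hj0, hC1.trans (Finset.erase_subset _ _)⟩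
            · rw [Finset.card_insert_of_notMem hA1, Finset.card_insert_of_notMem hiR1, hR1c]
            · rw [Finset.card_insert_of_notMem hA2, Finset.card_insert_of_notMem hj0C1, hC1c]
            · intro a ha b hb
              have ha' : a ∈ R.erase i0 := by
                rcases Finset.mem_insert.1 ha with rfl | ha
                · exact hi
                · exact hR1 ha
              rcases Finset.mem_insert.1 hb with rfl | hb
              · exact h1 a ha' _ hl
              · rcases Finset.mem_insert.1 hb with rfl | hb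
                · exact h3 a ha'
                · exact h1 a ha' _ (hC1 hb)
            · intro b hb
              rcases Finset.mem_insert.1 hb with rfl | hb
              · exact h4
              · exact h2 b hb)
        refine h5.mono (subset_acl _) ?_
        rw [hR', hC1c]
        nlinarith
      · push Not at hex
        have h5 := assemble (A := C.erase j0) (B := R1) h4 (fun L h1 h2 h3 h4 => by
          refine ⟨h2, fun i hi => ?_⟩
          by_cases hi1 : i ∈ R1
          · exact h3 i hi1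
          · refine col_mem hi1 hj0C1 (hex i hi hi1) hne ?_ h3
            intro a ha b hb
            rcases Finset.mem_insert.1 ha with rfl | ha
            · exact h1 _ hi b (hC1 hb)
            · exact h1 a (hR1 ha) b (hC1 hb))
        refine h5.mono (subset_acl _) ?_
        rw [hC', hR1c]
        nlinarith
  · -- case (a)
    obtain ⟨R1, hR1, C1, hC1, hR1c, hC1c, hne⟩ := not_zs hZ1
    have hi0R1 : i0 ∉ R1 := fun h => by simpa using hR1 h
    have hj0C1 : j0 ∉ C1 := fun h => by simpa using hC1 h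
    obtain ⟨s', rfl⟩ : ∃ s', s = s' + 2 := ⟨s - 2, by omega⟩
    have hs'' : s' + 2 - 1 = s' + 1 := by omega
    rw [hs''] at hR1c hC1c
    have hle : ∃ e', e' + 4 * (m + 1 + (s' + 2)) = (m + 1 + (s' + 2)) * (m + 1 + (s' + 2)) +
        2 * (s' + 2) + 2 := by
      refine ⟨(m + 1 + s') * (m + 1 + s') + 2 * s' + 2, ?_⟩
      ring
    obtain ⟨e', he'⟩ := hle
    have h4 := hS Ω α β M _ _ hR' hC' hZ' e' he'
    have h5 := assemble (A := C1) (B := R1) h4 (fun L h1 h2 h3 h4 => by
      constructor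
      · intro l hl
        by_cases hl1 : l ∈ C1
        · exact h2 l hl1
        · refine row_mem hi0R1 hl1 (hrow _ ?_ _ ?_ ?_ ?_) hne ?_ h2
          · rw [Finset.insert_subset_iff]
            exact ⟨hi0, hR1.trans (Finset.erase_subset _ _)⟩
          · rw [Finset.insert_subset_iff]
            exact ⟨Finset.mem_of_mem_erase hl, hC1.trans (Finset.erase_subset _ _)⟩
          · rw [Finset.card_insert_of_notMem hi0R1, hR1c]
          · rw [Finset.card_insert_of_notMem hl1, hC1c]
          · intro a ha b hb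
            rcases Finset.mem_insert.1 hb with rfl | hb
            · exact h1 a (hR1 ha) _ hl
            · exact h1 a (hR1 ha) b (hC1 hb)
      · intro i hi
        by_cases hi1 : i ∈ R1
        · exact h3 i hi1
        · refine col_mem hi1 hj0C1 (hrow _ ?_ _ ?_ ?_ ?_) hne ?_ h3
          · rw [Finset.insert_subset_iff]
            exact ⟨Finset.mem_of_mem_erase hi, hR1.trans (Finset.erase_subset _ _)⟩
          · rw [Finset.insert_subset_iff]
            exact ⟨hj0, hC1.trans (Finset.erase_subset _ _)⟩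
          · rw [Finset.card_insert_of_notMem hi1, hR1c]
          · rw [Finset.card_insert_of_notMem hj0C1, hC1c]
          · intro a ha b hb
            rcases Finset.mem_insert.1 ha with rfl | ha
            · exact h1 _ hi b (hC1 hb)
            · exact h1 a (hR1 ha) b (hC1 hb))
    refine h5.mono (subset_acl _) ?_
    rw [hC1c, hR1c]
    nlinarith

end Pool.Agent.HS38.PX
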