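import Pool.Agent.HS38.PX.Main

/-!
# Polynomials with top form `per_n`, consequences, upper bounds
-/

set_option autoImplicit false

namespace Pool.Agent.HS38.PX

open MvPolynomial Matrix

variable {K : Type} [Field K] {n : ℕ}

theorem aeval_scale {σ A : Type} [CommRing A] [Algebra K A] (t : A) (v : σ → A)
    {q : MvPolynomial σ K} {k : ℕ} (hq : q.IsHomogeneous k) :
    aeval (fun x => t * v x) q = t ^ k * aeval v q := by
  rw [aeval_def, aeval_def, eval₂_eq, eval₂_eq, Finset.mul_sum]
  refine Finset.sum_congr rfl fun s hs => ?_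
  have h1 : Finsupp.weight 1 s = k := hq (mem_support_iff.1 hs)
  have h2 : ∑ i ∈ s.support, s i = k := by
    rw [← h1, Finsupp.weight_apply, Finsupp.sum]
    simp
  have h3 : ∏ i ∈ s.support, (t * v i) ^ s i = t ^ k * ∏ i ∈ s.support, v i ^ s i := by
    rw [← h2, ← Finset.prod_pow_eq_pow_sum, ← Finset.prod_mul_distrib]
    exact Finset.prod_congr rfl fun i _ => mul_pow _ _ _
  rw [h3]
  ring

theorem aeval_scaleX {σ Ω : Type} [Field Ω] [Algebra K Ω] (v : σ → Ω)
    {q : MvPolynomial σ K} {k : ℕ} (hq : q.IsHomogeneous k) :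
    aeval (fun x => Polynomial.X * Polynomial.C (v x)) q =
      Polynomial.X ^ k * Polynomial.C (aeval v q) := by
  rw [aeval_scale Polynomial.X (fun x => Polynomial.C (v x)) hq]
  congr 1
  exact aeval_algebraMap_apply (Polynomial Ω) v q

theorem gp_hom : (PL.gp K n).IsHomogeneous n := by
  rw [PL.gp_eq]
  apply IsHomogeneous.sum
  intro σ _
  have := IsHomogeneous.prod (R := K) Finset.univ
    (fun l : Fin n => (X (σ l, l) : MvPolynomial (Fin n × Fin n) K))
    (fun _ => 1) (fun l _ => isHomogeneous_X K _)
  simpa using this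

/-- limit points of the critical locus of `per_n + R` -/
theorem limit_point {Ω : Type} [Field Ω] [Algebra K Ω] (v : Fin n × Fin n → Ω)
    {R : MvPolynomial (Fin n × Fin n) K} (hR : R.totalDegree < n)
    (hv : ∀ x, aeval v (pderiv x (PL.gp K n + R)) = 0) :
    ∃ (Ω' : Type) (_ : Field Ω') (_ : Algebra K Ω') (u : Fin n × Fin n → Ω'),
      (∀ x, aeval u (pderiv x (PL.gp K n)) = 0) ∧
      ∀ e, Dm K (Set.range u) e → Dm K (Set.range v) e := by
  obtain ⟨Ω', _, _, u, hu, hdm⟩ := u_lim K Ω (Fin n × Fin n) v
    (fun x => Polynomial.X * Polynomial.C (v x)) (fun i => by simp)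
  refine ⟨Ω', inferInstance, inferInstance, u, fun x => ?_, hdm⟩
  have hsum : ∑ k ∈ Finset.range n, homogeneousComponent k R = R := by
    conv_rhs => rw [← sum_homogeneousComponent R]
    refine (Finset.sum_subset (Finset.range_mono (by omega)) ?_).symm
    intro k _ hk
    rw [Finset.mem_range, not_lt] at hk
    exact homogeneousComponent_eq_zero _ _ (by omega)
  have hcomp : ∀ {A : Type} [CommRing A] [Algebra K A] (w : Option (Fin n × Fin n) → A)
      (q : MvPolynomial (Fin n × Fin n) K),
      aeval w (rename some q) = aeval (fun x => w (some x)) q := by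
    intro A _ _ w q
    rw [aeval_rename]
    rfl
  have hder : (pderiv x (PL.gp K n)).IsHomogeneous (n - 1) := gp_hom.pderiv
  have h1 := hu (rename some (pderiv x (PL.gp K n)) + ∑ k ∈ Finset.range n,
    X none ^ (n - k) * rename some (pderiv x (homogeneousComponent k R))) ?_
  · rw [map_add, map_sum, hcomp] at h1
    have h2 : ∑ k ∈ Finset.range n, aeval (fun o : Option (Fin n × Fin n) => o.elim (0 : Ω') u)
        (X none ^ (n - k) * rename some (pderiv x (homogeneousComponent k R))) = 0 := by
      refine Finset.sum_eq_zero fun k hk => ?_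
      rw [map_mul, map_pow, aeval_X]
      have h3 : n - k ≠ 0 := by
        have := Finset.mem_range.1 hk
        omega
      rw [Option.elim_none, zero_pow h3, zero_mul]
    rw [h2, add_zero] at h1
    exact h1
  · rw [map_add, map_sum, hcomp]
    have h4 : ∀ k ∈ Finset.range n, aeval (fun o : Option (Fin n × Fin n) =>
        o.elim Polynomial.X (fun x => Polynomial.X * Polynomial.C (v x)))
        (X none ^ (n - k) * rename some (pderiv x (homogeneousComponent k R))) =
        Polynomial.X ^ (n - 1) * Polynomial.C (aeval v (pderiv x (homogeneousComponent k R))) := by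
      intro k hk
      rw [map_mul, map_pow, aeval_X, hcomp, Option.elim_none]
      have h5 : (fun x : Fin n × Fin n => (some x : Option (Fin n × Fin n)).elim Polynomial.X
          (fun x => Polynomial.X * Polynomial.C (v x))) =
          fun x => Polynomial.X * Polynomial.C (v x) := rfl
      rw [h5]
      have h6 : (pderiv x (homogeneousComponent k R)).IsHomogeneous (k - 1) :=
        (homogeneousComponent_isHomogeneous k R).pderiv
      rw [aeval_scaleX v h6, ← mul_assoc, ← pow_add]
      rcases Nat.eq_zero_or_pos k with h0 | h0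
      · subst h0
        have h7 : pderiv x (homogeneousComponent 0 R) = 0 := by
          rw [homogeneousComponent_zero, pderiv_C]
        rw [h7, map_zero, map_zero, mul_zero, mul_zero]
      · congr 2
        have := Finset.mem_range.1 hk
        omega
    rw [Finset.sum_congr rfl h4, ← Finset.mul_sum, ← map_sum, ← map_sum, ← map_sum, hsum]
    have h5 : (fun x : Fin n × Fin n => (some x : Option (Fin n × Fin n)).elim Polynomial.X
        (fun x => Polynomial.X * Polynomial.C (v x))) =
        fun x => Polynomial.X * Polynomial.C (v x) := rfl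
    rw [h5, aeval_scaleX v hder, ← mul_add, ← map_add, ← map_add, ← map_add, hv, map_zero,
      mul_zero]

/-- The critical locus of a polynomial with top form `per_n` has codimension at least `2 n`. -/
theorem height_robust (h2 : (2 : K) ≠ 0) (hn : 2 ≤ n) {f : MvPolynomial (Fin n × Fin n) K}
    (hf : (f - PL.gp K n).totalDegree < n) :
    ((2 * n : ℕ) : ℕ∞) ≤ (Ideal.span (Set.range fun x => pderiv x f)).height := by
  rw [Ideal.height_eq_inf_minimalPrimes]
  refine le_iInf₂ fun P hP => ?_
  by_contra hlt
  rw [not_le] at hlt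
  have hPp : P.IsPrime := hP.1.1
  have hh : P.height ≤ ((2 * n - 1 : ℕ) : ℕ∞) := by
    have h3 : ((2 * n : ℕ) : ℕ∞) = ((2 * n - 1 : ℕ) : ℕ∞) + 1 := by
      have : 2 * n = 2 * n - 1 + 1 := by omega
      rw [this]
      push_cast
      rfl
    rw [h3] at hlt
    exact Order.le_of_lt_add_one hlt
  have h4 := PL.card_le_td P _ hh
  rw [Fintype.card_prod, Fintype.card_fin] at h4
  let Ω' := FractionRing (MvPolynomial (Fin n × Fin n) K ⧸ P)
  let j : MvPolynomial (Fin n × Fin n) K →ₐ[K] Ω' :=
    (IsScalarTower.toAlgHom K (MvPolynomial (Fin n × Fin n) K ⧸ P) Ω').comp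
      (Ideal.Quotient.mkₐ K P)
  let v : Fin n × Fin n → Ω' := fun x => j (X x)
  have hj0 : ∀ g, j g = 0 ↔ g ∈ P := by
    intro g
    have h1 : j g = algebraMap (MvPolynomial (Fin n × Fin n) K ⧸ P) Ω'
      (Ideal.Quotient.mk P g) := rfl
    rw [h1, IsFractionRing.to_map_eq_zero_iff, Ideal.Quotient.eq_zero_iff_mem]
  have hj : j = aeval v := by
    apply MvPolynomial.algHom_ext
    intro o
    rw [aeval_X]
  have hv : ∀ x, aeval v (pderiv x (PL.gp K n + (f - PL.gp K n))) = 0 := by
    intro x
    rw [add_sub_cancel, ← hj]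
    exact (hj0 _).2 (hP.1.2 (Ideal.subset_span ⟨x, rfl⟩))
  obtain ⟨Ω₁, _, _, u, hu, hdm⟩ := limit_point v hf hv
  have hZ : Zs (n - 1) (fun i l => u (i, l)) (Finset.univ : Finset (Fin n))
      (Finset.univ : Finset (Fin n)) := by
    intro R' _ C' _ hR' hC'
    have h1 : ∀ R : Finset (Fin n), R.card = n - 1 → ∃ i, R = Finset.univ.erase i := by
      intro R hR
      have h2 : Rᶜ.card = 1 := by
        rw [Finset.card_compl, hR, Fintype.card_fin]
        omega
      obtain ⟨i, hi⟩ := Finset.card_eq_one.1 h2
      refine ⟨i, ?_⟩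
      rw [← compl_compl R, hi]
      ext a
      simp
    obtain ⟨i, rfl⟩ := h1 R' hR'
    obtain ⟨l, rfl⟩ := h1 C' hC'
    have h5 : pderiv (i, l) (PL.gp K n) = pm (gm K n) (Finset.univ.erase i)
      (Finset.univ.erase l) := pderiv_per (i, l)
    have h6 := hu (i, l)
    rw [h5] at h6
    have h7 : pm (fun a b => aeval u (gm K n a b)) (Finset.univ.erase i) (Finset.univ.erase l) =
        aeval u (pm (gm K n) (Finset.univ.erase i) (Finset.univ.erase l)) :=
      pm_map (aeval u : MvPolynomial (Fin n × Fin n) K →ₐ[K] Ω₁).toRingHom _ _ _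
    rw [← h6, ← h7]
    refine pm_congr fun a _ b _ => ?_
    exact (aeval_X u (a, b)).symm
  have h7 := sn K h2 n (n - 1) (by omega) (by omega) Ω₁ (Fin n) (Fin n) (fun i l => u (i, l))
    Finset.univ Finset.univ (by simp) (by simp) hZ (n * n - 2 * n) (by
      obtain ⟨m, rfl⟩ : ∃ m, n = m + 2 := ⟨n - 2, by omega⟩
      have : 2 * (m + 2) ≤ (m + 2) * (m + 2) := by nlinarith
      have h8 : m + 2 - 1 = m + 1 := by omega
      rw [h8]
      zify [this]
      ring)
  have h8 : Dm K (Set.range u) (n * n - 2 * n) := by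
    refine h7.mono ?_ le_rfl
    rintro _ ⟨x, rfl⟩
    exact subset_acl _ ⟨x.1, Finset.mem_univ _, x.2, Finset.mem_univ _, rfl⟩
  have h9 := hdm _ h8
  rw [← u_td, ← hj] at h9
  have h10 : RingHom.ker j = P := by
    ext g
    exact hj0 g
  rw [h10] at h9
  have : 2 * n ≤ n * n := by nlinarith
  omega

/-- derivatives of a composition -/
theorem pderiv_comp_mem {σ : Type} {r : ℕ} (g : Fin r → MvPolynomial σ K)
    (F : MvPolynomial (Fin r) K) (hF : ∀ i, coeff (Finsupp.single i 1) F = 0) (x : σ) :
    pderiv x (aeval g F) ∈ Ideal.span (Set.range g) := by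
  classical
  have hg : ∀ i, g i ∈ Ideal.span (Set.range g) := fun i => Ideal.subset_span ⟨i, rfl⟩
  rw [F.as_sum, map_sum, map_sum]
  refine Ideal.sum_mem _ fun s hs => ?_
  by_cases h0 : s = 0
  · subst h0
    rw [monomial_zero', aeval_C, algebraMap_eq, pderiv_C]
    exact Ideal.zero_mem _
  obtain ⟨i, hi⟩ : ∃ i, s i ≠ 0 := by
    by_contra h
    push Not at h
    exact h0 (Finsupp.ext h)
  obtain ⟨t, rfl⟩ : ∃ t, s = Finsupp.single i 1 + t :=
    ⟨s - Finsupp.single i 1, (add_tsub_cancel_of_le (Finsupp.single_le_iff.2 (by omega))).symm⟩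
  obtain ⟨j, hj⟩ : ∃ j, t j ≠ 0 := by
    by_contra h
    push Not at h
    have : t = 0 := Finsupp.ext h
    subst this
    rw [add_zero] at hs
    exact mem_support_iff.1 hs (hF i)
  obtain ⟨w, rfl⟩ : ∃ w, t = Finsupp.single j 1 + w :=
    ⟨t - Finsupp.single j 1, (add_tsub_cancel_of_le (Finsupp.single_le_iff.2 (by omega))).symm⟩
  have h1 : ∀ c : K, (monomial (Finsupp.single i 1 + (Finsupp.single j 1 + w)) c :
      MvPolynomial (Fin r) K) = X i * (X j * monomial w c) := by
    intro c
    rw [X, X, monomial_mul, monomial_mul, one_mul, one_mul]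
  have h2 : ∀ c : K, aeval g (monomial (Finsupp.single i 1 + (Finsupp.single j 1 + w)) c :
      MvPolynomial (Fin r) K) = g i * (g j * aeval g (monomial w c : MvPolynomial (Fin r) K)) := by
    intro c
    rw [h1, map_mul, map_mul, aeval_X, aeval_X]
  rw [h2]
  exact PL.pderiv_mem (hg i) (hg j) x

theorem height_span_le {σ : Type} [Finite σ] {r : ℕ} (g : Fin r → MvPolynomial σ K)
    (hg : Ideal.span (Set.range g) ≠ ⊤) : (Ideal.span (Set.range g)).height ≤ r := by
  have h3 := Ideal.height_le_spanFinrank _ hg
  refine h3.trans (Nat.cast_le.2 ?_)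
  refine (Submodule.spanFinrank_span_le_ncard_of_finite (Set.finite_range g)).trans ?_
  have h5 := Set.ncard_image_le (f := g) (Set.finite_univ (α := Fin r))
  rw [Set.image_univ, Set.ncard_univ, Nat.card_eq_fintype_card, Fintype.card_fin] at h5
  exact h5

/-- polynomials with top form `per_n` are not polynomials without linear terms in fewer than `2 n`
polynomials with a common zero -/
theorem card_robust (h2 : (2 : K) ≠ 0) (hn : 2 ≤ n) {f : MvPolynomial (Fin n × Fin n) K}
    (hf : (f - PL.gp K n).totalDegree < n) {r : ℕ} (g : Fin r → MvPolynomial (Fin n × Fin n) K)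
    (hg : Ideal.span (Set.range g) ≠ ⊤) (F : MvPolynomial (Fin r) K)
    (hF : ∀ i, coeff (Finsupp.single i 1) F = 0) (h : aeval g F = f) : 2 * n ≤ r := by
  have hle : Ideal.span (Set.range fun x => pderiv x f) ≤ Ideal.span (Set.range g) := by
    rw [Ideal.span_le]
    rintro _ ⟨x, rfl⟩
    rw [← h]
    exact pderiv_comp_mem g F hF x
  have h6 := (height_robust h2 hn hf).trans ((Ideal.height_mono hle).trans (height_span_le g hg))
  exact_mod_cast h6

/-- forms of lower degree -/
theorem card_forms (h2 : (2 : K) ≠ 0) (hn : 2 ≤ n) {r : ℕ}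
    (g : Fin r → MvPolynomial (Fin n × Fin n) K) (d : Fin r → ℕ)
    (hg : ∀ i, (g i).IsHomogeneous (d i)) (h0 : ∀ i, 0 < d i) (h1 : ∀ i, d i < n)
    (F : MvPolynomial (Fin r) K) (hF : aeval g F = PL.gp K n) : 2 * n ≤ r := by
  classical
  have hG : aeval g (weightedHomogeneousComponent d n F) = PL.gp K n := by
    rw [← PL.aeval_weightedHomogeneousComponent g d hg, hF,
      homogeneousComponent_of_mem ((mem_homogeneousSubmodule _ _).2 gp_hom), if_pos rfl]
  refine card_robust h2 hn (f := PL.gp K n) (by rw [sub_self, totalDegree_zero]; omega) g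
    (PL.span_ne_top g fun i => by
      rw [constantCoeff_eq]
      exact (hg i).coeff_eq_zero (by simp; exact (h0 i).ne)) _ ?_ hG
  intro i
  rw [coeff_weightedHomogeneousComponent, if_neg]
  rw [Finsupp.weight_single, one_smul]
  exact (h1 i).ne

/-- the number of products in a cut -/
theorem card_cut (h2 : (2 : K) ≠ 0) (hn : 2 ≤ n) {f : MvPolynomial (Fin n × Fin n) K}
    (hf : (f - PL.gp K n).totalDegree < n) {m k : ℕ} (hk : 0 < k) (hkn : k < n)
    (g h : Fin m → MvPolynomial (Fin n × Fin n) K)
    (hg : ∀ i, (g i).totalDegree ≤ k) (hh : ∀ i, (h i).totalDegree ≤ n - k)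
    (hsum : ∑ i, g i * h i = f) : n ≤ m := by
  classical
  set g' : Fin m → MvPolynomial (Fin n × Fin n) K := fun i => g i - C (constantCoeff (g i)) with hg'
  set h' : Fin m → MvPolynomial (Fin n × Fin n) K := fun i => h i - C (constantCoeff (h i)) with hh'
  set f' : MvPolynomial (Fin n × Fin n) K := ∑ i, g' i * h' i with hf'
  have h3 : f - f' = ∑ i, (C (constantCoeff (g i)) * h i + C (constantCoeff (h i)) * g i -
      C (constantCoeff (g i)) * C (constantCoeff (h i))) := by
    rw [← hsum, hf', ← Finset.sum_sub_distrib]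
    refine Finset.sum_congr rfl fun i _ => ?_
    simp only [hg', hh']
    ring
  have h4 : (f - f').totalDegree < n := by
    rw [h3]
    refine lt_of_le_of_lt (totalDegree_finsetSum_le (d := n - 1) fun i _ => ?_) (by omega)
    refine (totalDegree_sub _ _).trans (max_le ((totalDegree_add _ _).trans (max_le ?_ ?_)) ?_)
    · refine (totalDegree_mul _ _).trans ?_
      rw [totalDegree_C]
      have := hh i
      omega
    · refine (totalDegree_mul _ _).trans ?_
      rw [totalDegree_C]
      have := hg i
      omega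
    · rw [← C_mul, totalDegree_C]
      omega
  have h5 : (f' - PL.gp K n).totalDegree < n := by
    have h6 : f' - PL.gp K n = (f - PL.gp K n) - (f - f') := by ring
    rw [h6]
    exact lt_of_le_of_lt (totalDegree_sub _ _) (max_lt hf h4)
  have h7 := card_robust h2 hn h5 (r := m + m) (Fin.append g' h')
    (PL.span_ne_top _ fun i => by
      refine Fin.addCases (fun i => ?_) (fun i => ?_) i
      · rw [Fin.append_left]
        simp only [hg', map_sub, constantCoeff_C, sub_self]
      · rw [Fin.append_right]
        simp only [hh', map_sub, constantCoeff_C, sub_self])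
    (∑ i : Fin m, X (Fin.castAdd m i) * X (Fin.natAdd m i)) ?_ ?_
  · omega
  · intro j
    rw [coeff_sum]
    refine Finset.sum_eq_zero fun i _ => ?_
    have h8 : (X (Fin.castAdd m i) * X (Fin.natAdd m i) : MvPolynomial (Fin (m + m)) K) =
        monomial (Finsupp.single (Fin.castAdd m i) 1 + Finsupp.single (Fin.natAdd m i) 1) 1 := by
      rw [X, X, monomial_mul, one_mul]
    rw [h8, coeff_monomial, if_neg]
    intro h9
    have h10 := congrArg Finsupp.degree h9
    rw [map_add, Finsupp.degree_single, Finsupp.degree_single,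
      Finsupp.degree_single] at h10
    omega
  · rw [map_sum, hf']
    refine Finset.sum_congr rfl fun i _ => ?_
    rw [map_mul, aeval_X, aeval_X, Fin.append_left, Fin.append_right]

end Pool.Agent.HS38.PX
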