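import Pool.Agent.HS38.PX.U2

/-!
# Lower order terms and specialization `ε → 0`
-/

set_option autoImplicit false

namespace Pool.Agent.HS38.PX

open MvPolynomial AlgebraicIndependent

theorem v_top : V_Top := by
  intro K _ σ _ H R n e hH hR hS Ω _ _ v hv
  obtain ⟨Ω', _, _, u, hu, hdm⟩ := u_lim K Ω σ v
    (fun x => Polynomial.X * Polynomial.C (v x)) (fun i => by simp)
  refine hdm e (hS Ω' u fun x => ?_)
  have hsum : ∑ k ∈ Finset.range n, homogeneousComponent k R = R := by
    conv_rhs => rw [← sum_homogeneousComponent R]
    refine (Finset.sum_subset (Finset.range_mono (by omega)) ?_).symm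
    intro k _ hk
    rw [Finset.mem_range, not_lt] at hk
    exact homogeneousComponent_eq_zero _ _ (by omega)
  have hcomp : ∀ {A : Type} [CommRing A] [Algebra K A] (w : Option σ → A)
      (q : MvPolynomial σ K),
      aeval w (rename some q) = aeval (fun x => w (some x)) q := by
    intro A _ _ w q
    rw [aeval_rename]
    rfl
  have hder : (pderiv x H).IsHomogeneous (n - 1) := hH.pderiv
  have h1 := hu (rename some (pderiv x H) + ∑ k ∈ Finset.range n,
    X none ^ (n - k) * rename some (pderiv x (homogeneousComponent k R))) ?_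
  · rw [map_add, map_sum, hcomp] at h1
    have h2 : ∑ k ∈ Finset.range n, aeval (fun o : Option σ => o.elim (0 : Ω') u)
        (X none ^ (n - k) * rename some (pderiv x (homogeneousComponent k R))) = 0 := by
      refine Finset.sum_eq_zero fun k hk => ?_
      rw [map_mul, map_pow, aeval_X]
      have h3 : n - k ≠ 0 := by
        have := Finset.mem_range.1 hk
        omega
      rw [Option.elim_none, zero_pow h3, zero_mul]
    rw [h2, add_zero] at h1
    exact h1
  · rw [map_add, map_sum, hcomp]
    have h4 : ∀ k ∈ Finset.range n, aeval (fun o : Option σ =>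
        o.elim Polynomial.X (fun x => Polynomial.X * Polynomial.C (v x)))
        (X none ^ (n - k) * rename some (pderiv x (homogeneousComponent k R))) =
        Polynomial.X ^ (n - 1) * Polynomial.C (aeval v (pderiv x (homogeneousComponent k R))) := by
      intro k hk
      rw [map_mul, map_pow, aeval_X, hcomp, Option.elim_none]
      have h5 : (fun x : σ => (some x : Option σ).elim Polynomial.X
          (fun x => Polynomial.X * Polynomial.C (v x))) =
          fun x => Polynomial.X * Polynomial.C (v x) := rfl
      rw [h5]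
      have h6 : (pderiv x (homogeneousComponent k R)).IsHomogeneous (k - 1) :=
        (homogeneousComponent_isHomogeneous k R).pderiv
      rw [aeval_scaleX v h6, ← mul_assoc, ← pow_add]
      rcases Nat.eq_zero_or_pos k with h0 | h0
      · subst h0
        have h7 : pderiv x (homogeneousComponent 0 R) = 0 := by
          rw [homogeneousComponent_zero, pderiv_C]
        rw [h7, map_zero, map_zero, mul_zero, mul_zero]
      · congr 2
        have := Finset.mem_range.1 hk
        omega
    rw [Finset.sum_congr rfl h4, ← Finset.mul_sum, ← map_sum, ← map_sum, ← map_sum, hsum]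
    have h5 : (fun x : σ => (some x : Option σ).elim Polynomial.X
        (fun x => Polynomial.X * Polynomial.C (v x))) =
        fun x => Polynomial.X * Polynomial.C (v x) := rfl
    rw [h5, aeval_scaleX v hder, ← mul_add, ← map_add, ← map_add, ← map_add, hv, map_zero,
      mul_zero]

section spec

variable {k : Type} [Field k]

/-- clearing denominators -/
theorem exists_denominator {σ : Type} (H : MvPolynomial σ (RatFunc k)) (H0 : MvPolynomial σ k)
    (h : ∀ d, (H.coeff d).denom.eval 0 ≠ 0 ∧
      (H.coeff d).eval (RingHom.id k) 0 = H0.coeff d) :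
    ∃ (D : Polynomial k) (H' : MvPolynomial σ (Polynomial k)), D.eval 0 ≠ 0 ∧
      map (algebraMap (Polynomial k) (RatFunc k)) H' =
        C (algebraMap (Polynomial k) (RatFunc k) D) * H ∧
      map (Polynomial.evalRingHom (0 : k)) H' = C (D.eval 0) * H0 := by
  classical
  refine ⟨∏ d ∈ H.support, (H.coeff d).denom, ∑ d ∈ H.support, monomial d
    ((H.coeff d).num * ∏ d' ∈ H.support.erase d, (H.coeff d').denom), ?_, ?_, ?_⟩
  · rw [Polynomial.eval_prod]
    exact Finset.prod_ne_zero_iff.2 fun d _ => (h d).1
  · have h0 : ∀ c : RatFunc k, C c * H = ∑ d ∈ H.support, C c * monomial d (H.coeff d) :=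
      fun c => by rw [← Finset.mul_sum, ← H.as_sum]
    rw [map_sum, h0]
    refine Finset.sum_congr rfl fun d hd => ?_
    rw [map_monomial, C_mul_monomial]
    congr 1
    rw [← Finset.mul_prod_erase _ _ hd, map_mul, map_mul]
    have h1 : algebraMap (Polynomial k) (RatFunc k) (H.coeff d).denom * H.coeff d =
        algebraMap (Polynomial k) (RatFunc k) (H.coeff d).num := by
      have h2 : algebraMap (Polynomial k) (RatFunc k) (H.coeff d).denom ≠ 0 :=
        RatFunc.algebraMap_ne_zero (RatFunc.denom_ne_zero _)
      have h3 := RatFunc.num_div_denom (H.coeff d)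
      rw [div_eq_iff h2] at h3
      rw [h3, mul_comm]
    rw [← h1]
    ring
  · ext d
    rw [map_sum, coeff_sum, coeff_C_mul]
    have hval : ∀ d, (H.coeff d).num.eval 0 = (H.coeff d).denom.eval 0 * H0.coeff d := by
      intro d
      have h3 := (h d).2
      unfold RatFunc.eval at h3
      rw [Polynomial.eval₂_id, Polynomial.eval₂_id] at h3
      rw [← h3, mul_div_cancel₀ _ (h d).1]
    by_cases hd : d ∈ H.support
    · rw [Finset.sum_eq_single d]
      · rw [map_monomial, coeff_monomial, if_pos rfl, map_mul, Polynomial.coe_evalRingHom,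
          hval, ← Finset.mul_prod_erase _ _ hd, Polynomial.eval_mul]
        ring
      · intro d' _ hd'
        rw [map_monomial, coeff_monomial, if_neg hd']
      · intro hd'
        exact absurd hd hd'
    · rw [Finset.sum_eq_zero]
      · have h4 : H0.coeff d = 0 := by
          have h3 := (h d).2
          rw [notMem_support_iff.1 hd, RatFunc.eval_zero] at h3
          exact h3.symm
        rw [h4, mul_zero]
      · intro d' hd'
        rw [map_monomial, coeff_monomial, if_neg]
        rintro rfl
        exact hd hd'

/-- polynomials over `k[E]` as polynomials over `k` -/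
noncomputable def io (k σ : Type) [Field k] :
    MvPolynomial σ (Polynomial k) →+* MvPolynomial (Option σ) k :=
  eval₂Hom ((Polynomial.aeval (X none : MvPolynomial (Option σ) k)).toRingHom)
    (fun i => X (some i))

theorem aeval_io {σ A : Type} [CommRing A] [Algebra k A] (w : Option σ → A)
    (f : MvPolynomial σ (Polynomial k)) :
    aeval w (io k σ f) = eval₂ ((Polynomial.aeval (w none)).toRingHom : Polynomial k →+* A)
      (fun i => w (some i)) f := by
  have h1 : ((aeval w : MvPolynomial (Option σ) k →ₐ[k] A).toRingHom).comp (io k σ) =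
      eval₂Hom ((Polynomial.aeval (w none)).toRingHom : Polynomial k →+* A)
        (fun i => w (some i)) := by
    apply MvPolynomial.ringHom_ext
    · intro p
      simp only [io, AlgHom.toRingHom_eq_coe, RingHom.coe_comp, RingHom.coe_coe,
        Function.comp_apply, coe_eval₂Hom, eval₂_C]
      rw [← Polynomial.aeval_algHom_apply, aeval_X]
    · intro i
      simp only [io, AlgHom.toRingHom_eq_coe, RingHom.coe_comp, RingHom.coe_coe,
        Function.comp_apply, coe_eval₂Hom, eval₂_X, aeval_X]
  exact congrArg (fun g : MvPolynomial σ (Polynomial k) →+* A => g f) h1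

theorem dm_base {Ω : Type} [Field Ω] [Algebra (RatFunc k) Ω] [Algebra k Ω]
    [IsScalarTower k (RatFunc k) Ω] {E : Set Ω} {e : ℕ}
    (h : Dm k (insert (algebraMap (RatFunc k) Ω RatFunc.X) E) (e + 1)) :
    Dm (RatFunc k) E e := by
  obtain ⟨I, hI⟩ := (matroid (RatFunc k) Ω).exists_isBasis E
  have hIi : AlgebraicIndependent (RatFunc k) ((↑) : I → Ω) := hI.indep
  have hX : AlgebraicIndependent k (fun _ : Unit => (RatFunc.X : RatFunc k)) := by
    rw [algebraicIndependent_unique_type_iff]
    exact RatFunc.transcendental_X
  have h2 := AlgebraicIndependent.sumElim_comp hX hIi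
  have h3 := encard_le_of_indep h h2.to_subtype_range (by
    rintro _ ⟨x, rfl⟩
    refine subset_acl _ ?_
    rcases x with x | x
    · exact Or.inr (hI.subset x.2)
    · exact Or.inl rfl)
  have hinj := h2.injective
  rw [← Set.image_univ, hinj.encard_image, Set.encard_univ] at h3
  have h4 : ENat.card (I ⊕ Unit) = I.encard + 1 := by
    rw [ENat.card_sum, ENat.card_coe_set_eq]
    simp
  have h5 : I.encard + 1 ≤ ((e + 1 : ℕ) : ℕ∞) := h4 ▸ h3
  have hfin : I.Finite := Set.finite_of_encard_le_coe ((self_le_add_right _ _).trans h5)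
  rw [hfin.encard_eq_coe_toFinset_card] at h5
  have h6 : hfin.toFinset.card + 1 ≤ e + 1 := by exact_mod_cast h5
  rw [dm_iff, hI.eRk_eq_encard, hfin.encard_eq_coe_toFinset_card]
  have h7 : hfin.toFinset.card ≤ e := by omega
  exact_mod_cast h7

end spec

theorem v_spec : V_Spec := by
  intro k _ σ _ H H0 n e hn hH h hS Ω _ _ u hu
  let _ : Algebra k Ω := ((algebraMap (RatFunc k) Ω).comp (algebraMap k (RatFunc k))).toAlgebra
  have : IsScalarTower k (RatFunc k) Ω := IsScalarTower.of_algebraMap_eq' rfl
  obtain ⟨D, H', hD, hH1, hH2⟩ := exists_denominator H H0 h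
  set ε : Ω := algebraMap (RatFunc k) Ω RatFunc.X with hε
  have htr : Transcendental k ε :=
    (transcendental_algebraMap_iff (algebraMap (RatFunc k) Ω).injective).2
      RatFunc.transcendental_X
  let φ : MvPolynomial (Option σ) k →ₐ[k] Polynomial Ω :=
    aeval (fun o : Option σ => o.elim (Polynomial.C ε)
      (fun i => Polynomial.X * Polynomial.C (u i)))
  let ev : Ω → Polynomial Ω →ₐ[k] Ω := fun a =>
    (Polynomial.aeval a : Polynomial Ω →ₐ[Ω] Ω).restrictScalars k
  let P : Ideal (MvPolynomial (Option σ) k) := RingHom.ker φ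
  have hP : P.IsPrime := RingHom.ker_isPrime _
  let v1 : Option σ → Ω := fun o => o.elim ε u
  let P1 : Ideal (MvPolynomial (Option σ) k) :=
    RingHom.ker (aeval v1 : MvPolynomial (Option σ) k →ₐ[k] Ω)
  have hP1 : P1.IsPrime := RingHom.ker_isPrime _
  have hφ1 : (ev 1).comp φ = aeval v1 := by
    apply MvPolynomial.algHom_ext
    intro o
    cases o with
    | none => simp [φ, ev, v1]
    | some i => simp [φ, ev, v1]
  have hφ0 : (ev 0).comp φ = aeval (fun o : Option σ => o.elim ε 0) := by
    apply MvPolynomial.algHom_ext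
    intro o
    cases o with
    | none => simp [φ, ev]
    | some i => simp [φ, ev]
  have hle : P ≤ P1 := by
    intro g hg
    have h1 : φ g = 0 := hg
    have h2 : (ev 1) (φ g) = 0 := by rw [h1, map_zero]
    show aeval v1 g = 0
    rw [← hφ1]
    exact h2
  have h00 : ∀ g, φ g = 0 → aeval (fun _ : Option σ => (0 : k)) g = 0 := by
    intro g hg
    have h1 : aeval (fun o : Option σ => o.elim ε (0 : σ → Ω)) g = 0 := by
      have h2 : (ev 0) (φ g) = 0 := by rw [hg, map_zero]
      have h3 : (ev 0) (φ g) = ((ev 0).comp φ) g := rfl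
      rw [h3, hφ0] at h2
      exact h2
    have h4 : (Polynomial.aeval ε : Polynomial k →ₐ[k] Ω).comp
        (aeval (fun o : Option σ => o.elim (Polynomial.X : Polynomial k) 0)) =
        aeval (fun o : Option σ => o.elim ε (0 : σ → Ω)) := by
      apply MvPolynomial.algHom_ext
      intro o
      cases o with
      | none => simp
      | some i => simp
    rw [← h4] at h1
    have h5 : aeval (fun o : Option σ => o.elim (Polynomial.X : Polynomial k) 0) g = 0 :=
      (transcendental_iff.1 htr) _ h1
    have h6 : (Polynomial.aeval (0 : k) : Polynomial k →ₐ[k] k).comp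
        (aeval (fun o : Option σ => o.elim (Polynomial.X : Polynomial k) 0)) =
        aeval (fun _ : Option σ => (0 : k)) := by
      apply MvPolynomial.algHom_ext
      intro o
      cases o with
      | none => simp
      | some i => simp
    rw [← h6, AlgHom.comp_apply, h5, map_zero]
  have hne : P ⊔ Ideal.span {(X none : MvPolynomial (Option σ) k)} ≤
      RingHom.ker (aeval (fun _ : Option σ => (0 : k)) : MvPolynomial (Option σ) k →ₐ[k] k) := by
    refine sup_le (fun g hg => h00 g hg) ?_
    rw [Ideal.span_singleton_le_iff_mem]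
    show aeval (fun _ : Option σ => (0 : k)) (X none : MvPolynomial (Option σ) k) = 0
    simp
  have hker : (RingHom.ker (aeval (fun _ : Option σ => (0 : k)) :
    MvPolynomial (Option σ) k →ₐ[k] k)).IsPrime := RingHom.ker_isPrime _
  obtain ⟨Q, hQ, -⟩ := Ideal.exists_minimalPrimes_le hne
  have hQp : Q.IsPrime := hQ.1.1
  have h02 := PL.td_min k hQ
  have hPQ : P ≤ Q := le_sup_left.trans hQ.1.2
  have hXQ : (X none : MvPolynomial (Option σ) k) ∈ Q :=
    hQ.1.2 (Ideal.mem_sup_right (Ideal.mem_span_singleton_self _))
  let Ω' := FractionRing (MvPolynomial (Option σ) k ⧸ Q)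
  let j : MvPolynomial (Option σ) k →ₐ[k] Ω' :=
    (IsScalarTower.toAlgHom k (MvPolynomial (Option σ) k ⧸ Q) Ω').comp (Ideal.Quotient.mkₐ k Q)
  let u' : σ → Ω' := fun i => j (X (some i))
  have hj0 : ∀ g, j g = 0 ↔ g ∈ Q := by
    intro g
    have h1 : j g = algebraMap (MvPolynomial (Option σ) k ⧸ Q) Ω' (Ideal.Quotient.mk Q g) := rfl
    rw [h1, IsFractionRing.to_map_eq_zero_iff, Ideal.Quotient.eq_zero_iff_mem]
  have hj : j = aeval (fun o : Option σ => o.elim (0 : Ω') u') := by
    apply MvPolynomial.algHom_ext
    intro o
    cases o with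
    | none =>
      rw [aeval_X]
      exact (hj0 _).2 hXQ
    | some i =>
      rw [aeval_X]
      rfl
  -- the equations at the limit point
  have hu' : ∀ x, aeval u' (pderiv x H0) = 0 := by
    intro x
    have h1 : φ (io k σ (pderiv x H')) = 0 := by
      show aeval _ _ = 0
      rw [aeval_io]
      have h2 : ((Polynomial.aeval (Polynomial.C ε : Polynomial Ω)).toRingHom :
          Polynomial k →+* Polynomial Ω) =
          (algebraMap (RatFunc k) (Polynomial Ω)).comp
            (algebraMap (Polynomial k) (RatFunc k)) := by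
        apply Polynomial.ringHom_ext
        · intro a
          simp only [AlgHom.toRingHom_eq_coe, RingHom.coe_coe, Polynomial.aeval_C,
            RingHom.coe_comp, Function.comp_apply, RatFunc.algebraMap_C]
          rfl
        · simp only [AlgHom.toRingHom_eq_coe, RingHom.coe_coe, Polynomial.aeval_X,
            RingHom.coe_comp, Function.comp_apply, RatFunc.algebraMap_X]
          rfl
      rw [Option.elim_none, h2, ← eval₂_map, ← pderiv_map, hH1, pderiv_C_mul, eval₂_mul]
      have h3 : eval₂ (algebraMap (RatFunc k) (Polynomial Ω))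
          (fun i => (some i : Option σ).elim (Polynomial.C ε)
            (fun i => Polynomial.X * Polynomial.C (u i))) (pderiv x H) =
          aeval (fun i => Polynomial.X * Polynomial.C (u i)) (pderiv x H) := rfl
      rw [h3, aeval_scaleX u (hH.pderiv), hu, map_zero, mul_zero, mul_zero]
    have h4 : io k σ (pderiv x H') ∈ Q := hPQ h1
    have h5 := (hj0 _).2 h4
    rw [hj, aeval_io] at h5
    have h6 : ((Polynomial.aeval (0 : Ω')).toRingHom : Polynomial k →+* Ω') =
        (algebraMap k Ω').comp (Polynomial.evalRingHom (0 : k)) := by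
      apply Polynomial.ringHom_ext
      · intro a
        simp
      · simp
    rw [Option.elim_none, h6, ← eval₂_map, ← pderiv_map, hH2, pderiv_C_mul, eval₂_mul,
      eval₂_C] at h5
    rcases mul_eq_zero.1 h5 with h7 | h7
    · exact absurd ((map_eq_zero _).1 h7) hD
    · exact h7
  have h8 : Dm k (Set.range u') e := hS Ω' u' hu'
  have h9 : Dm k (Set.range (fun o : Option σ => o.elim (0 : Ω') u')) e := by
    refine h8.mono ?_ le_rfl
    rintro _ ⟨o, rfl⟩
    cases o with
    | none => exact zero_mem _
    | some i => exact subset_acl _ ⟨i, rfl⟩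
  rw [← u_td, ← hj] at h9
  have h10 : RingHom.ker j = Q := by
    ext g
    exact hj0 g
  rw [h10] at h9
  have h11 := PL.td_le k hle
  have h12 : PL.td k P1 ≤ e + 1 := by omega
  have h13 := (u_td k Ω (Option σ) v1 (e + 1)).1 h12
  refine dm_base (k := k) (h13.mono ?_ le_rfl)
  rintro a (rfl | ⟨i, rfl⟩)
  · exact subset_acl _ ⟨none, rfl⟩
  · exact subset_acl _ ⟨some i, rfl⟩

end Pool.Agent.HS38.PX
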