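import Mathlib

/-!
# Definitions: subpermanents, dimension of finite families over a field
-/

set_option autoImplicit false

namespace Pool.Agent.HS38.PX

open Finset

section pm

variable {α β A : Type} [DecidableEq α] [DecidableEq β] [CommRing A]

/-- the subpermanent of the rows `R` and the columns `C` (zero if the numbers differ) -/
def pm (M : α → β → A) (R : Finset α) (C : Finset β) : A :=
  ∑ e : (R ≃ C), ∏ i : R, M i (e i)

/-- all `s × s` subpermanents of the block `R × C` are zero -/
def Zs (s : ℕ) (M : α → β → A) (R : Finset α) (C : Finset β) : Prop :=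
  ∀ R' ⊆ R, ∀ C' ⊆ C, R'.card = s → C'.card = s → pm M R' C' = 0

/-- the entries of the block -/
def ent (M : α → β → A) (R : Finset α) (C : Finset β) : Set A :=
  {a | ∃ i ∈ R, ∃ l ∈ C, M i l = a}

end pm

section dm

variable (K : Type) {Ω : Type} [Field K] [Field Ω] [Algebra K Ω]

/-- the elements which are algebraic over `K(T)` -/
def acl (T : Set Ω) : IntermediateField K Ω :=
  (algebraicClosure (IntermediateField.adjoin K T) Ω).restrictScalars K

/-- the transcendence degree of `K(E)` over `K` is at most `n` -/
def Dm (E : Set Ω) (n : ℕ) : Prop :=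
  ∃ T : Finset Ω, T.card ≤ n ∧ E ⊆ acl K (T : Set Ω)

end dm

end Pool.Agent.HS38.PX
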