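import Pool.Agent.HS38.PX.Dm
import Pool.Agent.HS38.PX.Pm
import Pool.Agent.HS38.PL.Alg

/-!
# Statements of the pieces (exact codimension of the singular locus of the permanent)

`pm`, `Zs`, `ent`, `acl`, `Dm` are defined in `Stm.lean`; rules in `Dm.lean` and `Pm.lean`.
-/

set_option autoImplicit false

namespace Pool.Agent.HS38.PX

open Finset

/-- The main statement for `N` and `s`: the locus of the `N × N` matrices all of whose `s × s`
subpermanents vanish has dimension at most `N² - (4N - 2s - 2)`. -/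
def SN (K : Type) [Field K] (N s : ℕ) : Prop :=
  ∀ (Ω : Type) [Field Ω] [Algebra K Ω] (α β : Type) [DecidableEq α] [DecidableEq β]
    (M : α → β → Ω) (R : Finset α) (C : Finset β), R.card = N → C.card = N → Zs s M R C →
    ∀ e : ℕ, e + 4 * N = N * N + 2 * s + 2 → Dm K (ent M R C) e

/-- PIECE Rec (helper38): the induction step for `2 ≤ s ≤ N - 2`. Remove a row `i0` and a column
`j0`; `x l = M i0 l`, `c i = M i j0`.
(a) some `(s-1)`-subpermanent `(R1, C1)` of the rest is nonzero: expanding the `s`-subpermanents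
`(i0 R1, l C1)` along row `i0` determines `x l`, `l ∉ C1`; same for `c`.
(b) all `(s-1)`-subpermanents of the rest vanish, some `(s-2)`-subpermanent `(R1, C1)` does not.
(c) all `(s-2)`-subpermanents vanish. -/
def U_Rec : Prop := ∀ (K : Type) [Field K] (N s : ℕ), 2 ≤ s → s + 2 ≤ N →
  SN K (N - 1) s → SN K (N - 1) (s - 1) → (3 ≤ s → SN K (N - 1) (s - 2)) → SN K N s

/-- PIECE Td: link between `td` (HS38/PL/Alg.lean) and `Dm`. -/
def U_Td : Prop := ∀ (K : Type) [Field K] (Ω : Type) [Field Ω] [Algebra K Ω] (σ : Type)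
  [Fintype σ] (v : σ → Ω) (n : ℕ),
  PL.td K (RingHom.ker (MvPolynomial.aeval v : MvPolynomial σ K →ₐ[K] Ω)) ≤ n ↔
    Dm K (Set.range v) n

/-- PIECE Gen: adjoining generic elements `t` (take `Ω' = FractionRing (MvPolynomial β Ω)`). -/
def U_Gen : Prop := ∀ (K : Type) [Field K] (Ω : Type) [Field Ω] [Algebra K Ω] (β : Type),
  ∃ (Ω' : Type) (_ : Field Ω') (_ : Algebra K Ω') (f : Ω →ₐ[K] Ω') (t : β → Ω'),
    (∀ k, t k ≠ 0) ∧ ∀ (E : Set Ω) (S : Finset β) (e : ℕ), Dm K (f '' E ∪ t '' (S : Set β)) e →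
      S.card ≤ e ∧ Dm K E (e - S.card)

/-- PIECE Lim: degeneration. `P` = kernel of `aeval (Option.elim · X vw)`, `P1` = kernel at
`w = 1`, `P < P1`; `P ⊔ (X none) ≠ ⊤` (kernel at `w = 0`), `Q` a minimal prime over it,
`td P1 + 1 ≤ td P ≤ td Q + 1` (`PL.td_lt`, `PL.td_min`),
`Ω' = FractionRing (MvPolynomial (Option σ) K ⧸ Q)`, `u i` = class of `X (some i)`; `U_Td`. -/
def U_Lim : Prop := ∀ (K : Type) [Field K] (Ω : Type) [Field Ω] [Algebra K Ω] (σ : Type)
  [Fintype σ] (v : σ → Ω) (vw : σ → Polynomial Ω), (∀ i, (vw i).eval 1 = v i) →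
  ∃ (Ω' : Type) (_ : Field Ω') (_ : Algebra K Ω') (u : σ → Ω'),
    (∀ g : MvPolynomial (Option σ) K,
      MvPolynomial.aeval (fun o : Option σ => o.elim Polynomial.X vw) g = 0 →
        MvPolynomial.aeval (fun o : Option σ => o.elim (0 : Ω') u) g = 0) ∧
    ∀ e, Dm K (Set.range u) e → Dm K (Set.range v) e

/-- the subpermanent without the rows `i, i'` and the columns `l, l'` -/
def PP {α β A : Type} [DecidableEq α] [DecidableEq β] [CommRing A] (M : α → β → A)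
    (R : Finset α) (C : Finset β) (i i' : α) (l l' : β) : A :=
  pm M ((R.erase i).erase i') ((C.erase l).erase l')

/-- PIECE Torus. If `Zs (N-2) M R C` holds (then `N ≥ 3`, as the empty subpermanent is `1`),
`SN K N (N-2)` gives `Dm (ent M R C) (N² - 2N - 2)`, which suffices. Otherwise
`PP M R C i1 i2 l1 l2 ≠ 0` for some `i1 ≠ i2`, `l1 ≠ l2`. Adjoin generic `t` (`U_Gen`), let
`s l = t l` for `l ∈ S` and `1` else, and `M^ i l = f (M i l) * s l` over `Ω'`.
`Zs (N-1)` holds for `M^` (`pm_scale`, `pm_map`), so `Dm (ent M^ R C) (N² - 2N)` by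
`SN K N (N-1)`. With `P = f (PP M ..)` and `P^ = PP M^ ..` we have
`P^ i i' l l' = P i i' l l' * ∏ l'' ∈ (C.erase l).erase l', s l''`. The relations become, for
`(i, i') = (i1, i2)`:
(T1) `∑ l ∈ S, ∑ l' ∈ S.erase l, t l * t l' * P^ l l' = 0`, `P^ l1 l2 = P^ l2 l1 ≠ 0`, `2 ≠ 0`
  (lemma Quad): one `t l3` is algebraic over `ent M^` and the other `t`;
(T2) `∑ l' ∈ S.erase l, t l' * P^ l l' = 0` for all `l ∈ C`: one of `l1, l2` is in `S`, take for
  `l` the other one: one `t` is algebraic over `ent M^` and the other `t`;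
(T3) the same with `l = l1` and `l = l2`: `t l1` and `t l2` are algebraic over `ent M^` and the
  other `t`.
`ent (f M) R C ∪ t '' S ⊆ acl (ent M^ R C ∪ t '' S)`, hence
`Dm (f '' ent M R C ∪ t '' S) (N² - 2N + |S| - 1)` (resp. `- 2`), and `U_Gen` gives the claim
(with `S.card ≤ e` for the existence of `e`).

Lemma Quad (also for `LB'`): `y : ι → Ω`, `J` a finset, `a j j' = a j' j ∈ L`,
`∑ j ∈ J, ∑ j' ∈ J.erase j, y j * y j' * a j j' = 0`, `a j1 j2 ≠ 0` with `j1 ≠ j2 ∈ J`, `2 ≠ 0`.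
Then some `y j3` (`j3 = j1` or `j2`) is in every intermediate field which contains the `a j j'`
and the other `y j`. Proof: the sum is `2 * y j1 * l + r`, `l = ∑ j' ∈ J.erase j1, y j' * a j1 j'`,
`r` without `y j1`. If `l ≠ 0` take `j3 = j1`; if `l = 0` then `y j2` is determined by `l = 0`. -/
def U_Torus : Prop := ∀ (K : Type) [Field K], (2 : K) ≠ 0 → ∀ (Ω : Type) [Field Ω] [Algebra K Ω]
  (α β : Type) [DecidableEq α] [DecidableEq β] (M : α → β → Ω) (R : Finset α) (C S : Finset β)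
  (N : ℕ), 2 ≤ N → R.card = N → C.card = N → S ⊆ C → SN K N (N - 1) →
  (3 ≤ N → SN K N (N - 2)) → Zs (N - 1) M R C →
  (S.card = N → (∀ i ∈ R, ∀ i' ∈ R.erase i,
      ∑ l ∈ S, ∑ l' ∈ S.erase l, PP M R C i i' l l' = 0) →
    ∃ e, e + 2 * N + 1 = N * N ∧ Dm K (ent M R C) e) ∧
  (S.card + 1 = N → (∀ i ∈ R, ∀ i' ∈ R.erase i, ∀ l ∈ C,
      ∑ l' ∈ S.erase l, PP M R C i i' l l' = 0) →
    ∃ e, e + 2 * N + 1 = N * N ∧ Dm K (ent M R C) e) ∧
  (S.card = N → (∀ i ∈ R, ∀ i' ∈ R.erase i, ∀ l ∈ C,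
      ∑ l' ∈ S.erase l, PP M R C i i' l l' = 0) →
    ∃ e, e + 2 * N + 2 = N * N ∧ Dm K (ent M R C) e)

/-- Lemma B' for `N` -/
def LB' (K : Type) [Field K] (N : ℕ) : Prop := ∀ (Ω : Type) [Field Ω] [Algebra K Ω]
  (α β : Type) [DecidableEq α] [DecidableEq β] (M : α → β → Ω) (c : α → Ω) (R : Finset α)
  (C S : Finset β), R.card = N → C.card = N → S ⊆ C →
  (∀ i ∈ R, ∀ l ∈ C, pm M (R.erase i) (C.erase l) = 0) →
  (∀ i ∈ R, ∑ l ∈ S, ∑ i' ∈ R.erase i, ∑ l' ∈ S.erase l, c i' * PP M R C i i' l l' = 0) →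
  (∀ l ∈ C, ∑ i ∈ R, ∑ i' ∈ R.erase i, ∑ l' ∈ S.erase l,
    c i * c i' * PP M R C i i' l l' = 0) →
  ∀ e : ℕ, e + S.card + 2 = N * N → Dm K (ent M R C ∪ c '' (R : Set α)) e

/-- PIECE LB': Lemma B' from the torus lemma. The first hypothesis is `Zs (N-1) M R C`, so
`Dm (ent M R C) (N² - 2N)`. Let `q l i i' = ∑ l' ∈ S.erase l, PP M R C i i' l l'` and
`Q i i' = ∑ l ∈ S, q l i i'` (symmetric in `i, i'`).
(α) some `Q i1 i2 ≠ 0`: the second hypothesis for `i1` and `i2` determines `c i2` and `c i1` from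
`M` and the other `c`: `Dm ≤ N² - 2N + N - 2`, enough as `|S| ≤ N`.
(β) `Q = 0`, some `q l i1 i2 ≠ 0` (`l ∈ C`): the third hypothesis for `l` and Lemma Quad: one `c`
is algebraic over `M` and the others: `Dm ≤ N² - 2N + N - 1`, enough if `|S| < N`; if `|S| = N`
use (T1): `Dm ≤ N² - 2N - 1 + N - 1`.
(γ) all `q l i i' = 0`: `Dm ≤ Dm(M) + N` is enough if `|S| ≤ N - 2`; use (T2) for `|S| = N - 1`
and (T3) for `|S| = N`. -/
def U_LB' : Prop := U_Torus → ∀ (K : Type) [Field K], (2 : K) ≠ 0 → ∀ N, 2 ≤ N →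
  SN K N (N - 1) → (3 ≤ N → SN K N (N - 2)) → LB' K N

/-- Lemma B for `N` -/
def LB (K : Type) [Field K] (N : ℕ) : Prop := ∀ (Ω : Type) [Field Ω] [Algebra K Ω]
  (α β : Type) [DecidableEq α] [DecidableEq β] (M : α → β → Ω) (c : α → Ω) (R : Finset α)
  (C S : Finset β), R.card = N → C.card = N → S ⊆ C →
  (∀ i ∈ R, ∀ l ∈ C, pm M (R.erase i) (C.erase l) +
    ∑ i' ∈ R.erase i, ∑ l' ∈ S.erase l, c i' * PP M R C i i' l l' = 0) →
  (∀ i ∈ R, ∑ l ∈ S, ∑ i' ∈ R.erase i, ∑ l' ∈ S.erase l, c i' * PP M R C i i' l l' = 0) →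
  (∀ l ∈ C, ∑ i ∈ R, ∑ i' ∈ R.erase i, ∑ l' ∈ S.erase l,
    c i * c i' * PP M R C i i' l l' = 0) →
  ∀ e : ℕ, e + S.card + 2 = N * N → Dm K (ent M R C ∪ c '' (R : Set α)) e

/-- PIECE LB: Lemma B from Lemma B' by the degeneration `(w M, c)`, `w → 0`: `U_Lim` with
`σ = (R × C) ⊕ R` (or `Finset`-coerced types), `v = (M, c)`, `vw = (X * C (M i l), C (c i))`.
For the first hypothesis `g = pm y + X_none * ∑ ∑ c * PP y` : `g (vw, X) = X^(N-1) * (..) = 0`
and `g (u, 0) = pm u`. The other two are homogeneous (`PP (w M) = w^(N-2) PP M`). -/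
def U_LB : Prop := U_Lim → ∀ (K : Type) [Field K] (N : ℕ), 2 ≤ N → LB' K N → LB K N

/-- PIECE Step: the step for `s = N`, matrices of size `N + 1`. All entries zero: trivial.
Otherwise choose `d = M i0 j0 ≠ 0`, `R'' = R.erase i0`, `C'' = C.erase j0`,
`S = {l ∈ C'' | M i0 l ≠ 0}`. Divide the column `l ∈ S` by `M i0 l` and the column `j0` by `d`
(`pm_scale`): `M'` with `M' i0 l = 1` on `S ∪ {j0}`, `0` on `C'' \ S`, and all `N`-subpermanents
vanish. `c i = M' i j0`. Removing row `i ∈ R''` and column `l ∈ C''`: expand along row `i0` and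
column `j0`: first hypothesis of `LB`. Removing row `i` and column `j0`, expanding along `i0`:
`∑ l ∈ S, pm M' (R''.erase i) (C''.erase l) = 0`, insert the first: second hypothesis. Removing
row `i0` and column `l`, expanding along column `j0`:
`∑ i ∈ R'', c i * pm M' (R''.erase i) (C''.erase l) = 0`, insert the first: third hypothesis.
`ent M R C ⊆ acl (ent M' R'' C'' ∪ c '' R'' ∪ {M i0 l | l ∈ S} ∪ {d})`, and
`N² - |S| - 2 + |S| + 1 = (N+1)² - 2(N+1)`. -/
def U_Step : Prop := ∀ (K : Type) [Field K] (N : ℕ), 2 ≤ N → LB K N → SN K (N + 1) N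

/-- PIECE Fin: heights. -/
def U_Fin : Prop := U_Td → ∀ (K : Type) [Field K], (∀ N, 2 ≤ N → SN K N (N - 1)) →
  ∀ n : ℕ, 2 ≤ n → (2 * n : ℕ) ≤ (Ideal.span (Set.range fun ij : Fin n × Fin n =>
    MvPolynomial.pderiv ij (Matrix.mvPolynomialX (Fin n) (Fin n) K).permanent)).height

end Pool.Agent.HS38.PX
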