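import Pool.Agent.HS38.PX.Robust

/-!
# Statements of the pieces of the approximative version (project XB)
-/

set_option autoImplicit false

namespace Pool.Agent.HS38.PX

open MvPolynomial Filter Topology

/-- the critical locus of `H` has dimension at most `e` -/
def Small {K : Type} [Field K] {σ : Type} (H : MvPolynomial σ K) (e : ℕ) : Prop :=
  ∀ (Ω : Type) [Field Ω] [Algebra K Ω] (u : σ → Ω), (∀ x, aeval u (pderiv x H) = 0) →
    Dm K (Set.range u) e

/-- the ideal of the critical locus together with the forms `ℓ` -/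
noncomputable def cj {K : Type} [Field K] {σ : Type} {e : ℕ} (H : MvPolynomial σ K)
    (ℓ : Fin e → MvPolynomial σ K) : Ideal (MvPolynomial σ K) :=
  Ideal.span (Set.range fun x => pderiv x H) ⊔ Ideal.span (Set.range ℓ)

/-- PIECE Par: linear parameters. `I_0 = (∂H)` is homogeneous. For `j = 1, 2, …` choose a linear
form `ℓ_j` which is in no minimal prime of `I_(j-1)` except possibly the ideal `m` of the variables
(`PL.pt 0`; `Subspace.biUnion_ne_univ_of_top_notMem`; finitely many minimal primes, all homogeneous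
by `PL.WHom.min` with the weight `fun _ => 1`, so contained in `m`). Then the dimension `PL.td` of the
primes containing `I_j` drops (`PL.td_lt`). `Small H e` gives `td K P ≤ e` for all primes `P` over
`(∂H)` (`u_td`, generic point in `FractionRing (MvPolynomial σ K ⧸ P)`, as in `height_subp` in
`Main.lean`). In the end `m` is the only possible minimal prime of `cj H ℓ`, so a power of `m` is
in `cj H ℓ`. -/
def V_Par : Prop := ∀ (K : Type) [Field K] [Infinite K] (σ : Type) [Fintype σ]
  (H : MvPolynomial σ K) (n e : ℕ), 1 ≤ n → H.IsHomogeneous n → Small H e →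
  ∃ (ℓ : Fin e → MvPolynomial σ K) (N : ℕ), (∀ j, (ℓ j).IsHomogeneous 1) ∧
    ∀ s : σ →₀ ℕ, s.degree = N → monomial s (1 : K) ∈ cj H ℓ

/-- PIECE Near: the condition is open. Write `monomial s 1 = ∑ a_i ∂_i H0 + ∑ b_j ℓ_j` for every `s`
of degree `N`, let `ν_s(t)` be the homogeneous component of degree `N` of
`∑ a_i ∂_i (H t) + ∑ b_j ℓ_j` (in `cj (H t) ℓ`, a homogeneous ideal). The matrix of the coefficients
of the `ν_s(t)` tends to the identity, so its determinant is not `0` for large `t` and the monomials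
are linear combinations of the `ν_s(t)`. -/
def V_Near : Prop := ∀ (σ : Type) [Fintype σ] (H : ℕ → MvPolynomial σ ℂ) (H0 : MvPolynomial σ ℂ)
  (n e N : ℕ) (ℓ : Fin e → MvPolynomial σ ℂ), 1 ≤ n → (∀ t, (H t).IsHomogeneous n) →
  (∀ d, Tendsto (fun t => (H t).coeff d) atTop (𝓝 (H0.coeff d))) →
  (∀ j, (ℓ j).IsHomogeneous 1) → (∀ s : σ →₀ ℕ, s.degree = N → monomial s (1 : ℂ) ∈ cj H0 ℓ) →
  ∀ᶠ t in atTop, ∀ s : σ →₀ ℕ, s.degree = N → monomial s (1 : ℂ) ∈ cj (H t) ℓ

/-- PIECE Fin2: conversely, such parameters bound the dimension. For `u` with `∂H(u) = 0` let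
`P = ker (aeval u)`, `P0 ≤ P` a minimal prime of `(∂H)`: homogeneous (`PL.WHom.min`), so contained in
`m = PL.pt 0`; `PL.cuts` for `P0 ≤ m` and the `ℓ j` gives `Q` with `td P0 ≤ td Q + e` and
`Q ≤ m`; `Q` contains `cj H ℓ`, hence a power of `m`, so `Q = m` and `td Q = 0` (`PL.td_pt`).
Then `u_td`. (If `(∂H) = ⊤` there is no `u`.) -/
def V_Fin2 : Prop := ∀ (K : Type) [Field K] (σ : Type) [Fintype σ] (H : MvPolynomial σ K)
  (n e N : ℕ) (ℓ : Fin e → MvPolynomial σ K), 1 ≤ n → H.IsHomogeneous n →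
  (∀ j, (ℓ j).IsHomogeneous 1) → (∀ s : σ →₀ ℕ, s.degree = N → monomial s (1 : K) ∈ cj H ℓ) →
  Small H e

/-- PIECE Spec (helper38): specialization `ε → 0`. -/
def V_Spec : Prop := ∀ (k : Type) [Field k] (σ : Type) [Fintype σ]
  (H : MvPolynomial σ (RatFunc k)) (H0 : MvPolynomial σ k) (n e : ℕ), 1 ≤ n →
  H.IsHomogeneous n →
  (∀ d, (H.coeff d).denom.eval 0 ≠ 0 ∧ (H.coeff d).eval (RingHom.id k) 0 = H0.coeff d) →
  Small H0 e → Small H e

/-- PIECE Top (helper38): lower order terms do not matter. -/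
def V_Top : Prop := ∀ (K : Type) [Field K] (σ : Type) [Fintype σ] (H R : MvPolynomial σ K)
  (n e : ℕ), H.IsHomogeneous n → R.totalDegree < n → Small H e → Small (H + R) e

end Pool.Agent.HS38.PX
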